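import Pool.Agent.H140.MH.Stm

/-!
# MH-CLS: residue classes (elementary divisibility)
-/

set_option autoImplicit false

namespace Pool.Agent.H140.MH

open Polynomial
open scoped Classical

namespace ClsAux

variable {K : Type} [Field K]

lemma exists_gcd (a b : K[X]) (hb : b ≠ 0) :
    ∃ d x y : K[X], d ≠ 0 ∧ a = d * x ∧ b = d * y ∧ IsCoprime x y := by
  have hd : EuclideanDomain.gcd a b ≠ 0 := by
    intro h
    exact hb ((EuclideanDomain.gcd_eq_zero_iff.mp h).2)
  obtain ⟨x, hx⟩ := EuclideanDomain.gcd_dvd_left a b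
  obtain ⟨y, hy⟩ := EuclideanDomain.gcd_dvd_right a b
  refine ⟨EuclideanDomain.gcd a b, x, y, hd, hx, hy, ?_⟩
  refine ⟨EuclideanDomain.gcdA a b, EuclideanDomain.gcdB a b, ?_⟩
  have h := EuclideanDomain.gcd_eq_gcd_ab a b
  refine mul_left_cancel₀ hd ?_
  have h2 : EuclideanDomain.gcd a b * (EuclideanDomain.gcdA a b * x + EuclideanDomain.gcdB a b * y) =
      (EuclideanDomain.gcd a b * x) * EuclideanDomain.gcdA a b +
        (EuclideanDomain.gcd a b * y) * EuclideanDomain.gcdB a b := by ring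
  rw [h2, ← hx, ← hy, ← h, mul_one]

lemma comp_eq (p : K[X][X]) (R a : K[X]) :
    ∃ Q : K[X][X], p.comp (C R * X + C a) = C (p.eval a) + C R * Q := by
  have h1 : (C R * X + C a : K[X][X]) - C a ∣ p.comp (C R * X + C a) - p.comp (C a) := by
    unfold Polynomial.comp
    rw [eval₂_eq_eval_map, eval₂_eq_eval_map]
    exact sub_dvd_eval_sub _ _ _
  obtain ⟨Q, hQ⟩ := h1
  refine ⟨X * Q, ?_⟩
  rw [comp_C] at hQ
  have h2 : p.comp (C R * X + C a) = C (p.eval a) + (C R * X + C a - C a) * Q := by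
    rw [← hQ]; ring
  rw [h2]; ring

end ClsAux

open ClsAux in
theorem cls : S_cls := by
  intro K _ U V u v r a₀ m hr hV huv hP
  have hr0 : r ≠ 0 := hr.ne_zero
  obtain ⟨F0, x, s, hF0, hA, hrm, hxs⟩ := exists_gcd (V.eval a₀) (r ^ m) (pow_ne_zero _ hr0)
  -- x is coprime to r
  have hxr : IsCoprime x r := by
    by_contra hcop
    have hex : ∃ P : K[X], Irreducible P ∧ P ∣ r ∧ P ∣ x := by
      obtain ⟨d, r', x', hd0, hdr, hdx, hcc⟩ : ∃ d x₁ y₁ : K[X], d ≠ 0 ∧ x = d * x₁ ∧ r = d * y₁ ∧ IsCoprime x₁ y₁ :=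
        exists_gcd x r hr0
      have hnu : ¬ IsUnit d := by
        intro hu
        apply hcop
        rw [hdr, hdx]
        exact (isCoprime_mul_unit_left hu r' x').mpr hcc
      obtain ⟨P, hPi, hPd⟩ := WfDvdMonoid.exists_irreducible_factor hnu hd0
      refine ⟨P, hPi, ?_, ?_⟩
      · rw [hdx]; exact hPd.mul_right _
      · rw [hdr]; exact hPd.mul_right _
    obtain ⟨P, hPi, hPr, hPx⟩ := hex
    apply hP P hPi hPr
    have hPs : ¬ P ∣ s := by
      intro hPs
      obtain ⟨α, β, hαβ⟩ := hxs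
      apply hPi.not_isUnit
      apply isUnit_of_dvd_one
      rw [← hαβ]
      exact dvd_add (hPx.mul_left _) (hPs.mul_left _)
    have hcPs : IsCoprime (P ^ m) s := by
      apply IsCoprime.pow_left
      exact (Irreducible.coprime_iff_not_dvd hPi).mpr hPs
    have h1 : P ^ m ∣ F0 * s := by
      rw [← hrm]
      exact pow_dvd_pow_of_dvd hPr m
    rw [hA]
    exact (hcPs.dvd_of_dvd_mul_right h1).mul_right x
  obtain ⟨D, y, F, hD, hB, hF0D, hyF⟩ := exists_gcd (U.eval a₀) F0 hF0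
  have hF : F ≠ 0 := by
    intro h
    apply hF0
    rw [hF0D, h, mul_zero]
  -- D divides r
  have hDr : D ∣ r := by
    have h1 : u.eval a₀ * U.eval a₀ + v.eval a₀ * V.eval a₀ = r := by
      have h2 := congrArg (fun p => Polynomial.eval a₀ p) huv
      simp only [eval_add, eval_mul, eval_C] at h2
      exact h2
    rw [← h1, hA, hB, hF0D]
    refine dvd_add ?_ ?_
    · exact (Dvd.intro _ rfl : D ∣ D * y).mul_left _
    · refine Dvd.dvd.mul_left ?_ _
      rw [mul_assoc]
      exact Dvd.intro _ rfl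
  obtain ⟨r₂, hr₂⟩ := hDr
  have hr₂0 : r₂ ≠ 0 := by
    intro h
    apply hr0
    rw [hr₂, h, mul_zero]
  have hR : r ^ (m + 1) = D * (F * s * r) := by
    rw [pow_succ, hrm, hF0D]; ring
  obtain ⟨QU, hQU⟩ := comp_eq U (r ^ (m + 1)) a₀
  obtain ⟨QV, hQV⟩ := comp_eq V (r ^ (m + 1)) a₀
  have hU2 : U.comp (C (r ^ (m + 1)) * X + C a₀) = C D * (C y + C (F * s * r) * QU) := by
    rw [hQU, hR, hB, C_mul, C_mul]; ring
  have hV2 : V.comp (C (r ^ (m + 1)) * X + C a₀) = C (D * F) * (C x + C (s * r) * QV) := by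
    rw [hQV, hR, hA, hF0D]
    simp only [C_mul]
    ring
  have hFr : F ∣ r ^ m := by
    rw [hrm, hF0D]
    exact (Dvd.intro_left _ rfl : F ∣ D * F).mul_right s
  have hxF : IsCoprime x F := (IsCoprime.pow_right hxr).of_isCoprime_of_dvd_right hFr
  have hV2cop : ∀ a, IsCoprime ((C x + C (s * r) * QV).eval a) r := by
    intro a
    rw [eval_add, eval_mul, eval_C, eval_C]
    have h1 : x + s * r * QV.eval a = x + r * (s * QV.eval a) := by ring
    rw [h1]
    exact IsCoprime.add_mul_left_left hxr _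
  refine ⟨D, F, r₂, C y + C (F * s * r) * QU, C x + C (s * r) * QV,
    u.comp (C (r ^ (m + 1)) * X + C a₀), C F * v.comp (C (r ^ (m + 1)) * X + C a₀), hD, hF, hr₂0, ?_, hU2, hV2, ?_, ?_, ?_⟩
  · intro h
    rw [h, mul_zero] at hV2
    rw [comp_eq_zero_iff] at hV2
    rcases hV2 with h1 | ⟨-, h1⟩
    · exact hV h1
    · have h2 := congrArg (fun p => Polynomial.coeff p 1) h1
      simp only [coeff_add, coeff_C_mul, coeff_X_one, mul_one, coeff_C_succ, add_zero] at h2
      exact pow_ne_zero _ hr0 h2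
  · have hCD : (C D : K[X][X]) ≠ 0 := by
      rw [Ne, C_eq_zero]; exact hD
    refine mul_left_cancel₀ hCD ?_
    have h1 := congrArg (fun p => Polynomial.comp p (C (r ^ (m + 1)) * X + C a₀)) huv
    simp only [add_comp, mul_comp, C_comp] at h1
    rw [hU2, hV2] at h1
    rw [← C_mul, ← hr₂, ← h1]
    simp only [C_mul]
    ring
  · intro a
    have h1 := hV2cop a
    refine IsCoprime.mul_right ?_ ?_
    · exact h1.of_isCoprime_of_dvd_right (by rw [hr₂]; exact Dvd.intro_left _ rfl)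
    · exact (IsCoprime.pow_right h1 (n := m)).of_isCoprime_of_dvd_right hFr
  · intro a
    rw [eval_add, eval_mul, eval_C, eval_C]
    have h1 : y + F * s * r * QU.eval a = y + F * (s * r * QU.eval a) := by ring
    rw [h1]
    exact IsCoprime.add_mul_left_left hyF _

end Pool.Agent.H140.MH
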