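import Pool.Agent.H140.MH.Stm

/-!
# Task MH-DEC: decomposition of a polynomial in `T ^ 2`
-/

set_option autoImplicit false

namespace Pool.Agent.H140.MH

open Polynomial
open scoped Classical

namespace DecL

/-- every polynomial over a perfect field of characteristic two is `x ^ 2 + X y ^ 2` -/
theorem dec1 {K : Type} [Field K] [Fintype K] [CharP K 2] (P : K[X]) :
    ∃ x y : K[X], P = x ^ 2 + X * y ^ 2 := by
  have h2 : (2 : K[X]) = 0 := by
    have : ((2 : ℕ) : K[X]) = 0 := CharP.cast_eq_zero _ _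
    exact_mod_cast this
  refine P.induction_on' ?_ ?_
  · rintro p q ⟨x, y, rfl⟩ ⟨x', y', rfl⟩
    exact ⟨x + x', y + y', by linear_combination (- x * x' - X * y * y') * h2⟩
  · intro n a
    obtain ⟨b, hb⟩ : ∃ b : K, b ^ 2 = a := by
      obtain ⟨b, hb⟩ := (PerfectRing.bijective_frobenius (R := K) (p := 2)).2 a
      exact ⟨b, hb⟩
    rcases Nat.even_or_odd' n with ⟨i, hi | hi⟩
    · refine ⟨monomial i b, 0, ?_⟩
      rw [hi, monomial_pow, hb]
      ring_nf
    · refine ⟨0, monomial i b, ?_⟩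
      rw [hi, monomial_pow, hb, X_mul_monomial]
      ring_nf

/-- polynomials in `T ^ 2` -/
theorem dec2 {K : Type} [Field K] [Fintype K] [CharP K 2] (h : K[X][X]) (hd : derivative h = 0) :
    ∃ U V : K[X][X], h = U ^ 2 + C X * V ^ 2 := by
  have h2 : (2 : K[X][X]) = 0 := by
    have : ((2 : ℕ) : K[X][X]) = 0 := CharP.cast_eq_zero _ _
    exact_mod_cast this
  have hodd : ∀ i, h.coeff (2 * i + 1) = 0 := by
    intro i
    have h3 := congrArg (fun p : K[X][X] => p.coeff (2 * i)) hd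
    simp only [coeff_derivative, coeff_zero] at h3
    have h4 : (((2 * i : ℕ) : K[X]) + 1) = 1 := by
      have h5 : ((2 : ℕ) : K[X]) = 0 := CharP.cast_eq_zero _ _
      rw [Nat.cast_mul, h5, zero_mul, zero_add]
    rw [h4, mul_one] at h3
    exact h3
  rw [h.as_sum_range' (h.natDegree + 1) (Nat.lt_succ_self _)]
  refine Finset.sum_induction _ (fun P : K[X][X] => ∃ U V : K[X][X], P = U ^ 2 + C X * V ^ 2) ?_ ?_ ?_
  · rintro p q ⟨x, y, rfl⟩ ⟨x', y', rfl⟩
    exact ⟨x + x', y + y', by linear_combination (- x * x' - C X * y * y') * h2⟩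
  · exact ⟨0, 0, by simp⟩
  · intro n _
    rcases Nat.even_or_odd' n with ⟨i, hi | hi⟩
    · obtain ⟨x, y, hxy⟩ := dec1 (h.coeff n)
      refine ⟨monomial i x, monomial i y, ?_⟩
      rw [hxy, hi, monomial_pow, monomial_pow, C_mul_monomial, mul_comm 2 i, map_add]
    · refine ⟨0, 0, ?_⟩
      rw [hi, hodd i]
      simp

/-- denominators -/
theorem clear {R F : Type} [CommRing R] [IsDomain R] [Field F] [Algebra R F] [IsFractionRing R F]
    (P : F[X]) : ∃ d : R, d ≠ 0 ∧ ∃ Q : R[X], Q.map (algebraMap R F) = C (algebraMap R F d) * P := by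
  obtain ⟨b, hbm, hb⟩ := IsLocalization.integerNormalization_spec (nonZeroDivisors R) P
  refine ⟨b, nonZeroDivisors.ne_zero hbm, _, hb.trans ?_⟩
  ext n
  simp [Algebra.smul_def]

end DecL

open DecL

theorem dec : S_dec := by
  intro K _ _ _ h h0 hd
  obtain ⟨U0, V0, hUV⟩ := dec2 h hd
  set F := FractionRing K[X] with hF
  set φ : K[X][X] →+* F[X] := mapRingHom (algebraMap K[X] F) with hφ
  have hinj : Function.Injective φ := by
    rw [hφ, coe_mapRingHom]
    exact map_injective _ (IsFractionRing.injective K[X] F)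
  set gam := EuclideanDomain.gcd (φ U0) (φ V0) with hgam
  obtain ⟨U1, hU1⟩ : gam ∣ φ U0 := EuclideanDomain.gcd_dvd_left _ _
  obtain ⟨V1, hV1⟩ : gam ∣ φ V0 := EuclideanDomain.gcd_dvd_right _ _
  have hgam0 : gam ≠ 0 := by
    intro hz
    rw [hz, zero_mul] at hU1 hV1
    apply h0
    rw [hUV, hinj (hU1.trans (map_zero φ).symm), hinj (hV1.trans (map_zero φ).symm)]
    ring
  have hbez := EuclideanDomain.gcd_eq_gcd_ab (φ U0) (φ V0)
  set a1 := EuclideanDomain.gcdA (φ U0) (φ V0)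
  set b1 := EuclideanDomain.gcdB (φ U0) (φ V0)
  have hb1 : a1 * U1 + b1 * V1 = 1 := by
    apply mul_left_cancel₀ hgam0
    have h3 : gam = (gam * U1) * a1 + (gam * V1) * b1 := by
      rw [← hU1, ← hV1]; exact hbez
    linear_combination - h3
  obtain ⟨d1, hd1, g, hg⟩ := clear (R := K[X]) gam
  obtain ⟨d2, hd2, U', hU'⟩ := clear (R := K[X]) U1
  obtain ⟨d3, hd3, V', hV'⟩ := clear (R := K[X]) V1
  obtain ⟨d4, hd4, u', hu'⟩ := clear (R := K[X]) a1
  obtain ⟨d5, hd5, v', hv'⟩ := clear (R := K[X]) b1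
  have hC : ∀ d : K[X], φ (C d) = C (algebraMap K[X] F d) := fun d => by
    rw [hφ, coe_mapRingHom, map_C]
  change φ g = _ at hg
  change φ U' = _ at hU'
  change φ V' = _ at hV'
  change φ u' = _ at hu'
  change φ v' = _ at hv'
  set r0 : K[X] := d2 * d3 * d4 * d5 with hr0
  have hr0' : r0 ≠ 0 := mul_ne_zero (mul_ne_zero (mul_ne_zero hd2 hd3) hd4) hd5
  have hlc : r0.leadingCoeff ≠ 0 := leadingCoeff_ne_zero.2 hr0'
  refine ⟨d1 * d2 * d3, C r0.leadingCoeff⁻¹ * r0, g, C d3 * U', C d2 * V', C (C r0.leadingCoeff⁻¹) * (C d5 * u'),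
    C (C r0.leadingCoeff⁻¹) * (C d4 * v'), mul_ne_zero (mul_ne_zero hd1 hd2) hd3, ?_, ?_, ?_, ?_⟩
  · rw [mul_comm]
    exact monic_mul_leadingCoeff_inv hr0'
  · intro hz
    rw [hz, map_zero] at hg
    have h3 : C (algebraMap K[X] F d1) ≠ 0 := by
      rw [Ne, C_eq_zero]
      exact (map_ne_zero_iff _ (IsFractionRing.injective K[X] F)).2 hd1
    exact (mul_ne_zero h3 hgam0) hg.symm
  · apply hinj
    rw [hUV]
    simp only [map_mul, map_pow, map_add, hC, hg, hU', hV', hU1, hV1]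
    ring
  · apply hinj
    simp only [map_mul, map_add, hC, hu', hv', hU', hV', hr0]
    linear_combination (C (algebraMap K[X] F (C r0.leadingCoeff⁻¹)) * (C (algebraMap K[X] F d2) *
      C (algebraMap K[X] F d3) * C (algebraMap K[X] F d4) * C (algebraMap K[X] F d5))) * hb1

end Pool.Agent.H140.MH
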