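import Mathlib
import Pool.Agent.H140.MX.Stm
import Pool.Agent.H140.MX.Fin
import Pool.Agent.H524.LD.ParInfG
import Pool.Agent.H604.LD.Deg

/-!
# The Liouville function at all polynomials in `T ^ 2` over `F_q[X]`, `q` even (helper140): parts

`h = U ^ 2 + X V ^ 2`, `U, V ∈ K[X][T]`.  The parity of the number of prime factors of `A ^ 2 + X B ^ 2`
is given by the coefficient at infinity and the residues at `B = 0` of an explicit differential
(`S_par`, checked numerically); for `A = U(a)`, `B = V(a)` this is a polynomial phase in short windows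
(`S_flath`).
-/

set_option autoImplicit false

namespace Pool.Agent.H140.MH

open Polynomial
open scoped Classical
open Pool.Agent.H985.Chow (mob lc Kp)
open Pool.Agent.H985.KP (sg)
open Pool.Agent.H524 (red emb frobLift AC)
open Pool.Agent.H694.Typ (Mn)
open Pool.Agent.H140.Q (liou)
open Pool.Agent.H140.MX (CDeg S_cd)
open Pool.Agent.H604.LD (rf)
open Pool.Agent.H604.LD.DegL (res)

section defs

variable {R : Type} [CommRing R]

/-- `A' ^ 2 + X B' ^ 2`. -/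
noncomputable def ss (A B : R[X]) : R[X] := derivative A ^ 2 + X * derivative B ^ 2

/-- `Z = X (A' ^ 2 + X B' ^ 2) (A A' + X B B')`. -/
noncomputable def zz (A B : R[X]) : R[X] := X * (ss A B * Kp A B)

/-- `W = X J ((A' ^ 2 + X B' ^ 2) (A A' + X B B') J + A' B' B)`. -/
noncomputable def ww (A B J : R[X]) : R[X] :=
  X * J * (ss A B * Kp A B * J + derivative A * derivative B * B)

/-- `Q = X t ((A' ^ 2 + X B' ^ 2) (A A' + X B B') t + r ^ 2 A' B' B)`. -/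
noncomputable def qq (r A B t : R[X]) : R[X] :=
  X * t * (ss A B * Kp A B * t + r ^ 2 * (derivative A * derivative B * B))

/-- The polynomial `G = A ^ 2 + X B ^ 2`. -/
noncomputable def gg (A B : R[X]) : R[X] := A ^ 2 + X * B ^ 2

end defs

/-- The phase; `J` is an inverse of `A` modulo `B ^ 2`.  `res` is the coefficient of `X⁻¹`. -/
noncomputable def phi {K : Type} [Field K] (A B J : K[X]) : K :=
  res (rf (zz A B) / rf (B ^ 2 * gg A B)) + res (rf (ww A B J) / rf (B ^ 2))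

/-- the constant -/
def kap (n β : ℕ) : ℤ := if Even n then -((n / 2 : ℕ) : ℤ) ^ 2 + 2 * (n / 2 : ℕ) * β else (β : ℤ) ^ 2

/-- **Task MH-RING.**  The first and the second sum, over any integral domain. -/
def S_ring : Prop :=
  ∀ (R : Type) [CommRing R] [IsDomain R] (A E J P : R[X]) (c : R) (n β : ℕ), E.Monic →
    E.natDegree = β → (gg A (C c * E)).Monic → (gg A (C c * E)).natDegree = n → 1 ≤ n →
    2 * A.natDegree ≤ n → 2 * β + 1 ≤ n → (Even n → A.coeff (n / 2) ^ 2 = 1) →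
    (¬ Even n → c ^ 2 = 1) →
    lc (gg A (C c * E)) (Kp A (C c * E)) = ((n / 2 : ℕ) : R) ∧
    (E ^ 2 ∣ A * J - 1 → gg A (C c * E) ∣ Kp A (C c * E) ^ 2 - P * E ^ 2 →
      lc (gg A (C c * E)) P = c ^ 2 * (kap n β : R) -
        2 * lc (E ^ 2) (X * (C c * E) * derivative (C c * E) * derivative A * J))

/-- **Task MH-THIRD.**  The third sum, in characteristic two. -/
def S_third : Prop :=
  ∀ (F : Type) [Field F] [CharP F 2] (A E J p : F[X]) (c : F), E.Monic → c ≠ 0 →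
    (gg A (C c * E)).Monic → E ^ 2 ∣ A * J - 1 →
    gg A (C c * E) ∣ Kp A (C c * E) ^ 3 - p * (C c * E) ^ 4 →
    c ^ 2 * lc (gg A (C c * E)) p = lc (E ^ 2 * gg A (C c * E)) (zz A (C c * E)) +
      lc (E ^ 2) (zz A (C c * E) * J ^ 2)

/-- **Task MH-WIT.**  The data in the Witt vectors. -/
def S_wit : Prop :=
  ∀ (K : Type) [Field K] [Fintype K] [CharP K 2] (n β : ℕ) (A B J : K[X]), 1 ≤ n → B ≠ 0 →
    (gg A B).Monic → (gg A B).natDegree = n → B.natDegree = β → B ^ 2 ∣ A * J - 1 →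
    ∃ V Y N z w : WittVector 2 (AC K),
      frobLift K V = (((-1) ^ n * mob (gg A B) : ℤ) : WittVector 2 (AC K)) * V ∧
      red (AC K) V ≠ 0 ∧ frobLift K Y = Y ∧ red (AC K) Y ≠ 0 ∧
      (-1) ^ (n * (n - 1) / 2) * V ^ 2 = Y ^ 2 * N ∧ red (AC K) N = 1 ∧
      N = 1 + 2 * ((n / 2 : ℕ) : WittVector 2 (AC K)) + 2 * ((n / 2 : ℕ) : WittVector 2 (AC K)) ^ 2 +
        2 * (kap n β : WittVector 2 (AC K)) + 4 * z + 8 * w ∧
      red (AC K) z = algebraMap K (AC K) (phi A B J)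

/-- Assembly of WIT. -/
def S_witasm : Prop := S_ring → S_third → S_wit

/-- **Task MH-PAR.**  The parity of `A ^ 2 + X B ^ 2`. -/
def S_par : Prop :=
  ∀ (K : Type) [Field K] [Fintype K] [CharP K 2] (n β : ℕ), 1 ≤ n →
    ∃ η : ℝ, (η = 1 ∨ η = -1) ∧ ∀ A B J : K[X], B ≠ 0 → (gg A B).Monic →
      (gg A B).natDegree = n → B.natDegree = β → B ^ 2 ∣ A * J - 1 →
      (mob (gg A B) : ℝ) = η * sg (phi A B J)

/-- Assembly of PAR. -/
def S_parasm : Prop := S_wit → S_par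

/-- **Task MH-VAN2.**  Cube sums of coefficients at infinity vanish. -/
def S_van2 : Prop :=
  ∀ (K : Type) [Field K] [CharP K 2] (k D m G e : ℕ) (Q P : Finset (Fin k) → K[X]), 1 ≤ G →
    (∀ S, Q S ≠ 0) → (Q ∅).natDegree = e →
    (∀ S, Q S ≠ Q ∅ → (Q S - Q ∅).natDegree + G ≤ e) → (∀ S, (P S).natDegree ≤ e + m * G) →
    CDeg D Q → CDeg D P → D * (m + 3) < k →
    ∑ S : Finset (Fin k), res (rf (P S) / rf (Q S)) = 0

/-- Assembly of VAN2. -/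
def S_van2asm : Prop := S_cd → S_van2

/-- **Task MH-PAIR.**  The residues at `V = 0` are replaced by those at infinity. -/
def S_pair : Prop :=
  ∀ (K : Type) [Field K] [CharP K 2] (r F A₁ V₁ J₁ t₁ A₂ V₂ J₂ t₂ : K[X]), r ≠ 0 → F ≠ 0 →
    V₁ ≠ 0 → V₂ ≠ 0 → IsCoprime V₁ (r * F) → IsCoprime V₂ (r * F) →
    (F * V₁) ^ 2 ∣ A₁ * J₁ - 1 → (F * V₂) ^ 2 ∣ A₂ * J₂ - 1 →
    V₁ ^ 2 ∣ t₁ * A₁ - r ^ 2 → V₂ ^ 2 ∣ t₂ * A₂ - r ^ 2 →
    r ^ 4 * F ^ 2 ∣ A₁ - A₂ → r ^ 4 * F ^ 2 ∣ derivative A₁ - derivative A₂ →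
    r ^ 4 * F ^ 2 ∣ V₁ - V₂ → r ^ 4 * F ^ 2 ∣ derivative V₁ - derivative V₂ →
    r ^ 4 * F ^ 2 ∣ t₁ - t₂ →
    res (rf (ww A₁ (F * V₁) J₁) / rf ((F * V₁) ^ 2)) +
        res (rf (qq r A₁ (F * V₁) t₁) / rf (r ^ 4 * (F * V₁) ^ 2)) =
      res (rf (ww A₂ (F * V₂) J₂) / rf ((F * V₂) ^ 2)) +
        res (rf (qq r A₂ (F * V₂) t₂) / rf (r ^ 4 * (F * V₂) ^ 2))

/-- **Task MH-EVF.**  Degrees of the values of a polynomial. -/
def S_evf : Prop :=
  ∀ (K : Type) [Field K] (f : K[X][X]), f ≠ 0 →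
    (∃ n₀ : ℕ, ∀ a : K[X], a.Monic → n₀ ≤ a.natDegree → f.eval a ≠ 0 ∧
      (f.eval a).natDegree = f.natDegree * a.natDegree + f.leadingCoeff.natDegree ∧
      (f.eval a).leadingCoeff = f.leadingCoeff.leadingCoeff) ∧
    ∀ M : ℕ, ∃ c n₀ : ℕ, ∀ a δ : K[X], a.Monic → n₀ ≤ a.natDegree → δ.natDegree ≤ M →
      f.eval (a + δ) ≠ f.eval a →
      (f.eval (a + δ) - f.eval a).natDegree + a.natDegree ≤ (f.eval a).natDegree + c

/-- **Task MH-FLATH.** -/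
def S_flath : Prop :=
  ∀ (K : Type) [Field K] [Fintype K] [CharP K 2] (U V u v : K[X][X]) (r F μ : K[X]),
    r ≠ 0 → F ≠ 0 → V ≠ 0 → u * U + v * V = C r → (∀ a, IsCoprime (V.eval a) (r * F)) →
    (∀ a, IsCoprime (U.eval a) F) →
    ∃ (k : ℕ) (N : K[X]), N ≠ 0 ∧ ∀ M : ℕ, ∃ n₀ : ℕ, ∀ n : ℕ, n₀ ≤ n → ∀ a ∈ Mn K n,
      ∀ t : Fin k → K[X], (∀ j, (t j).degree < (M : WithBot ℕ)) →
        ∏ B : Finset (Fin k), (liou (gg (U.eval (a + μ * (N * ∑ j ∈ B, t j) ^ 2))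
          (F * V.eval (a + μ * (N * ∑ j ∈ B, t j) ^ 2))) : ℝ) = 1

/-- Assembly of FLATH. -/
def S_flathasm : Prop := S_par → S_van2 → S_pair → S_evf → S_cd → S_flath

/-- **Task MH-DEC.**  Decomposition of a polynomial in `T ^ 2`. -/
def S_dec : Prop :=
  ∀ (K : Type) [Field K] [Fintype K] [CharP K 2] (h : K[X][X]), h ≠ 0 → derivative h = 0 →
    ∃ (e r : K[X]) (g U V u v : K[X][X]), e ≠ 0 ∧ r.Monic ∧ g ≠ 0 ∧
      C (e ^ 2) * h = g ^ 2 * (U ^ 2 + C X * V ^ 2) ∧ u * U + v * V = C r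

/-- **Task MH-CLS.**  Residue classes. -/
def S_cls : Prop :=
  ∀ (K : Type) [Field K] (U V u v : K[X][X]) (r a₀ : K[X]) (m : ℕ), r.Monic → V ≠ 0 →
    u * U + v * V = C r → (∀ P : K[X], Irreducible P → P ∣ r → ¬ P ^ m ∣ V.eval a₀) →
    ∃ (D F r₂ : K[X]) (U₂ V₂ u₂ v₂ : K[X][X]), D ≠ 0 ∧ F ≠ 0 ∧ r₂ ≠ 0 ∧ V₂ ≠ 0 ∧
      U.comp (C (r ^ (m + 1)) * X + C a₀) = C D * U₂ ∧
      V.comp (C (r ^ (m + 1)) * X + C a₀) = C (D * F) * V₂ ∧
      u₂ * U₂ + v₂ * V₂ = C r₂ ∧ (∀ a, IsCoprime (V₂.eval a) (r₂ * F)) ∧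
      (∀ a, IsCoprime (U₂.eval a) F)

/-- **Task MH-DEN.**  The exceptional residue classes have small density. -/
def S_den : Prop :=
  ∀ (K : Type) [Field K] [Fintype K] (V : K[X][X]) (r : K[X]), V ≠ 0 → r ≠ 0 → ∀ ε : ℝ, 0 < ε →
    ∃ m n₀ : ℕ, ∀ n : ℕ, n₀ ≤ n →
      (((Mn K n).filter (fun a => ∃ P : K[X], Irreducible P ∧ P ∣ r ∧ P ^ m ∣ V.eval a)).card : ℝ) ≤
        ε * (Fintype.card K : ℝ) ^ n

end Pool.Agent.H140.MH
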