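import Mathlib
import Pool.Agent.H140.MH.Stm

/-!
# Task MH-DEN: the exceptional residue classes have small density
-/

set_option autoImplicit false

namespace Pool.Agent.H140.MH.Den

open Polynomial
open scoped Classical
open Pool.Agent.H694.Typ (Mn mem_Mn card_Mn card_dvd q_ge)

section key

variable {R : Type} [CommRing R] [IsDomain R]

theorem pow_cancel {p y : R} (hp : Prime p) {m : ℕ} : ∀ (j : ℕ) (x : R), ¬ p ^ j ∣ x →
    p ^ (m + j) ∣ x * y → p ^ m ∣ y := by
  intro j
  induction j with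
  | zero =>
    intro x hx _
    rw [pow_zero] at hx
    exact absurd (one_dvd x) hx
  | succ j ih =>
    intro x hx h
    by_cases hpx : p ∣ x
    · obtain ⟨x', rfl⟩ := hpx
      refine ih x' ?_ ?_
      · intro h1
        apply hx
        rw [pow_succ, mul_comm]
        exact mul_dvd_mul_left p h1
      · rw [← add_assoc, pow_succ, mul_comm (p ^ (m + j)) p, mul_assoc] at h
        exact (mul_dvd_mul_iff_left hp.ne_zero).1 h
    · have h1 := hp.pow_dvd_of_dvd_mul_left _ hpx h
      exact (pow_dvd_pow p (by omega)).trans h1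

theorem key {p : R} (hp : Prime p) (hfin : ∀ l : R, l ≠ 0 → ∃ m : ℕ, ¬ p ^ m ∣ l) (j : ℕ) :
    ∀ (d : ℕ) (l : R), l ≠ 0 → ∃ m : ℕ, ∀ V : R[X], V.natDegree = d → V.leadingCoeff = l →
      ∀ s : Finset R, (∀ a ∈ s, p ^ m ∣ V.eval a) →
        (∀ a ∈ s, ∀ b ∈ s, a ≠ b → ¬ p ^ j ∣ a - b) → s.card ≤ d := by
  intro d
  induction d with
  | zero =>
    intro l hl
    obtain ⟨m, hm⟩ := hfin l hl
    refine ⟨m, fun V hV hVl s hs _ => ?_⟩
    rw [Nat.le_zero, Finset.card_eq_zero, Finset.eq_empty_iff_forall_notMem]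
    intro a ha
    have h1 := hs a ha
    rw [eq_C_of_natDegree_eq_zero hV, eval_C] at h1
    apply hm
    rw [← hVl, leadingCoeff, hV]
    exact h1
  | succ d ih =>
    intro l hl
    obtain ⟨m, hm⟩ := ih l hl
    refine ⟨m + j, fun V hV hVl s hs hsep => ?_⟩
    by_cases hse : s = ∅
    · rw [hse, Finset.card_empty]
      omega
    · obtain ⟨a₀, ha₀⟩ := Finset.nonempty_iff_ne_empty.2 hse
      have hV0 : V ≠ 0 := by
        intro h
        rw [h, leadingCoeff_zero] at hVl
        exact hl hVl.symm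
      have hmon : (X - C a₀ : R[X]).Monic := monic_X_sub_C a₀
      have hdeg : (X - C a₀ : R[X]).degree ≤ V.degree := by
        rw [degree_X_sub_C, degree_eq_natDegree hV0, hV]
        exact_mod_cast (by omega : 1 ≤ d + 1)
      have h1 : (V /ₘ (X - C a₀)).natDegree = d := by
        rw [natDegree_divByMonic V hmon, hV, natDegree_X_sub_C]
        omega
      have h2 : (V /ₘ (X - C a₀)).leadingCoeff = l := by
        rw [leadingCoeff_divByMonic_of_monic hmon hdeg, hVl]
      have h3 : ∀ a : R, V.eval a - V.eval a₀ = (a - a₀) * (V /ₘ (X - C a₀)).eval a := by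
        intro a
        have h4 := modByMonic_add_div V (X - C a₀)
        rw [modByMonic_X_sub_C_eq_C_eval] at h4
        have h5 := congrArg (Polynomial.eval a) h4
        rw [eval_add, eval_C, eval_mul, eval_sub, eval_X, eval_C] at h5
        rw [← h5]
        ring
      have h6 := hm (V /ₘ (X - C a₀)) h1 h2 (s.erase a₀) (by
        intro a ha
        rw [Finset.mem_erase] at ha
        refine pow_cancel hp j (a - a₀) (hsep a ha.2 a₀ ha₀ ha.1) ?_
        rw [← h3]
        exact dvd_sub (hs a ha.2) (hs a₀ ha₀)) (by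
        intro a ha b hb hab
        exact hsep a (Finset.mem_of_mem_erase ha) b (Finset.mem_of_mem_erase hb) hab)
      rw [Finset.card_erase_of_mem ha₀] at h6
      omega

end key

variable {K : Type} [Field K] [Fintype K]

/-- the monic polynomials in a residue class -/
theorem card_cls {n : ℕ} {A : K[X]} (hA : A.Monic) (hn : A.natDegree ≤ n) (b : K[X]) :
    ((Mn K n).filter (fun a => a %ₘ A = b)).card ≤ Fintype.card K ^ (n - A.natDegree) := by
  rcases Finset.eq_empty_or_nonempty ((Mn K n).filter (fun a => a %ₘ A = b)) with h | ⟨c, hc⟩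
  · rw [h, Finset.card_empty]
    exact Nat.zero_le _
  · rw [Finset.mem_filter, mem_Mn] at hc
    obtain ⟨⟨hc1, hc2⟩, hc3⟩ := hc
    rw [← card_dvd hA hn]
    refine Finset.card_le_card_of_injOn (fun a => A * X ^ (n - A.natDegree) + (a - c)) ?_ ?_
    · intro a ha
      rw [Finset.mem_coe, Finset.mem_filter, mem_Mn] at ha
      obtain ⟨⟨ha1, ha2⟩, ha3⟩ := ha
      rw [Finset.mem_coe, Finset.mem_filter, mem_Mn]
      have hB : (A * X ^ (n - A.natDegree)).Monic := hA.mul (monic_X_pow _)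
      have hBn : (A * X ^ (n - A.natDegree)).natDegree = n := by
        rw [hA.natDegree_mul (monic_X_pow _), natDegree_X_pow]
        omega
      have hlt : (a - c).degree < (A * X ^ (n - A.natDegree)).degree := by
        have h1 : a.degree = (n : WithBot ℕ) := by rw [degree_eq_natDegree ha1.ne_zero, ha2]
        have h2 : c.degree = (n : WithBot ℕ) := by rw [degree_eq_natDegree hc1.ne_zero, hc2]
        have h3 : (A * X ^ (n - A.natDegree)).degree = (n : WithBot ℕ) := by
          rw [degree_eq_natDegree hB.ne_zero, hBn]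
        rw [h3, ← h1]
        refine degree_sub_lt_left (by rw [h1, h2]) ha1.ne_zero ?_
        rw [ha1.leadingCoeff, hc1.leadingCoeff]
      refine ⟨⟨hB.add_of_left hlt, ?_⟩, ?_⟩
      · rw [natDegree_add_eq_left_of_degree_lt hlt, hBn]
      · refine dvd_add (dvd_mul_right _ _) ?_
        rw [← modByMonic_eq_zero_iff_dvd hA, sub_modByMonic, ha3, hc3, sub_self]
    · intro a _ a' _ h
      have h1 : A * X ^ (n - A.natDegree) + (a - c) = A * X ^ (n - A.natDegree) + (a' - c) := h
      exact sub_left_injective (add_left_cancel h1)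

omit [Fintype K] in
theorem pow_not_dvd {P : K[X]} (hP : Irreducible P) {l : K[X]} (hl : l ≠ 0) :
    ∃ m : ℕ, ¬ P ^ m ∣ l := by
  refine ⟨l.natDegree + 1, fun h => ?_⟩
  have h1 := natDegree_le_of_dvd h hl
  rw [natDegree_pow] at h1
  have h2 : 1 ≤ P.natDegree := hP.natDegree_pos
  nlinarith

theorem count {V : K[X][X]} (hV : V ≠ 0) {P : K[X]} (hP : P.Monic) (hirr : Irreducible P) (j : ℕ) :
    ∃ m : ℕ, ∀ n : ℕ, j * P.natDegree ≤ n →
      ((Mn K n).filter (fun a => P ^ m ∣ V.eval a)).card ≤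
        Fintype.card K ^ (n - j * P.natDegree) * V.natDegree := by
  obtain ⟨m, hm⟩ := key hirr.prime (fun l hl => pow_not_dvd hirr hl) j V.natDegree
    V.leadingCoeff (leadingCoeff_ne_zero.2 hV)
  refine ⟨m, fun n hn => ?_⟩
  have hA : (P ^ j).Monic := hP.pow j
  have hAn : (P ^ j).natDegree = j * P.natDegree := natDegree_pow P j
  have h1 := Finset.card_le_mul_card_image (f := fun a : K[X] => a %ₘ (P ^ j))
    ((Mn K n).filter (fun a => P ^ m ∣ V.eval a)) (Fintype.card K ^ (n - j * P.natDegree)) (by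
      intro b _
      have h2 := card_cls (n := n) hA (by rw [hAn]; exact hn) b
      rw [hAn] at h2
      refine le_trans (Finset.card_le_card ?_) h2
      intro a ha
      rw [Finset.mem_filter, Finset.mem_filter] at ha
      rw [Finset.mem_filter]
      exact ⟨ha.1.1, ha.2⟩)
  refine h1.trans (Nat.mul_le_mul_left _ ?_)
  -- choose representatives
  obtain ⟨g, hg⟩ : ∃ g : K[X] → K[X], ∀ b ∈ ((Mn K n).filter
      (fun a => P ^ m ∣ V.eval a)).image (fun a : K[X] => a %ₘ (P ^ j)),
      P ^ m ∣ V.eval (g b) ∧ g b %ₘ (P ^ j) = b := by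
    have h2 : ∀ b : K[X], ∃ a : K[X], b ∈ ((Mn K n).filter
        (fun a => P ^ m ∣ V.eval a)).image (fun a : K[X] => a %ₘ (P ^ j)) →
        P ^ m ∣ V.eval a ∧ a %ₘ (P ^ j) = b := by
      intro b
      by_cases hb : b ∈ ((Mn K n).filter
        (fun a => P ^ m ∣ V.eval a)).image (fun a : K[X] => a %ₘ (P ^ j))
      · rw [Finset.mem_image] at hb
        obtain ⟨a, ha, hab⟩ := hb
        rw [Finset.mem_filter] at ha
        exact ⟨a, fun _ => ⟨ha.2, hab⟩⟩
      · exact ⟨0, fun h => absurd h hb⟩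
    choose g hg using h2
    exact ⟨g, hg⟩
  have hinj : Set.InjOn g (((Mn K n).filter
      (fun a => P ^ m ∣ V.eval a)).image (fun a : K[X] => a %ₘ (P ^ j)) : Finset K[X]) := by
    intro b hb b' hb' h
    rw [Finset.mem_coe] at hb hb'
    rw [← (hg b hb).2, ← (hg b' hb').2, h]
  rw [← Finset.card_image_of_injOn hinj]
  refine hm V rfl rfl _ ?_ ?_
  · intro a ha
    rw [Finset.mem_image] at ha
    obtain ⟨b, hb, rfl⟩ := ha
    exact (hg b hb).1
  · intro a ha a' ha' hne hdvd
    rw [Finset.mem_image] at ha ha'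
    obtain ⟨b, hb, rfl⟩ := ha
    obtain ⟨b', hb', rfl⟩ := ha'
    apply hne
    rw [← modByMonic_eq_zero_iff_dvd hA, sub_modByMonic, (hg b hb).2, (hg b' hb').2,
      sub_eq_zero] at hdvd
    rw [hdvd]

theorem den_main : S_den := by
  intro K _ _ V r hV hr ε hε
  have hq := q_ge (k := K)
  have hq0 : (0 : ℝ) < (Fintype.card K : ℝ) := by linarith
  obtain ⟨Ps, hPs⟩ : ∃ Ps : Finset K[X],
      Ps = (UniqueFactorizationMonoid.normalizedFactors r).toFinset := ⟨_, rfl⟩
  have hPs1 : ∀ P ∈ Ps, Irreducible P ∧ P.Monic ∧ P ∣ r := by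
    intro P hP
    rw [hPs, Multiset.mem_toFinset] at hP
    have h1 := UniqueFactorizationMonoid.irreducible_of_normalized_factor P hP
    refine ⟨h1, ?_, UniqueFactorizationMonoid.dvd_of_mem_normalizedFactors hP⟩
    rw [← UniqueFactorizationMonoid.normalize_normalized_factor P hP]
    exact monic_normalize h1.ne_zero
  have hPs2 : ∀ P : K[X], Irreducible P → P ∣ r → normalize P ∈ Ps := by
    intro P hP hPr
    rw [hPs, Multiset.mem_toFinset]
    obtain ⟨Q, hQ, hPQ⟩ := UniqueFactorizationMonoid.exists_mem_normalizedFactors_of_dvd hr hP hPr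
    have h1 := UniqueFactorizationMonoid.normalize_normalized_factor Q hQ
    rw [normalize_eq_normalize_iff_associated.2 hPQ, h1]
    exact hQ
  -- the exponent `j`
  obtain ⟨j, hj⟩ : ∃ j : ℕ, (Ps.card : ℝ) * V.natDegree * (1 / 2 : ℝ) ^ j ≤ ε := by
    have h1 : Filter.Tendsto (fun j : ℕ => (Ps.card : ℝ) * V.natDegree * (1 / 2 : ℝ) ^ j)
        Filter.atTop (nhds 0) := by
      have := (tendsto_pow_atTop_nhds_zero_of_lt_one (r := (1 / 2 : ℝ)) (by norm_num)
        (by norm_num)).const_mul ((Ps.card : ℝ) * V.natDegree)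
      simpa using this
    exact ((h1.eventually (gt_mem_nhds hε)).exists).imp fun _ h => le_of_lt h
  have hm : ∀ P : K[X], ∃ m : ℕ, P ∈ Ps → ∀ n : ℕ, j * P.natDegree ≤ n →
      ((Mn K n).filter (fun a => P ^ m ∣ V.eval a)).card ≤
        Fintype.card K ^ (n - j * P.natDegree) * V.natDegree := by
    intro P
    by_cases hP : P ∈ Ps
    · obtain ⟨m, hm⟩ := count hV (hPs1 P hP).2.1 (hPs1 P hP).1 j
      exact ⟨m, fun _ => hm⟩
    · exact ⟨0, fun h => absurd h hP⟩
  choose m hm using hm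
  refine ⟨∑ P ∈ Ps, m P, j * r.natDegree, fun n hn => ?_⟩
  have hsub : (Mn K n).filter (fun a => ∃ P : K[X], Irreducible P ∧ P ∣ r ∧
      P ^ (∑ P ∈ Ps, m P) ∣ V.eval a) ⊆
      Ps.biUnion (fun P => (Mn K n).filter (fun a => P ^ m P ∣ V.eval a)) := by
    intro a ha
    rw [Finset.mem_filter] at ha
    obtain ⟨haM, P, hP, hPr, hPa⟩ := ha
    rw [Finset.mem_biUnion]
    have hN := hPs2 P hP hPr
    refine ⟨normalize P, hN, ?_⟩
    rw [Finset.mem_filter]
    refine ⟨haM, ?_⟩
    have h1 : m (normalize P) ≤ ∑ P ∈ Ps, m P :=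
      Finset.single_le_sum (f := m) (fun _ _ => Nat.zero_le _) hN
    refine (pow_dvd_pow _ h1).trans ?_
    have h2 : normalize P ^ (∑ P ∈ Ps, m P) ∣ P ^ (∑ P ∈ Ps, m P) :=
      pow_dvd_pow_of_dvd (normalize_associated P).dvd _
    exact h2.trans hPa
  have hcard : (((Mn K n).filter (fun a => ∃ P : K[X], Irreducible P ∧ P ∣ r ∧
      P ^ (∑ P ∈ Ps, m P) ∣ V.eval a)).card : ℝ) ≤
      ∑ P ∈ Ps, (((Mn K n).filter (fun a => P ^ m P ∣ V.eval a)).card : ℝ) := by
    exact_mod_cast (Finset.card_le_card hsub).trans Finset.card_biUnion_le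
  refine hcard.trans ?_
  have hterm : ∀ P ∈ Ps, (((Mn K n).filter (fun a => P ^ m P ∣ V.eval a)).card : ℝ) ≤
      V.natDegree * (1 / 2 : ℝ) ^ j * (Fintype.card K : ℝ) ^ n := by
    intro P hP
    obtain ⟨hP1, hP2, hP3⟩ := hPs1 P hP
    have hdP : 1 ≤ P.natDegree := hP1.natDegree_pos
    have hdP2 : P.natDegree ≤ r.natDegree := natDegree_le_of_dvd hP3 hr
    have hjn : j * P.natDegree ≤ n := (Nat.mul_le_mul_left j hdP2).trans hn
    have h1 : (((Mn K n).filter (fun a => P ^ m P ∣ V.eval a)).card : ℝ) ≤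
        (Fintype.card K : ℝ) ^ (n - j * P.natDegree) * V.natDegree := by
      exact_mod_cast hm P hP n hjn
    have h2 : (Fintype.card K : ℝ) ^ (n - j * P.natDegree) ≤
        (1 / 2 : ℝ) ^ j * (Fintype.card K : ℝ) ^ n := by
      have h3 : (Fintype.card K : ℝ) ^ n = (Fintype.card K : ℝ) ^ (n - j * P.natDegree) *
          (Fintype.card K : ℝ) ^ (j * P.natDegree) := by
        rw [← pow_add]
        congr 1
        omega
      have h4 : (2 : ℝ) ^ j ≤ (Fintype.card K : ℝ) ^ (j * P.natDegree) := by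
        calc (2 : ℝ) ^ j ≤ (Fintype.card K : ℝ) ^ j := pow_le_pow_left₀ (by norm_num) hq j
          _ ≤ (Fintype.card K : ℝ) ^ (j * P.natDegree) :=
            pow_le_pow_right₀ (by linarith) (Nat.le_mul_of_pos_right j hdP)
      have h5 : (1 : ℝ) ≤ (1 / 2 : ℝ) ^ j * (Fintype.card K : ℝ) ^ (j * P.natDegree) := by
        calc (1 : ℝ) = (1 / 2 : ℝ) ^ j * 2 ^ j := by rw [← mul_pow]; norm_num
          _ ≤ _ := mul_le_mul_of_nonneg_left h4 (by positivity)
      rw [h3]
      calc (Fintype.card K : ℝ) ^ (n - j * P.natDegree)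
          = (Fintype.card K : ℝ) ^ (n - j * P.natDegree) * 1 := by rw [mul_one]
        _ ≤ (Fintype.card K : ℝ) ^ (n - j * P.natDegree) *
            ((1 / 2 : ℝ) ^ j * (Fintype.card K : ℝ) ^ (j * P.natDegree)) :=
          mul_le_mul_of_nonneg_left h5 (by positivity)
        _ = _ := by ring
    calc (((Mn K n).filter (fun a => P ^ m P ∣ V.eval a)).card : ℝ)
        ≤ (Fintype.card K : ℝ) ^ (n - j * P.natDegree) * V.natDegree := h1
      _ ≤ ((1 / 2 : ℝ) ^ j * (Fintype.card K : ℝ) ^ n) * V.natDegree :=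
        mul_le_mul_of_nonneg_right h2 (by positivity)
      _ = _ := by ring
  refine (Finset.sum_le_sum hterm).trans ?_
  rw [Finset.sum_const, nsmul_eq_mul]
  calc (Ps.card : ℝ) * (V.natDegree * (1 / 2 : ℝ) ^ j * (Fintype.card K : ℝ) ^ n)
      = ((Ps.card : ℝ) * V.natDegree * (1 / 2 : ℝ) ^ j) * (Fintype.card K : ℝ) ^ n := by ring
    _ ≤ ε * (Fintype.card K : ℝ) ^ n := mul_le_mul_of_nonneg_right hj (by positivity)

end Pool.Agent.H140.MH.Den

/-- **Task MH-DEN.** -/
theorem Pool.Agent.H140.MH.den : Pool.Agent.H140.MH.S_den := Pool.Agent.H140.MH.Den.den_main
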