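import Pool.Agent.H140.MH.Stm

/-!
# `S_evf` of helper140: degrees of the values of a polynomial (written by helper553)
-/

set_option autoImplicit false

namespace Pool.Agent.H140.MH

open Polynomial

namespace EvfProof

variable {K : Type} [Field K]

/-- a bound for the degrees of the coefficients -/
theorem exists_H (f : K[X][X]) : ∃ H : ℕ, ∀ i, (f.coeff i).natDegree ≤ H := by
  refine ⟨(Finset.range (f.natDegree + 1)).sup fun i => (f.coeff i).natDegree, fun i => ?_⟩
  by_cases h : i < f.natDegree + 1
  · exact Finset.le_sup (f := fun i => (f.coeff i).natDegree) (Finset.mem_range.2 h)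
  · rw [Polynomial.coeff_eq_zero_of_natDegree_lt (by omega)]
    simp

/-- degree of a value -/
theorem natDegree_eval_le (g : K[X][X]) (H e n : ℕ) (hH : ∀ i, (g.coeff i).natDegree ≤ H)
    (he : g.natDegree ≤ e) (a : K[X]) (ha : a.natDegree ≤ n) :
    (g.eval a).natDegree ≤ H + e * n := by
  rw [Polynomial.eval_eq_sum_range]
  refine Polynomial.natDegree_sum_le_of_forall_le _ _ fun i hi => ?_
  have hi' : i ≤ e := by
    have := Finset.mem_range.1 hi
    omega
  refine Polynomial.natDegree_mul_le.trans ?_
  have h1 : (a ^ i).natDegree ≤ i * n :=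
    Polynomial.natDegree_pow_le.trans (Nat.mul_le_mul_left i ha)
  have h2 : i * n ≤ e * n := Nat.mul_le_mul_right n hi'
  have h3 := hH i
  omega

theorem pow_diff (a δ : K[X]) (n M : ℕ) (ha : a.natDegree ≤ n) (hδ : δ.natDegree ≤ M)
    (hM : M ≤ n) (i : ℕ) : ((a + δ) ^ (i + 1) - a ^ (i + 1)).natDegree ≤ M + i * n := by
  induction i with
  | zero => simpa using hδ
  | succ i ih =>
    have e : (a + δ) ^ (i + 1 + 1) - a ^ (i + 1 + 1) =
        ((a + δ) ^ (i + 1) - a ^ (i + 1)) * (a + δ) + a ^ (i + 1) * δ := by ring
    rw [e]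
    have h0 : (a + δ).natDegree ≤ n :=
      (Polynomial.natDegree_add_le _ _).trans (max_le ha (hδ.trans hM))
    have h1 : (((a + δ) ^ (i + 1) - a ^ (i + 1)) * (a + δ)).natDegree ≤ M + (i + 1) * n := by
      refine Polynomial.natDegree_mul_le.trans ?_
      have : M + (i + 1) * n = M + i * n + n := by ring
      omega
    have h2 : (a ^ (i + 1) * δ).natDegree ≤ M + (i + 1) * n := by
      refine Polynomial.natDegree_mul_le.trans ?_
      have : (a ^ (i + 1)).natDegree ≤ (i + 1) * n :=
        Polynomial.natDegree_pow_le.trans (Nat.mul_le_mul_left _ ha)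
      omega
    exact (Polynomial.natDegree_add_le _ _).trans (max_le h1 h2)

/-- the first part -/
theorem part1 (f : K[X][X]) (hf : f ≠ 0) (H : ℕ) (hH : ∀ i, (f.coeff i).natDegree ≤ H)
    (a : K[X]) (ha : a.Monic) (hn : H + 1 ≤ a.natDegree) : f.eval a ≠ 0 ∧
      (f.eval a).natDegree = f.natDegree * a.natDegree + f.leadingCoeff.natDegree ∧
      (f.eval a).leadingCoeff = f.leadingCoeff.leadingCoeff := by
  set d := f.natDegree with hd
  set n := a.natDegree with hnn
  have hl : f.leadingCoeff ≠ 0 := Polynomial.leadingCoeff_ne_zero.2 hf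
  set q : K[X] := f.leadingCoeff * a ^ d with hq
  have hq0 : q ≠ 0 := mul_ne_zero hl (pow_ne_zero _ ha.ne_zero)
  have hqd : q.natDegree = d * n + f.leadingCoeff.natDegree := by
    rw [hq, Polynomial.natDegree_mul hl (pow_ne_zero _ ha.ne_zero), Polynomial.natDegree_pow]
    ring
  have hql : q.leadingCoeff = f.leadingCoeff.leadingCoeff := by
    rw [hq, Polynomial.leadingCoeff_mul, Polynomial.leadingCoeff_pow, ha.leadingCoeff, one_pow,
      mul_one]
  have hfe : f.eval a = f.eraseLead.eval a + q := by
    have h1 := congrArg (fun g => Polynomial.eval a g) (Polynomial.eraseLead_add_monomial_natDegree_leadingCoeff f)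
    simp only [Polynomial.eval_add, Polynomial.eval_monomial] at h1
    rw [← h1]
  have hdeg : (f.eraseLead.eval a).degree < q.degree := by
    by_cases h0 : f.eraseLead = 0
    · rw [h0, Polynomial.eval_zero, Polynomial.degree_zero]
      exact bot_lt_iff_ne_bot.2 (fun h => hq0 (Polynomial.degree_eq_bot.1 h))
    · by_cases h00 : f.eraseLead.eval a = 0
      · rw [h00, Polynomial.degree_zero]
        exact bot_lt_iff_ne_bot.2 (fun h => hq0 (Polynomial.degree_eq_bot.1 h))
      have hd1 : 1 ≤ d := by
        by_contra hcon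
        have hd0 : f.natDegree = 0 := by omega
        apply h0
        have h2 := Polynomial.eq_C_of_natDegree_eq_zero hd0
        rw [h2]
        exact Polynomial.eraseLead_C _
      have h1 : f.eraseLead.natDegree ≤ d - 1 := Polynomial.eraseLead_natDegree_le f
      have hHe : ∀ i, (f.eraseLead.coeff i).natDegree ≤ H := by
        intro i
        rw [Polynomial.eraseLead_coeff]
        split_ifs
        · simp
        · exact hH i
      have h2 := natDegree_eval_le f.eraseLead H (d - 1) n hHe h1 a le_rfl
      rw [Polynomial.degree_eq_natDegree h00, Polynomial.degree_eq_natDegree hq0]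
      have h3 : (d - 1) * n + n = d * n := by
        have : d = (d - 1) + 1 := by omega
        calc (d - 1) * n + n = ((d - 1) + 1) * n := by ring
          _ = d * n := by rw [← this]
      have h4 : (f.eraseLead.eval a).natDegree < q.natDegree := by omega
      exact_mod_cast h4
  have hlead : (f.eval a).leadingCoeff = f.leadingCoeff.leadingCoeff := by
    rw [hfe, Polynomial.leadingCoeff_add_of_degree_lt hdeg, hql]
  refine ⟨?_, ?_, hlead⟩
  · intro h
    rw [h, Polynomial.leadingCoeff_zero] at hlead
    exact (Polynomial.leadingCoeff_ne_zero.2 hl) hlead.symm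
  · rw [hfe, ← hqd]
    exact Polynomial.natDegree_eq_natDegree (Polynomial.degree_add_eq_right_of_degree_lt hdeg)

end EvfProof

open EvfProof in
theorem evf : S_evf := by
  intro K _ f hf
  obtain ⟨H, hH⟩ := exists_H f
  refine ⟨⟨H + 1, fun a ha hn => part1 f hf H hH a ha hn⟩, fun M => ⟨H + M, H + 1 + M, ?_⟩⟩
  intro a δ ha hn hδ hne
  have h1 := (part1 f hf H hH a ha (by omega)).2.1
  have hd1 : 1 ≤ f.natDegree := by
    by_contra hcon
    apply hne
    have h2 := Polynomial.eq_C_of_natDegree_eq_zero (p := f) (by omega)
    rw [h2, Polynomial.eval_C, Polynomial.eval_C]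
  have hdiff : (f.eval (a + δ) - f.eval a).natDegree ≤ H + M + (f.natDegree - 1) * a.natDegree := by
    rw [Polynomial.eval_eq_sum_range, Polynomial.eval_eq_sum_range, ← Finset.sum_sub_distrib]
    refine Polynomial.natDegree_sum_le_of_forall_le _ _ fun i hi => ?_
    rw [← mul_sub]
    cases i with
    | zero => simp
    | succ i =>
      have hi' := Finset.mem_range.1 hi
      have h3 := pow_diff a δ a.natDegree M le_rfl hδ (by omega) i
      have h4 : i * a.natDegree ≤ (f.natDegree - 1) * a.natDegree :=
        Nat.mul_le_mul_right _ (by omega)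
      have h5 := hH (i + 1)
      refine Polynomial.natDegree_mul_le.trans ?_
      omega
  have h3 : (f.natDegree - 1) * a.natDegree + a.natDegree = f.natDegree * a.natDegree := by
    have : f.natDegree = (f.natDegree - 1) + 1 := by omega
    calc (f.natDegree - 1) * a.natDegree + a.natDegree
        = ((f.natDegree - 1) + 1) * a.natDegree := by ring
      _ = f.natDegree * a.natDegree := by rw [← this]
  omega

end Pool.Agent.H140.MH
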