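import Mathlib
import Pool.Agent.H140.MH.Stm
import Pool.Agent.H140.MX.All
import Pool.Agent.H526.PE.Gcsp
import Pool.Agent.H526.PE.Phl

/-!
# Higher order uniformity of `λ(f(g))`, complex polynomial phases (helper140)
-/

set_option autoImplicit false

namespace Pool.Agent.H140.MH

open Polynomial Finset
open scoped Classical
open Pool.Agent.H694.Typ (Mn mem_Mn card_Mn)
open Pool.Agent.H140.Q (liou)
open Pool.Agent.H140.Q.FinM (liou_mul liou_zero)
open Pool.Agent.H140.E.FinE (liou_prod)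
open Pool.Agent.H140.MX
open Pool.Agent.H251.SP.TII (Pl mem_Pl card_Pl)
open Pool.Agent.H526.PE (Ph)

open Pool.Agent.H140.MX.GmL in
/-- The inequality of Gowers, Cauchy and Schwarz with a polynomial phase. -/
theorem gmC (K : Type) [Field K] [Fintype K] [CharP K 2] (k M : ℕ) (μ N : K[X]) : ∃ n₀ : ℕ,
    ∀ n : ℕ, n₀ ≤ n → ∀ F : K[X] → ℝ, (∀ a, |F a| ≤ 1) → ∀ (P : K[X] → ℂ) (s : ℕ), s ≤ k →
      Ph s P →
      ‖(∑ a ∈ Mn K n, ((F a : ℝ) : ℂ) * P a) / (Fintype.card K : ℂ) ^ n‖ ^ (2 ^ k) ≤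
        (∑ t ∈ Fintype.piFinset (fun _ : Fin k => Pl K M),
          |(∑ a ∈ Mn K n, ∏ B : Finset (Fin k), F (a + μ * (N * ∑ j ∈ B, t j) ^ 2)) /
            (Fintype.card K : ℝ) ^ n|) / ((Fintype.card K : ℝ) ^ M) ^ k := by
  refine ⟨μ.natDegree + 2 * N.natDegree + 2 * M + 1, ?_⟩
  intro n hn F hF P s hsk hP
  have hn' : μ.natDegree + 2 * N.natDegree + 2 * M < n := hn
  letI : ∀ m, Fintype (degreeLT K m) := fun m => GmL.fdl m
  have hP2 : Ph s (fun u : degreeLT K n => P (X ^ n + (u : K[X]))) := by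
    have := Pool.Agent.H526.PE.Phl.main.2.2.2.1 K[X] (degreeLT K n) s P
      (degreeLT K n).subtype.toAddMonoidHom (X ^ n) hP
    exact this
  have h := Pool.Agent.H526.PE.Gcsp.main (degreeLT K n) (degreeLT K M) (Fin k)
    (fun _ => dir (μ := μ) (N := N) hn')
    (fun u => F (X ^ n + (u : K[X]))) (fun u => P (X ^ n + (u : K[X]))) s (fun u => hF _) hP2
    (by rw [Fintype.card_fin]; exact hsk)
  rw [Fintype.card_fin, card_dl, card_dl, Nat.cast_pow, Nat.cast_pow, Nat.cast_pow] at h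
  have e1 : ∑ a ∈ Mn K n, ((F a : ℝ) : ℂ) * P a =
      ∑ u : degreeLT K n, ((F (X ^ n + (u : K[X])) : ℝ) : ℂ) * P (X ^ n + (u : K[X])) := by
    symm
    refine Finset.sum_bij (fun u _ => X ^ n + (u : K[X])) ?_ ?_ ?_ ?_
    · intro u _
      have hu := mem_degreeLT.1 u.2
      rw [mem_Mn]
      refine ⟨monic_X_pow_add hu, ?_⟩
      rw [natDegree_add_eq_left_of_degree_lt (by rw [degree_X_pow]; exact hu), natDegree_X_pow]
    · intro u _ v _ h
      exact Subtype.ext (add_left_cancel h)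
    · intro a ha
      rw [mem_Mn] at ha
      obtain ⟨c, hc⟩ := Pool.Agent.H694.Typ.exists_mon ha.1 ha.2
      refine ⟨⟨Pool.Agent.H694.Typ.pol c, ?_⟩, Finset.mem_univ _, ?_⟩
      · rw [mem_degreeLT]
        exact Pool.Agent.H694.Typ.pol_degree c
      · exact hc
    · intro u _
      rfl
  rw [e1, sum_pi]
  refine h.trans (le_of_eq ?_)
  congr 1
  refine Finset.sum_congr rfl fun t _ => ?_
  rw [sum_Mn]
  congr 2
  refine Finset.sum_congr rfl fun u _ => ?_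
  refine Finset.prod_congr rfl fun A _ => ?_
  rw [Submodule.coe_add, dir_sum, add_assoc]

/-- **Higher order uniformity** of `λ(f(g))`, with complex phases. -/
def S_genC : Prop :=
  ∀ (K : Type) [Field K] [Fintype K] [CharP K 2] (f : K[X][X]) (μ N : K[X]) (k s : ℕ),
    0 < f.natDegree → (f.map (algebraMap K[X] (RatFunc K))).Separable → μ ≠ 0 → N ≠ 0 →
    SqR f μ → ∀ ε : ℝ, 0 < ε → ∃ M n₀ : ℕ, ∀ n : ℕ, n₀ ≤ n → ∀ w Ψ : K[X] → ℝ,
      (∀ g, |w g| ≤ 1) →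
      (∀ g, ∃ χ : AddChar K[X] ℝ, ∀ u, w (g + μ * u ^ 2) = w g * χ u) →
      (∀ g, |Ψ g| ≤ 1) → FlatAt μ Ψ k N M n → ∀ P : K[X] → ℂ, Ph s P →
      ‖∑ g ∈ Mn K n, ((w g * ((liou (f.eval g) : ℝ) * Ψ g) : ℝ) : ℂ) * P g‖ ≤
        ε * (Fintype.card K : ℝ) ^ n

theorem genC (hs : S_sep) (hc : S_cnt) : S_genC := by
  intro K _ _ _ f μ N k₀ s₀ hd hsep hμ hN hr ε hε
  have hq1 : 1 < Fintype.card K := Fintype.one_lt_card
  have hq : (0 : ℝ) < (Fintype.card K : ℝ) := by exact_mod_cast (zero_lt_one.trans hq1)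
  have hq1' : (1 : ℝ) < (Fintype.card K : ℝ) := by exact_mod_cast hq1
  obtain ⟨k, hk⟩ : ∃ k : ℕ, k = max (max k₀ 2) s₀ := ⟨_, rfl⟩
  have hks : s₀ ≤ k := by omega
  have hk2 : 2 ≤ k := by omega
  have hk0 : k₀ ≤ k := by omega
  obtain ⟨Z, hZ⟩ := hs K f μ N k hd hsep hμ hN hr
  -- the parameters
  obtain ⟨η, hη⟩ : ∃ η : ℝ, η = ε ^ (2 ^ k) := ⟨_, rfl⟩
  have hη0 : 0 < η := by rw [hη]; positivity
  obtain ⟨M, hM⟩ : ∃ M : ℕ, 2 ^ k * (Z.card : ℝ) / (η / 2) < (Fintype.card K : ℝ) ^ M :=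
    pow_unbounded_of_one_lt _ hq1'
  have hqM : (0 : ℝ) < (Fintype.card K : ℝ) ^ M := by positivity
  have hM' : 2 ^ k * (Z.card : ℝ) ≤ η / 2 * (Fintype.card K : ℝ) ^ M := by
    rw [div_lt_iff₀ (by positivity)] at hM
    linarith
  obtain ⟨n₁, h1⟩ := add_mem μ N M
  obtain ⟨n₂, h2⟩ := gmC K k M μ N
  -- the separable part
  set T : Finset (Fin k → K[X]) := Fintype.piFinset (fun _ : Fin k => Pl K M) with hT
  set Bad : (Fin k → K[X]) → Prop := fun t => ∃ B : Finset (Fin k), B.Nonempty ∧ ∑ j ∈ B, t j ∈ Z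
    with hBad
  have h3 : ∀ t : Fin k → K[X], ∃ n₃ : ℕ, ¬ Bad t → ∀ n : ℕ, n₃ ≤ n → ∀ w : K[X] → ℝ,
      (∀ g, |w g| ≤ 1) →
      (∀ g, ∃ χ : AddChar K[X] ℝ, ∀ x, w (g + μ * x ^ 2) = w g * χ x) →
      |∑ g ∈ Mn K n, w g *
        (liou ((∏ B : Finset (Fin k), f.comp (X + C (μ * (N * ∑ j ∈ B, t j) ^ 2))).eval g) : ℝ)| ≤
          η / 2 * (Fintype.card K : ℝ) ^ n := by
    intro t
    by_cases ht : Bad t
    · exact ⟨0, fun h => absurd ht h⟩
    · have ht' : ∀ B : Finset (Fin k), B.Nonempty → ∑ j ∈ B, t j ∉ Z := by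
        intro B hB hBZ
        exact ht ⟨B, hB, hBZ⟩
      obtain ⟨e1, e2, e3⟩ := hZ t ht'
      obtain ⟨n₃, h4⟩ := Pool.Agent.H140.E.all K _ μ e1 e2 hμ e3 (η / 2) (by positivity)
      refine ⟨n₃, fun _ n hn w hw hw2 => ?_⟩
      have := (h4 n hn w hw hw2).1
      rw [MD_eq, finsum_mem_coe_finset] at this
      exact this
  choose n₃ h3 using h3
  refine ⟨M, max (max n₁ n₂) (T.sup n₃), fun n hn w Ψ hw hw2 hΨ hΨ2 P hP => ?_⟩
  have hn1 : n₁ ≤ n := (le_max_left _ _).trans ((le_max_left _ _).trans hn)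
  have hn2 : n₂ ≤ n := (le_max_right _ _).trans ((le_max_left _ _).trans hn)
  have hn3 : ∀ t ∈ T, n₃ t ≤ n := fun t ht =>
    (Finset.le_sup ht).trans ((le_max_right _ _).trans hn)
  have hΨ3 : FlatAt μ Ψ k N M n := flatAt_mono (h1 n hn1) hΨ2 hk0
  have hqn : (0 : ℝ) < (Fintype.card K : ℝ) ^ n := by positivity
  set F : K[X] → ℝ := fun a => w a * ((liou (f.eval a) : ℝ) * Ψ a) with hF
  have hF1 : ∀ a, |F a| ≤ 1 := by
    intro a
    have e1 := hΨ a
    rw [hF]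
    simp only [abs_mul]
    have e2 := liou_abs (f.eval a)
    have e3 := hw a
    have e4 := abs_nonneg (w a)
    have e5 := abs_nonneg (liou (f.eval a) : ℝ)
    have e6 := abs_nonneg (Ψ a)
    exact mul_le_one₀ e3 (mul_nonneg e5 e6) (mul_le_one₀ e2 e6 e1)
  have hGM := h2 n hn2 F hF1 P s₀ hks hP
  -- the cube products
  have hcube : ∀ t ∈ T, ∀ a ∈ Mn K n,
      ∏ B : Finset (Fin k), F (a + μ * (N * ∑ j ∈ B, t j) ^ 2) = w a ^ (2 ^ k) *
        (liou ((∏ B : Finset (Fin k),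
          f.comp (X + C (μ * (N * ∑ j ∈ B, t j) ^ 2))).eval a) : ℝ) := by
    intro t ht a ha
    have ht' : ∀ j, (t j).degree < (M : WithBot ℕ) := fun j =>
      mem_Pl.1 (Fintype.mem_piFinset.1 ht j)
    rw [hF]
    simp only []
    rw [Finset.prod_mul_distrib, Finset.prod_mul_distrib, cube_weight hw2 hk2, hΨ3 a ha t ht',
      mul_one, eval_prod, liou_prod]
    push_cast
    congr 1
    refine Finset.prod_congr rfl fun B _ => ?_
    rw [eval_comp, eval_add, eval_X, eval_C]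
  have hgood : ∀ t ∈ T, ¬ Bad t →
      |(∑ a ∈ Mn K n, ∏ B : Finset (Fin k), F (a + μ * (N * ∑ j ∈ B, t j) ^ 2)) /
        (Fintype.card K : ℝ) ^ n| ≤ η / 2 := by
    intro t ht hbad
    rw [Finset.sum_congr rfl (hcube t ht), abs_div, abs_of_pos hqn, div_le_iff₀ hqn]
    refine h3 t hbad n (hn3 t ht) (fun a => w a ^ (2 ^ k)) (fun g => ?_) (pow_weight hw2 (2 ^ k))
    rw [abs_pow]
    exact pow_le_one₀ (abs_nonneg _) (hw g)
  have hall : ∀ t : Fin k → K[X],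
      |(∑ a ∈ Mn K n, ∏ B : Finset (Fin k), F (a + μ * (N * ∑ j ∈ B, t j) ^ 2)) /
        (Fintype.card K : ℝ) ^ n| ≤ 1 := by
    intro t
    rw [abs_div, abs_of_pos hqn, div_le_one hqn]
    refine (Finset.abs_sum_le_sum_abs _ _).trans ?_
    have : ∑ a ∈ Mn K n, |∏ B : Finset (Fin k), F (a + μ * (N * ∑ j ∈ B, t j) ^ 2)| ≤
        ∑ a ∈ Mn K n, (1 : ℝ) := by
      refine Finset.sum_le_sum fun a _ => ?_
      rw [Finset.abs_prod]
      exact Finset.prod_le_one (fun i _ => abs_nonneg _) (fun i _ => hF1 _)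
    refine this.trans ?_
    rw [Finset.sum_const, card_Mn, nsmul_eq_mul, mul_one]
    push_cast
    exact le_rfl
  -- counting
  have hTcard : (T.card : ℝ) = ((Fintype.card K : ℝ) ^ M) ^ k := by
    rw [hT, Fintype.card_piFinset, Finset.prod_const, card_Pl, Finset.card_univ,
      Fintype.card_fin]
    push_cast
    rfl
  have hcnt := hc K k M Z
  have hsum : ∑ t ∈ T,
      |(∑ a ∈ Mn K n, ∏ B : Finset (Fin k), F (a + μ * (N * ∑ j ∈ B, t j) ^ 2)) /
        (Fintype.card K : ℝ) ^ n| ≤ η * ((Fintype.card K : ℝ) ^ M) ^ k := by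
    have hb : ((T.filter Bad).card : ℝ) ≤ η / 2 * ((Fintype.card K : ℝ) ^ M) ^ k := by
      have e1 : ((T.filter Bad).card : ℝ) * (Fintype.card K : ℝ) ^ M ≤
          η / 2 * ((Fintype.card K : ℝ) ^ M) ^ k * (Fintype.card K : ℝ) ^ M := by
        refine hcnt.trans ?_
        have : (0 : ℝ) ≤ ((Fintype.card K : ℝ) ^ M) ^ k := by positivity
        nlinarith
      exact le_of_mul_le_mul_right e1 hqM
    rw [← Finset.sum_filter_add_sum_filter_not T Bad]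
    have e1 : ∑ t ∈ T.filter Bad,
        |(∑ a ∈ Mn K n, ∏ B : Finset (Fin k), F (a + μ * (N * ∑ j ∈ B, t j) ^ 2)) /
          (Fintype.card K : ℝ) ^ n| ≤ ((T.filter Bad).card : ℝ) := by
      refine (Finset.sum_le_sum fun t _ => hall t).trans ?_
      rw [Finset.sum_const, nsmul_eq_mul, mul_one]
    have e2 : ∑ t ∈ T.filter (fun t => ¬ Bad t),
        |(∑ a ∈ Mn K n, ∏ B : Finset (Fin k), F (a + μ * (N * ∑ j ∈ B, t j) ^ 2)) /
          (Fintype.card K : ℝ) ^ n| ≤ η / 2 * (T.card : ℝ) := by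
      refine (Finset.sum_le_sum fun t ht => hgood t (Finset.mem_filter.1 ht).1
        (Finset.mem_filter.1 ht).2).trans ?_
      rw [Finset.sum_const, nsmul_eq_mul, mul_comm]
      refine mul_le_mul_of_nonneg_left ?_ (by positivity)
      exact_mod_cast Finset.card_filter_le _ _
    rw [hTcard] at e2
    linarith
  have hfin : ‖(∑ a ∈ Mn K n, ((F a : ℝ) : ℂ) * P a) / (Fintype.card K : ℂ) ^ n‖ ^ (2 ^ k) ≤
      ε ^ (2 ^ k) := by
    refine hGM.trans ?_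
    rw [div_le_iff₀ (by positivity), ← hη]
    exact hsum
  have hfin2 : ‖(∑ a ∈ Mn K n, ((F a : ℝ) : ℂ) * P a) / (Fintype.card K : ℂ) ^ n‖ ≤ ε :=
    le_of_pow_le_pow_left₀ (by positivity) hε.le hfin
  rw [norm_div, norm_pow, Complex.norm_natCast, div_le_iff₀ hqn] at hfin2
  exact hfin2

theorem s_genC : S_genC := genC sep cnt

end Pool.Agent.H140.MH
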