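import Mathlib
import Pool.Agent.H140.MH.Stm
import Pool.Agent.H140.MX.All
import Pool.Agent.H140.MH.GenC

/-!
# Chowla for `f(g) h(g)`, `h` any polynomial in `T ^ 2` (helper140): assembly
-/

set_option autoImplicit false

namespace Pool.Agent.H140.MH

open Polynomial Finset
open scoped Classical
open Pool.Agent.H694.Typ (Mn mem_Mn card_Mn)
open Pool.Agent.H140.Q (liou)
open Pool.Agent.H140.Q.FinM (liou_mul liou_zero liou_self liou_unit)
open Pool.Agent.H140.MX
open Pool.Agent.H251.SP.TII (Pl mem_Pl card_Pl)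
open Pool.Agent.H526.PE (Ph)

section basic

variable {K : Type} [Field K]

/-- the decomposition into residue classes -/
theorem sum_classes [Fintype K] (R : K[X]) (hR : R.Monic) (n : ℕ) (hn : R.natDegree ≤ n)
    (F : K[X] → ℂ) :
    ∑ a ∈ Mn K n, F a =
      ∑ a₀ ∈ Pl K R.natDegree, ∑ g ∈ Mn K (n - R.natDegree), F (R * g + a₀) := by
  rw [← Finset.sum_product']
  symm
  refine Finset.sum_bij (fun p _ => R * p.2 + p.1) ?_ ?_ ?_ ?_
  · intro p hp
    rw [mem_product, mem_Pl, mem_Mn] at hp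
    obtain ⟨h1, h2, h3⟩ := hp
    rw [mem_Mn]
    have h4 : (R * p.2).Monic := hR.mul h2
    have h5 : (R * p.2).natDegree = n := by
      rw [hR.natDegree_mul h2, h3]; omega
    have h6 : p.1.degree < (R * p.2).degree := by
      refine lt_of_lt_of_le h1 ?_
      rw [degree_eq_natDegree h4.ne_zero, h5]
      exact_mod_cast hn
    exact ⟨h4.add_of_left h6, by rw [natDegree_add_eq_left_of_degree_lt h6, h5]⟩
  · intro p hp p' hp' h
    rw [mem_product, mem_Pl] at hp hp'
    have hd : R.degree = (R.natDegree : WithBot ℕ) := degree_eq_natDegree hR.ne_zero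
    have e1 := div_modByMonic_unique (f := R * p.2 + p.1) (g := R) p.2 p.1 hR
      ⟨by ring, by rw [hd]; exact hp.1⟩
    have e2 := div_modByMonic_unique (f := R * p'.2 + p'.1) (g := R) p'.2 p'.1 hR
      ⟨by ring, by rw [hd]; exact hp'.1⟩
    rw [h] at e1
    exact Prod.ext (e1.2.symm.trans e2.2) (e1.1.symm.trans e2.1)
  · intro a ha
    rw [mem_Mn] at ha
    refine ⟨(a %ₘ R, a /ₘ R), ?_, ?_⟩
    · rw [mem_product, mem_Pl, mem_Mn]
      refine ⟨?_, ?_, ?_⟩
      · rw [← degree_eq_natDegree hR.ne_zero]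
        exact degree_modByMonic_lt _ hR
      · rw [Monic, leadingCoeff_divByMonic_of_monic hR (by
          rw [degree_eq_natDegree hR.ne_zero, degree_eq_natDegree ha.1.ne_zero, ha.2]
          exact_mod_cast hn)]
        exact ha.1
      · rw [natDegree_divByMonic a hR, ha.2]
    · simp only
      rw [add_comm]
      exact modByMonic_add_div a R
  · intro p _
    rfl

theorem ph_comp {s : ℕ} {P : K[X] → ℂ} (h : Ph s P) (R a₀ : K[X]) :
    Ph s (fun g => P (R * g + a₀)) := by
  have := Pool.Agent.H526.PE.Phl.main.2.2.2.1 K[X] K[X] s P (AddMonoidHom.mulLeft R) a₀ h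
  refine Eq.mp ?_ this
  congr 1
  funext g
  rw [AddMonoidHom.coe_mulLeft, add_comm]

theorem FlatAt.mul [Fintype K] {μ : K[X]} {F F' : K[X] → ℝ} {k : ℕ} {N : K[X]} {M n : ℕ}
    (h : FlatAt μ F k N M n) (h' : FlatAt μ F' k N M n) :
    FlatAt μ (fun a => F a * F' a) k N M n := by
  intro a ha t ht
  rw [Finset.prod_mul_distrib, h a ha t ht, h' a ha t ht, mul_one]

theorem liou_sq_mul {a b : K[X]} (ha : a ≠ 0) : liou (a ^ 2 * b) = liou b := by
  rw [liou_mul, sq, liou_mul, liou_self ha, one_mul]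

end basic

/-- **The theorem.** -/
def S_fin : Prop :=
  ∀ (K : Type) [Field K] [Fintype K] [CharP K 2] (f h : K[X][X]) (μ : K[X]) (s : ℕ),
    0 < f.natDegree → (f.map (algebraMap K[X] (RatFunc K))).Separable → μ ≠ 0 → SqR f μ →
    h ≠ 0 → derivative h = 0 → ∀ ε : ℝ, 0 < ε → ∃ n₀ : ℕ, ∀ n : ℕ, n₀ ≤ n →
    ∀ w : K[X] → ℝ, (∀ g, |w g| ≤ 1) →
      (∀ g, ∃ χ : AddChar K[X] ℝ, ∀ u, w (g + μ * u ^ 2) = w g * χ u) →
      ∀ P : K[X] → ℂ, Ph s P →
      ‖∑ g ∈ Mn K n, ((w g * (liou (f.eval g * h.eval g) : ℝ) : ℝ) : ℂ) * P g‖ ≤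
        ε * (Fintype.card K : ℝ) ^ n

/-- the substitution `T ↦ R T + a₀` -/
theorem sqr_comp {K : Type} [Field K] {f : K[X][X]} {μ : K[X]} (hr : SqR f μ) {R : K[X]}
    (a₀ : K[X]) : SqR (f.comp (C R * X + C a₀)) (μ * R) := by
  intro θ hθ
  set φ := algebraMap K[X] (AlgebraicClosure (RatFunc K)) with hφ
  have h1 : aeval (φ R * θ + φ a₀) f = 0 := by
    rw [aeval_comp] at hθ
    rw [← hθ]
    congr 1
    simp [hφ]
  obtain ⟨s, σ, hσ, hσ2⟩ := hr _ h1
  refine ⟨s + algebraMap K[X] (RatFunc K) (μ * a₀), σ, hσ, ?_⟩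
  rw [hσ2, map_add, ← IsScalarTower.algebraMap_apply K[X] (RatFunc K), map_mul, map_mul]
  ring

theorem sep_comp' {K : Type} [Field K] {f : K[X][X]}
    (h : (f.map (algebraMap K[X] (RatFunc K))).Separable) {R : K[X]} (hR : R ≠ 0) (a₀ : K[X]) :
    ((f.comp (C R * X + C a₀)).map (algebraMap K[X] (RatFunc K))).Separable := by
  set φ := algebraMap K[X] (RatFunc K) with hφ
  have hφR : φ R ≠ 0 := (map_ne_zero_iff _ (IsFractionRing.injective K[X] (RatFunc K))).2 hR
  rw [Polynomial.map_comp, Polynomial.map_add, Polynomial.map_mul, map_C, map_C, map_X]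
  obtain ⟨a, b, hab⟩ := h
  rw [separable_def]
  refine ⟨a.comp (C (φ R) * X + C (φ a₀)), C (φ R)⁻¹ * b.comp (C (φ R) * X + C (φ a₀)), ?_⟩
  have h1 := congrArg (fun q => q.comp (C (φ R) * X + C (φ a₀))) hab
  simp only [add_comp, mul_comp, one_comp] at h1
  rw [derivative_comp]
  have h2 : derivative (C (φ R) * X + C (φ a₀)) = C (φ R) := by
    simp
  rw [h2]
  have h3 : C (φ R)⁻¹ * C (φ R) = (1 : (RatFunc K)[X]) := by
    rw [← C_mul, inv_mul_cancel₀ hφR, C_1]
  rw [← h1]
  linear_combination (b.comp (C (φ R) * X + C (φ a₀)) *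
    (derivative (f.map φ)).comp (C (φ R) * X + C (φ a₀))) * h3

theorem deg_comp {K : Type} [Field K] {f : K[X][X]} (h : 0 < f.natDegree) {R : K[X]} (hR : R ≠ 0)
    (a₀ : K[X]) : 0 < (f.comp (C R * X + C a₀)).natDegree := by
  rw [natDegree_comp, natDegree_linear hR, mul_one]
  exact h

theorem fin (hfl : S_flath) (hdec : S_dec) (hcls : S_cls) (hden : S_den)
    (hevf : S_evf) : S_fin := by
  intro K _ _ _ f h μ s hd hsep hμ hr hh hh' ε hε
  have hg := s_genC
  have hq1 : 1 < Fintype.card K := Fintype.one_lt_card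
  have hq : (0 : ℝ) < (Fintype.card K : ℝ) := by exact_mod_cast (zero_lt_one.trans hq1)
  obtain ⟨e, r, g₀, U, V, u, v, he, hrm, hg0, hdeco, hbez⟩ := hdec K h hh hh'
  obtain ⟨⟨ng, hng⟩, -⟩ := hevf K g₀ hg0
  -- the value of `λ(h(a))`
  have hval : ∀ a : K[X], a.Monic → ng ≤ a.natDegree →
      liou (h.eval a) = liou (gg (U.eval a) (V.eval a)) := by
    intro a ha hn
    have h1 := congrArg (fun q => liou (q.eval a)) hdeco
    simp only [eval_mul, eval_C, eval_pow, eval_add] at h1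
    rw [liou_sq_mul he, liou_sq_mul (hng a ha hn).1] at h1
    exact h1
  by_cases hV : V = 0
  · -- the factor is a square
    have hU1 : ∀ a : K[X], liou (gg (U.eval a) (V.eval a)) = 1 := by
      intro a
      have h1 := congrArg (fun q => q.eval a) hbez
      simp only [eval_add, eval_mul, eval_C, hV, eval_zero, mul_zero, add_zero] at h1
      have h2 : U.eval a ≠ 0 := by
        intro h0
        rw [h0, mul_zero] at h1
        exact hrm.ne_zero h1.symm
      rw [gg, hV, eval_zero, zero_pow two_ne_zero, mul_zero, add_zero, sq, liou_mul, liou_self h2]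
    obtain ⟨M, n₀, h0⟩ := hg K f μ 1 0 s hd hsep hμ one_ne_zero hr ε hε
    refine ⟨max n₀ ng, fun n hn w hw hw2 P hP => ?_⟩
    have h1 := h0 n ((le_max_left _ _).trans hn) w (fun _ => 1) hw hw2 (fun _ => by simp)
      (fun a _ t _ => by simp) P hP
    refine le_of_eq_of_le ?_ h1
    congr 1
    refine Finset.sum_congr rfl fun a ha => ?_
    rw [mem_Mn] at ha
    rw [liou_mul, hval a ha.1 (by rw [ha.2]; exact (le_max_right _ _).trans hn), hU1, mul_one,
      mul_one]
  -- the main case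
  obtain ⟨m, nd, hm⟩ := hden K V r hV hrm.ne_zero (ε / 2) (by positivity)
  set R : K[X] := r ^ (m + 1) with hR
  have hRm : R.Monic := hrm.pow _
  have hR0 : R ≠ 0 := hRm.ne_zero
  set Bad : K[X] → Prop := fun a => ∃ P : K[X], Irreducible P ∧ P ∣ r ∧ P ^ m ∣ V.eval a with hBad
  have hbadR : ∀ g a₀ : K[X], Bad (R * g + a₀) ↔ Bad a₀ := by
    intro g a₀
    have h1 : ∀ P : K[X], P ∣ r → (P ^ m ∣ V.eval (R * g + a₀) ↔ P ^ m ∣ V.eval a₀) := by
      intro P hP
      have h2 : P ^ m ∣ V.eval (R * g + a₀) - V.eval a₀ := by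
        have h3 : (R * g + a₀) - a₀ ∣ V.eval (R * g + a₀) - V.eval a₀ := sub_dvd_eval_sub _ _ _
        refine dvd_trans ?_ h3
        rw [add_sub_cancel_right, hR]
        exact ((pow_dvd_pow_of_dvd hP m).trans (pow_dvd_pow r (Nat.le_succ m))).mul_right g
      exact (dvd_iff_dvd_of_dvd_sub h2)
    constructor
    · rintro ⟨P, hP, hPr, hPm⟩
      exact ⟨P, hP, hPr, (h1 P hPr).1 hPm⟩
    · rintro ⟨P, hP, hPr, hPm⟩
      exact ⟨P, hP, hPr, (h1 P hPr).2 hPm⟩
  -- one good class
  have hclass : ∀ a₀ : K[X], ∃ n₁ : ℕ, ¬ Bad a₀ → ∀ n : ℕ, n₁ ≤ n → ∀ w : K[X] → ℝ,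
      (∀ g, |w g| ≤ 1) →
      (∀ g, ∃ χ : AddChar K[X] ℝ, ∀ u, w (g + μ * u ^ 2) = w g * χ u) →
      ∀ P : K[X] → ℂ, Ph s P →
      ‖∑ g ∈ Mn K n, ((w (R * g + a₀) *
        (liou (f.eval (R * g + a₀) * h.eval (R * g + a₀)) : ℝ) : ℝ) : ℂ) *
          P (R * g + a₀)‖ ≤ ε / 2 * (Fintype.card K : ℝ) ^ n := by
    intro a₀
    by_cases hb : Bad a₀
    · exact ⟨0, fun h => absurd hb h⟩
    · have hb' : ∀ P : K[X], Irreducible P → P ∣ r → ¬ P ^ m ∣ V.eval a₀ := by
        intro P hP hPr hPm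
        exact hb ⟨P, hP, hPr, hPm⟩
      obtain ⟨D, F, r₂, U₂, V₂, u₂, v₂, hD, hF, hr₂, hV₂, hU2, hV2, hbez2, hc1, hc2⟩ :=
        hcls K U V u v r a₀ m hrm hV hbez hb'
      rw [← hR] at hU2 hV2
      obtain ⟨k₁, N₁, hN₁, hfl1⟩ := hfl K U₂ V₂ u₂ v₂ r₂ F (μ * R) hr₂ hF hV₂ hbez2 hc1 hc2
      obtain ⟨M, n₀, h0⟩ := hg K (f.comp (C R * X + C a₀)) (μ * R) N₁ k₁ s
        (deg_comp hd hR0 a₀) (sep_comp' hsep hR0 a₀) (mul_ne_zero hμ hR0) hN₁
        (sqr_comp hr a₀) (ε / 2) (by positivity)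
      obtain ⟨n₂, h2⟩ := hfl1 M
      refine ⟨max (max n₀ n₂) (max ng (a₀.natDegree + 1)),
        fun _ n hn w hw hw2 P hP => ?_⟩
      have hn0 : n₀ ≤ n := by omega
      have hn2 : n₂ ≤ n := by omega
      have hnng : ng ≤ n := by omega
      have hna : a₀.natDegree + 1 ≤ n := by omega
      have hflat : FlatAt (μ * R) (fun g =>
          (liou (gg (U₂.eval g) (F * V₂.eval g)) : ℝ)) k₁ N₁ M n := by
        intro a ha t ht
        exact h2 n hn2 a ha t ht
      have h4 := h0 n hn0 (fun g => w (R * g + a₀))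
          (fun g => (liou (gg (U₂.eval g) (F * V₂.eval g)) : ℝ)) (fun g => hw _) (fun g => ?_)
          (fun g => liou_abs _) hflat (fun g => P (R * g + a₀)) (ph_comp hP R a₀)
      · refine le_of_eq_of_le ?_ h4
        congr 1
        refine Finset.sum_congr rfl fun g hgm => ?_
        rw [mem_Mn] at hgm
        have e1 : (f.comp (C R * X + C a₀)).eval g = f.eval (R * g + a₀) := by
          rw [eval_comp, eval_add, eval_mul, eval_C, eval_C, eval_X]
        have e2 : U.eval (R * g + a₀) = D * U₂.eval g := by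
          have := congrArg (fun q => q.eval g) hU2
          simpa only [eval_comp, eval_add, eval_mul, eval_C, eval_X] using this
        have e3 : V.eval (R * g + a₀) = D * F * V₂.eval g := by
          have := congrArg (fun q => q.eval g) hV2
          simpa only [eval_comp, eval_add, eval_mul, eval_C, eval_X] using this
        have hmon : (R * g + a₀).Monic ∧ ng ≤ (R * g + a₀).natDegree := by
          have i1 : (R * g).Monic := hRm.mul hgm.1
          have i2 : (R * g).natDegree = R.natDegree + n := by rw [hRm.natDegree_mul hgm.1, hgm.2]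
          have i3 : a₀.degree < (R * g).degree := by
            refine (degree_le_natDegree).trans_lt ?_
            rw [degree_eq_natDegree i1.ne_zero, i2]
            have : a₀.natDegree < R.natDegree + n := by omega
            exact_mod_cast this
          exact ⟨i1.add_of_left i3, by rw [natDegree_add_eq_left_of_degree_lt i3, i2]; omega⟩
        have e4 : liou (h.eval (R * g + a₀)) = liou (gg (U₂.eval g) (F * V₂.eval g)) := by
          rw [hval _ hmon.1 hmon.2, e2, e3]
          have e5 : gg (D * U₂.eval g) (D * F * V₂.eval g) =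
              D ^ 2 * gg (U₂.eval g) (F * V₂.eval g) := by
            unfold gg; ring
          rw [e5, liou_sq_mul hD]
        rw [e1, liou_mul, e4]
        push_cast
        ring
      · obtain ⟨χ, hχ⟩ := hw2 (R * g + a₀)
        refine ⟨χ.compAddMonoidHom (AddMonoidHom.mulLeft R), fun x => ?_⟩
        rw [AddChar.compAddMonoidHom_apply, AddMonoidHom.coe_mulLeft, ← hχ (R * x)]
        congr 1
        ring
  choose n₁ hclass using hclass
  refine ⟨max nd (R.natDegree + (Pl K R.natDegree).sup n₁), fun n hn w hw hw2 P hP => ?_⟩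
  have hnd : nd ≤ n := (le_max_left _ _).trans hn
  have hnR : R.natDegree + (Pl K R.natDegree).sup n₁ ≤ n := (le_max_right _ _).trans hn
  have hnn : ∀ a₀ ∈ Pl K R.natDegree, n₁ a₀ ≤ n - R.natDegree := by
    intro a₀ ha₀
    have := Finset.le_sup (f := n₁) ha₀
    omega
  set T : K[X] → ℂ := fun a => ((w a * (liou (f.eval a * h.eval a) : ℝ) : ℝ) : ℂ) * P a with hT
  have hT1 : ∀ a, ‖T a‖ ≤ 1 := by
    intro a
    have hPn : ‖P a‖ ≤ 1 := by
      rcases Nat.eq_zero_or_pos s with h0 | h0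
      · rw [h0] at hP
        rw [show P a = 1 from hP a, norm_one]
      · exact (Pool.Agent.H526.PE.Phl.main.2.2.2.2.1 K[X] s P hP a).le
    rw [hT]
    simp only [norm_mul, Complex.norm_real, Real.norm_eq_abs, abs_mul]
    exact mul_le_one₀ (mul_le_one₀ (hw a) (abs_nonneg _) (liou_abs _)) (norm_nonneg _) hPn
  have hsplit : ∑ a ∈ Mn K n, T a = ∑ a ∈ (Mn K n).filter Bad, T a +
      ∑ a ∈ Mn K n, (if Bad a then 0 else T a) := by
    rw [Finset.sum_filter, ← Finset.sum_add_distrib]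
    refine Finset.sum_congr rfl fun a _ => ?_
    split_ifs <;> simp
  have hb1 : ‖∑ a ∈ (Mn K n).filter Bad, T a‖ ≤ ε / 2 * (Fintype.card K : ℝ) ^ n := by
    refine (norm_sum_le _ _).trans ?_
    refine (Finset.sum_le_sum fun a _ => hT1 a).trans ?_
    rw [Finset.sum_const, nsmul_eq_mul, mul_one]
    exact hm n hnd
  have hb2 : ‖∑ a ∈ Mn K n, (if Bad a then 0 else T a)‖ ≤ ε / 2 * (Fintype.card K : ℝ) ^ n := by
    rw [sum_classes R hRm n (by omega)]
    refine (norm_sum_le _ _).trans ?_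
    have h5 : ∀ a₀ ∈ Pl K R.natDegree, ‖∑ g ∈ Mn K (n - R.natDegree),
        (if Bad (R * g + a₀) then 0 else T (R * g + a₀))‖ ≤
          ε / 2 * (Fintype.card K : ℝ) ^ (n - R.natDegree) := by
      intro a₀ ha₀
      by_cases hb : Bad a₀
      · have : ∑ g ∈ Mn K (n - R.natDegree),
            (if Bad (R * g + a₀) then 0 else T (R * g + a₀)) = 0 := by
          refine Finset.sum_eq_zero fun g _ => ?_
          rw [if_pos ((hbadR g a₀).2 hb)]
        rw [this, norm_zero]
        positivity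
      · have : ∑ g ∈ Mn K (n - R.natDegree),
            (if Bad (R * g + a₀) then 0 else T (R * g + a₀)) =
            ∑ g ∈ Mn K (n - R.natDegree), T (R * g + a₀) := by
          refine Finset.sum_congr rfl fun g _ => ?_
          rw [if_neg (fun h => hb ((hbadR g a₀).1 h))]
        rw [this]
        exact hclass a₀ hb (n - R.natDegree) (hnn a₀ ha₀) w hw hw2 P hP
    refine (Finset.sum_le_sum h5).trans ?_
    rw [Finset.sum_const, card_Pl, nsmul_eq_mul]
    have h6 : (Fintype.card K : ℝ) ^ n =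
        (Fintype.card K : ℝ) ^ R.natDegree * (Fintype.card K : ℝ) ^ (n - R.natDegree) := by
      rw [← pow_add]
      congr 1
      omega
    rw [h6]
    push_cast
    apply le_of_eq
    ring
  rw [hsplit]
  refine (norm_add_le _ _).trans ?_
  have h7 : ε / 2 * (Fintype.card K : ℝ) ^ n + ε / 2 * (Fintype.card K : ℝ) ^ n =
      ε * (Fintype.card K : ℝ) ^ n := by ring
  rw [← h7]
  exact add_le_add hb1 hb2

end Pool.Agent.H140.MH
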