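import Pool.Agent.H140.MH.Stm
import Pool.Agent.H140.MX.Flat
import Pool.Agent.H140.MH.Evf

/-!
# FLATH: the Liouville function of a polynomial in `T ^ 2` is a polynomial phase in short windows
-/

set_option autoImplicit false
set_option linter.unusedSectionVars false
set_option linter.unusedVariables false

namespace Pool.Agent.H140.MH

open Polynomial
open scoped Classical
open Pool.Agent.H985.Chow (mob lc Kp)
open Pool.Agent.H985.KP (sg)
open Pool.Agent.H694.Typ (Mn mem_Mn)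
open Pool.Agent.H140.Q (liou)
open Pool.Agent.H140.MX (CDeg S_cd)
open Pool.Agent.H604.LD (rf)
open Pool.Agent.H604.LD.DegL (res)

namespace FLH

open Pool.Agent.H140.MX.FLT (cdeg_eval sg_sum pm_pow liou_sqf)
open EvfProof (exists_H natDegree_eval_le)

section tools

variable {K : Type} [Field K] [CharP K 2] {k : ℕ}

theorem cder {D : ℕ} {y : Finset (Fin k) → K[X]} (hy : CDeg D y) :
    CDeg D (fun S => derivative (y S)) := by
  intro B hB
  rw [← derivative_sum, hy B hB, derivative_zero]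

theorem two0 : (2 : K[X]) = 0 := by
  have h3 : ((2 : ℕ) : K[X]) = 0 := CharP.cast_eq_zero K[X] 2
  exact_mod_cast h3

theorem der_sq (x : K[X]) : derivative (x ^ 2) = 0 := by
  rw [derivative_pow]
  push_cast
  have h2 : (C (2 : K) : K[X]) = 0 := by
    rw [show (C (2 : K) : K[X]) = (2 : K[X]) from map_ofNat C 2, two0]
  rw [h2]
  ring

theorem der_gg (A B : K[X]) : derivative (gg A B) = B ^ 2 := by
  unfold gg
  rw [derivative_add, der_sq, derivative_mul, der_sq, derivative_X]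
  ring

theorem gg_pos {A B : K[X]} (hB : B ≠ 0) : 1 ≤ (gg A B).natDegree := by
  by_contra h
  have h1 : (gg A B).natDegree = 0 := by omega
  obtain ⟨c, hc⟩ := natDegree_eq_zero.1 h1
  have h2 := der_gg A B
  rw [← hc, derivative_C] at h2
  exact pow_ne_zero 2 hB h2.symm

theorem gg_sqf {A B : K[X]} (h : IsCoprime A B) : Squarefree (gg A B) := by
  have hcop : IsCoprime (gg A B) (B ^ 2) := by
    have h4 : IsCoprime (A ^ 2) (B ^ 2) := h.pow
    unfold gg
    exact IsCoprime.add_mul_right_left h4 X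
  have hsep : (gg A B).Separable := by
    unfold Polynomial.Separable
    rw [der_gg]
    exact hcop
  exact hsep.squarefree

/-- the congruences for the derivatives -/
theorem der_dvd {N x : K[X]} (h : N ^ 2 ∣ x) : N ^ 2 ∣ derivative x := by
  obtain ⟨y, rfl⟩ := h
  rw [derivative_mul, der_sq, zero_mul, zero_add]
  exact dvd_mul_right _ _

/-- degree of the phases -/
theorem cd_zz (hcd : S_cd) {d : ℕ} {A B : Finset (Fin k) → K[X]} (hA : CDeg d A)
    (hB : CDeg d B) : CDeg (10 * d) (fun S => zz (A S) (B S)) := by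
  obtain ⟨h0, -, hmono, hadd, hmul, -⟩ := hcd K[X] k
  have hA' := cder hA
  have hB' := cder hB
  have e : (fun S => zz (A S) (B S)) = fun S => X * ((derivative (A S) * derivative (A S) +
      X * (derivative (B S) * derivative (B S))) *
      (A S * derivative (A S) + X * (B S * derivative (B S)))) := by
    funext S
    unfold zz ss Kp
    ring
  rw [e]
  have h1 := hadd (d + d) _ _ (hmul d d _ _ hA' hA')
    (hmono (0 + (d + d)) (d + d) _ (hmul 0 (d + d) _ _ (h0 X) (hmul d d _ _ hB' hB')) (by omega))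
  have h2 := hadd (d + d) _ _ (hmul d d _ _ hA hA')
    (hmono (0 + (d + d)) (d + d) _ (hmul 0 (d + d) _ _ (h0 X) (hmul d d _ _ hB hB')) (by omega))
  exact hmono _ _ _ (hmul 0 _ _ _ (h0 X) (hmul (d + d) (d + d) _ _ h1 h2)) (by omega)

theorem cd_qq (hcd : S_cd) (r : K[X]) {d : ℕ} {A B t : Finset (Fin k) → K[X]} (hA : CDeg d A)
    (hB : CDeg d B) (ht : CDeg (3 * d) t) :
    CDeg (10 * d) (fun S => qq r (A S) (B S) (t S)) := by
  obtain ⟨h0, -, hmono, hadd, hmul, -⟩ := hcd K[X] k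
  have hA' := cder hA
  have hB' := cder hB
  have e : (fun S => qq r (A S) (B S) (t S)) = fun S => (X * t S) *
      ((((derivative (A S) * derivative (A S) +
      X * (derivative (B S) * derivative (B S))) *
      (A S * derivative (A S) + X * (B S * derivative (B S)))) * t S) +
      r ^ 2 * (derivative (A S) * derivative (B S) * B S)) := by
    funext S
    unfold qq ss Kp
    ring
  rw [e]
  have h1 := hadd (d + d) _ _ (hmul d d _ _ hA' hA')
    (hmono (0 + (d + d)) (d + d) _ (hmul 0 (d + d) _ _ (h0 X) (hmul d d _ _ hB' hB')) (by omega))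
  have h2 := hadd (d + d) _ _ (hmul d d _ _ hA hA')
    (hmono (0 + (d + d)) (d + d) _ (hmul 0 (d + d) _ _ (h0 X) (hmul d d _ _ hB hB')) (by omega))
  have h3 := hmono _ (7 * d) _ (hmul _ (3 * d) _ _ (hmul (d + d) (d + d) _ _ h1 h2) ht) (by omega)
  have h4 := hmono _ (7 * d) _ (hmul 0 _ _ _ (h0 (r ^ 2)) (hmul (d + d) d _ _
    (hmul d d _ _ hA' hB') hB)) (by omega)
  have h5 := hadd (7 * d) _ _ h3 h4
  exact hmono _ _ _ (hmul _ (7 * d) _ _ (hmul 0 (3 * d) _ _ (h0 X) ht) h5) (by omega)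

theorem deg_zz {A B : K[X]} {E : ℕ} (hA : A.natDegree ≤ E) (hB : B.natDegree ≤ E) :
    (zz A B).natDegree ≤ 10 * E + 3 := by
  have hA' : (derivative A).natDegree ≤ E := (natDegree_derivative_le A).trans (by omega)
  have hB' : (derivative B).natDegree ≤ E := (natDegree_derivative_le B).trans (by omega)
  have h1 : (ss A B).natDegree ≤ 2 * E + 1 := by
    unfold ss
    refine (natDegree_add_le _ _).trans (max_le ?_ ?_)
    · exact (natDegree_pow_le).trans (by omega)
    · refine natDegree_mul_le.trans ?_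
      have := natDegree_pow_le (p := derivative B) (n := 2)
      rw [natDegree_X]
      omega
  have h2 : (Kp A B).natDegree ≤ 2 * E + 1 := by
    unfold Kp
    refine (natDegree_add_le _ _).trans (max_le ?_ ?_)
    · exact natDegree_mul_le.trans (by omega)
    · refine natDegree_mul_le.trans ?_
      have := natDegree_mul_le (p := X) (q := B)
      rw [natDegree_X] at this
      omega
  unfold zz
  refine natDegree_mul_le.trans ?_
  have h3 := natDegree_mul_le (p := ss A B) (q := Kp A B)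
  rw [natDegree_X]
  omega

theorem deg_qq {r A B t : K[X]} {E : ℕ} (hA : A.natDegree ≤ E) (hB : B.natDegree ≤ E)
    (ht : t.natDegree ≤ 3 * E) :
    (qq r A B t).natDegree ≤ 10 * E + 3 + 2 * r.natDegree := by
  have hA' : (derivative A).natDegree ≤ E := (natDegree_derivative_le A).trans (by omega)
  have hB' : (derivative B).natDegree ≤ E := (natDegree_derivative_le B).trans (by omega)
  have h1 : (ss A B).natDegree ≤ 2 * E + 1 := by
    unfold ss
    refine (natDegree_add_le _ _).trans (max_le ?_ ?_)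
    · exact (natDegree_pow_le).trans (by omega)
    · refine natDegree_mul_le.trans ?_
      have := natDegree_pow_le (p := derivative B) (n := 2)
      rw [natDegree_X]
      omega
  have h2 : (Kp A B).natDegree ≤ 2 * E + 1 := by
    unfold Kp
    refine (natDegree_add_le _ _).trans (max_le ?_ ?_)
    · exact natDegree_mul_le.trans (by omega)
    · refine natDegree_mul_le.trans ?_
      have := natDegree_mul_le (p := X) (q := B)
      rw [natDegree_X] at this
      omega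
  have h3 : (ss A B * Kp A B * t + r ^ 2 * (derivative A * derivative B * B)).natDegree ≤
      7 * E + 2 + 2 * r.natDegree := by
    refine (natDegree_add_le _ _).trans (max_le ?_ ?_)
    · refine natDegree_mul_le.trans ?_
      have := natDegree_mul_le (p := ss A B) (q := Kp A B)
      omega
    · refine natDegree_mul_le.trans ?_
      have h4 := natDegree_pow_le (p := r) (n := 2)
      have h5 := natDegree_mul_le (p := derivative A * derivative B) (q := B)
      have h6 := natDegree_mul_le (p := derivative A) (q := derivative B)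
      omega
  unfold qq
  refine natDegree_mul_le.trans ?_
  have h4 := natDegree_mul_le (p := X) (q := t)
  rw [natDegree_X] at h4
  omega

/-- Vanishing of cube sums. -/
theorem van_gen (hv2 : S_van2) (hevf : S_evf) (hcd : S_cd) (Qp : K[X][X]) (hQ : Qp ≠ 0)
    (D C₁ : ℕ) (hD : Qp.natDegree ≤ D) (hk : D * (C₁ + 1 + 3) < k) (M C₂ : ℕ) :
    ∃ n₀ : ℕ, ∀ n : ℕ, n₀ ≤ n → ∀ z : Finset (Fin k) → K[X],
      (∀ S, (z S).Monic ∧ (z S).natDegree = n) → CDeg 1 z →
      (∀ S, (z S - z ∅).natDegree ≤ M) → ∀ P : Finset (Fin k) → K[X],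
      (∀ S, (P S).natDegree ≤ C₁ * n + C₂) → CDeg D P →
      ∑ S : Finset (Fin k), res (rf (P S) / rf (Qp.eval (z S))) = 0 := by
  obtain ⟨⟨n₁, h1⟩, h2⟩ := hevf K Qp hQ
  obtain ⟨c, n₂, h2⟩ := h2 M
  refine ⟨n₁ + n₂ + (c + 1) + C₂ + (C₁ + 1) * c, fun n hn z hz hz1 hzM P hP hPD => ?_⟩
  have hmono := (hcd K[X] k).2.2.1
  obtain ⟨n', rfl⟩ : ∃ n', n = c + n' := ⟨n - c, by omega⟩
  refine hv2 K k D (C₁ + 1) n' (Qp.eval (z ∅)).natDegree (fun S => Qp.eval (z S)) P (by omega)
    (fun S => (h1 (z S) (hz S).1 (by rw [(hz S).2]; omega)).1) rfl ?_ ?_ ?_ hPD (by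
      rw [show C₁ + 1 + 3 = C₁ + 1 + 3 from rfl]
      exact hk)
  · intro S hS
    have h3 : z S = z ∅ + (z S - z ∅) := by ring
    have h4 := h2 (z ∅) (z S - z ∅) (hz ∅).1 (by rw [(hz ∅).2]; omega) (hzM S) (by
      rw [← h3]
      exact hS)
    rw [← h3, (hz ∅).2] at h4
    show (Qp.eval (z S) - Qp.eval (z ∅)).natDegree + n' ≤ _
    omega
  · intro S
    refine (hP S).trans ?_
    have h5 : C₁ * (c + n') = C₁ * c + C₁ * n' := Nat.mul_add _ _ _
    have h6 : (C₁ + 1) * n' = C₁ * n' + n' := by ring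
    have h7 : (C₁ + 1) * c = C₁ * c + c := by ring
    rw [h5, h6]
    omega
  · exact hmono _ _ _ (cdeg_eval hcd Qp z hz1) hD

end tools

/-- the case of leading coefficient one -/
theorem core (par : S_par) (van2 : S_van2) (pair : S_pair) (hevf : S_evf) (hcd : S_cd)
    (K : Type) [Field K] [Fintype K] [CharP K 2] (U V u v : K[X][X]) (r F μ : K[X])
    (hr : r ≠ 0) (hF : F ≠ 0) (hV : V ≠ 0) (huv : u * U + v * V = C r)
    (hcV : ∀ a, IsCoprime (V.eval a) (r * F)) (hcU : ∀ a, IsCoprime (U.eval a) F)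
    (hl : (U ^ 2 + C X * (C F * V) ^ 2).leadingCoeff.leadingCoeff = 1) :
    ∃ (k : ℕ) (N : K[X]), N ≠ 0 ∧ ∀ M : ℕ, ∃ n₀ : ℕ, ∀ n : ℕ, n₀ ≤ n → ∀ a ∈ Mn K n,
      ∀ t : Fin k → K[X], (∀ j, (t j).degree < (M : WithBot ℕ)) →
        ∏ B : Finset (Fin k), (liou (gg (U.eval (a + μ * (N * ∑ j ∈ B, t j) ^ 2))
          (F * V.eval (a + μ * (N * ∑ j ∈ B, t j) ^ 2))) : ℝ) = 1 := by
  have h2K : (2 : K[X]) = 0 := two0
  have h2 : (2 : K) = 0 := CharTwo.two_eq_zero
  -- the polynomials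
  set Bp : K[X][X] := C F * V with hBp
  have hBp0 : Bp ≠ 0 := mul_ne_zero (C_ne_zero.2 hF) hV
  set gp : K[X][X] := U ^ 2 + C X * Bp ^ 2 with hgp
  have hgp0 : gp ≠ 0 := by
    intro h
    rw [h, leadingCoeff_zero, leadingCoeff_zero] at hl
    exact zero_ne_one hl
  have hge : ∀ z : K[X], gp.eval z = gg (U.eval z) (F * V.eval z) := by
    intro z
    rw [hgp, hBp]
    unfold gg
    simp only [eval_add, eval_mul, eval_pow, eval_C]
  have hBe : ∀ z : K[X], Bp.eval z = F * V.eval z := by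
    intro z
    rw [hBp, eval_mul, eval_C]
  obtain ⟨d, hd⟩ : ∃ d : ℕ, d = U.natDegree + V.natDegree + u.natDegree := ⟨_, rfl⟩
  obtain ⟨HU, hHU⟩ := exists_H U
  obtain ⟨HV, hHV⟩ := exists_H V
  obtain ⟨Hu, hHu⟩ := exists_H u
  obtain ⟨H, hH⟩ : ∃ H : ℕ, H = HU + HV + Hu + F.natDegree := ⟨_, rfl⟩
  have hBpd : Bp.natDegree ≤ d := by
    rw [hBp, natDegree_C_mul hF]
    omega
  have hgpd : gp.natDegree ≤ 2 * d := by
    rw [hgp]
    refine (natDegree_add_le _ _).trans (max_le ?_ ?_)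
    · exact natDegree_pow_le.trans (by omega)
    · refine natDegree_mul_le.trans ?_
      have := natDegree_pow_le (p := Bp) (n := 2)
      rw [natDegree_C]
      omega
  have hQ1 : Bp ^ 2 * gp ≠ 0 := mul_ne_zero (pow_ne_zero 2 hBp0) hgp0
  have hQ1d : (Bp ^ 2 * gp).natDegree ≤ 10 * d := by
    refine natDegree_mul_le.trans ?_
    have := natDegree_pow_le (p := Bp) (n := 2)
    omega
  have hQ2 : C (r ^ 4) * Bp ^ 2 ≠ 0 :=
    mul_ne_zero (C_ne_zero.2 (pow_ne_zero 4 hr)) (pow_ne_zero 2 hBp0)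
  have hQ2d : (C (r ^ 4) * Bp ^ 2).natDegree ≤ 10 * d := by
    refine natDegree_mul_le.trans ?_
    have := natDegree_pow_le (p := Bp) (n := 2)
    rw [natDegree_C]
    omega
  obtain ⟨k, hk⟩ : ∃ k : ℕ, k = 10 * d * (10 * d + 1 + 3) + 1 := ⟨_, rfl⟩
  have hk0 : 0 < k := by omega
  refine ⟨k, r ^ 2 * F, mul_ne_zero (pow_ne_zero 2 hr) hF, fun M => ?_⟩
  obtain ⟨M', hM'⟩ : ∃ M' : ℕ, M' = μ.natDegree + 2 * ((r ^ 2 * F).natDegree + M) := ⟨_, rfl⟩
  obtain ⟨n₁, hn₁⟩ := van_gen (k := k) van2 hevf hcd _ hQ1 (10 * d) (10 * d) hQ1d (by omega) M'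
    (10 * H + 3)
  obtain ⟨n₂, hn₂⟩ := van_gen (k := k) van2 hevf hcd _ hQ2 (10 * d) (10 * d) hQ2d (by omega) M'
    (10 * H + 3 + 2 * r.natDegree)
  obtain ⟨⟨n₃, hn₃⟩, -⟩ := hevf K gp hgp0
  obtain ⟨⟨n₄, hn₄⟩, -⟩ := hevf K Bp hBp0
  refine ⟨n₁ + n₂ + n₃ + n₄ + M' + 1, fun n hn a ha t ht => ?_⟩
  rw [mem_Mn] at ha
  obtain ⟨ham, han⟩ := ha
  -- the shifts
  obtain ⟨δ, hδ⟩ : ∃ δ : Finset (Fin k) → K[X],
      δ = fun B => μ * (r ^ 2 * F * ∑ j ∈ B, t j) ^ 2 := ⟨_, rfl⟩
  have hδB : ∀ B, μ * (r ^ 2 * F * ∑ j ∈ B, t j) ^ 2 = δ B := fun B => by rw [hδ]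
  have hδ0 : δ ∅ = 0 := by
    rw [← hδB]
    simp
  have hδd : ∀ B, (δ B).natDegree ≤ M' := by
    intro B
    have h3 : (∑ j ∈ B, t j).natDegree ≤ M := by
      refine natDegree_sum_le_of_forall_le _ _ fun j _ => ?_
      exact natDegree_le_of_degree_le (ht j).le
    rw [← hδB, hM']
    refine natDegree_mul_le.trans (Nat.add_le_add_left ?_ _)
    refine natDegree_pow_le.trans (Nat.mul_le_mul_left _ ?_)
    exact natDegree_mul_le.trans (Nat.add_le_add_left h3 _)
  obtain ⟨z, hz⟩ : ∃ z : Finset (Fin k) → K[X], z = fun B => a + δ B := ⟨_, rfl⟩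
  have hzB : ∀ B, a + μ * (r ^ 2 * F * ∑ j ∈ B, t j) ^ 2 = z B := fun B => by rw [hz, hδB]
  simp only [hzB]
  have hmon : ∀ B, (z B).Monic ∧ (z B).natDegree = n := by
    intro B
    have h3 : (δ B).natDegree < a.natDegree := by
      have h4 := hδd B
      omega
    have h4 : (δ B).degree < a.degree := degree_lt_degree h3
    rw [hz]
    exact ⟨ham.add_of_left h4, by
      show (a + δ B).natDegree = n
      rw [natDegree_add_eq_left_of_natDegree_lt h3, han]⟩
  have hcd1 : CDeg 1 z := by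
    have hcd0 : CDeg 1 δ := by
      have h3 : δ = fun B => ∑ j ∈ B, μ * (r ^ 2 * F * t j) ^ 2 := by
        funext B
        rw [← hδB, Finset.mul_sum]
        induction B using Finset.induction_on with
        | empty => simp
        | insert j B hj ih =>
          rw [Finset.sum_insert hj, Finset.sum_insert hj, ← ih]
          have h4 : μ * (r ^ 2 * F * t j + ∑ i ∈ B, r ^ 2 * F * t i) ^ 2 =
              μ * (r ^ 2 * F * t j) ^ 2 + μ * (∑ i ∈ B, r ^ 2 * F * t i) ^ 2 +
                2 * (μ * (r ^ 2 * F * t j) * ∑ i ∈ B, r ^ 2 * F * t i) := by ring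
          rw [h4, h2K, zero_mul, add_zero]
      rw [h3]
      exact (hcd K[X] _).2.1 _
    obtain ⟨h0, -, hmono, hadd, -, -⟩ := hcd K[X] k
    rw [hz]
    exact hadd 1 _ _ (hmono 0 1 _ (h0 a) (by omega)) hcd0
  have hzd : ∀ B, (z B - z ∅).natDegree ≤ M' := by
    intro B
    have : z B - z ∅ = δ B := by
      rw [hz]
      show a + δ B - (a + δ ∅) = δ B
      rw [hδ0]
      ring
    rw [this]
    exact hδd B
  have hzN : ∀ B, (r ^ 2 * F) ^ 2 ∣ z ∅ - z B := by
    intro B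
    have : z ∅ - z B = - δ B := by
      rw [hz]
      show a + δ ∅ - (a + δ B) = - δ B
      rw [hδ0]
      ring
    rw [this, ← hδB, dvd_neg]
    exact ⟨μ * (∑ j ∈ B, t j) ^ 2, by ring⟩
  have hev : ∀ (f : K[X][X]) (B : Finset (Fin k)), (r ^ 2 * F) ^ 2 ∣ f.eval (z ∅) - f.eval (z B) :=
    fun f B => (hzN B).trans (sub_dvd_eval_sub _ _ f)
  -- the values
  obtain ⟨A, hA⟩ : ∃ A : Finset (Fin k) → K[X], A = fun B => U.eval (z B) := ⟨_, rfl⟩
  obtain ⟨W, hW⟩ : ∃ W : Finset (Fin k) → K[X], W = fun B => V.eval (z B) := ⟨_, rfl⟩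
  obtain ⟨τ, hτ⟩ : ∃ τ : Finset (Fin k) → K[X],
      τ = fun B => (u.eval (z B)) ^ 2 * U.eval (z B) := ⟨_, rfl⟩
  have hAe : ∀ B, U.eval (z B) = A B := fun B => by rw [hA]
  have hWe : ∀ B, V.eval (z B) = W B := fun B => by rw [hW]
  simp only [hAe, hWe]
  have hBeW : ∀ B, Bp.eval (z B) = F * W B := fun B => by rw [hBe, hWe]
  have hgeW : ∀ B, gp.eval (z B) = gg (A B) (F * W B) := fun B => by rw [hge, hWe, hAe]
  have hB0 : ∀ B, F * W B ≠ 0 := by
    intro B
    rw [← hBeW]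
    exact (hn₄ (z B) (hmon B).1 (by rw [(hmon B).2]; omega)).1
  have hW0 : ∀ B, W B ≠ 0 := fun B => right_ne_zero_of_mul (hB0 B)
  have hBdeg : ∀ B, (F * W B).natDegree = Bp.natDegree * n + Bp.leadingCoeff.natDegree := by
    intro B
    rw [← hBeW, (hn₄ (z B) (hmon B).1 (by rw [(hmon B).2]; omega)).2.1, (hmon B).2]
  have hgdeg : ∀ B, (gg (A B) (F * W B)).natDegree =
      gp.natDegree * n + gp.leadingCoeff.natDegree := by
    intro B
    rw [← hgeW, (hn₃ (z B) (hmon B).1 (by rw [(hmon B).2]; omega)).2.1, (hmon B).2]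
  have hgmon : ∀ B, (gg (A B) (F * W B)).Monic := by
    intro B
    unfold Polynomial.Monic
    rw [← hgeW, (hn₃ (z B) (hmon B).1 (by rw [(hmon B).2]; omega)).2.2]
    exact hl
  -- coprimality
  have hrel : ∀ B, u.eval (z B) * A B + v.eval (z B) * W B = r := by
    intro B
    have := congrArg (eval (z B)) huv
    rw [eval_add, eval_mul, eval_mul, eval_C, hAe, hWe] at this
    exact this
  have hcVB : ∀ B, IsCoprime (W B) (r * F) := fun B => by rw [← hWe]; exact hcV _
  have hcUB : ∀ B, IsCoprime (A B) F := fun B => by rw [← hAe]; exact hcU _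
  have hAW : ∀ B, IsCoprime (A B) (W B) := by
    intro B
    obtain ⟨x, y, hxy⟩ := (hcVB B).of_mul_right_left
    refine ⟨y * u.eval (z B), x + y * v.eval (z B), ?_⟩
    linear_combination hxy + y * hrel B
  have hAB : ∀ B, IsCoprime (A B) (F * W B) := fun B => (hcUB B).mul_right (hAW B)
  have hJ : ∀ B, ∃ J : K[X], (F * W B) ^ 2 ∣ A B * J - 1 := by
    intro B
    obtain ⟨x, y, hxy⟩ := (hAB B).pow_right (n := 2)
    exact ⟨x, -y, by linear_combination hxy⟩
  choose J hJ using hJ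
  -- the sign
  obtain ⟨η, hη, hsg⟩ := par K (gp.natDegree * n + gp.leadingCoeff.natDegree)
    (Bp.natDegree * n + Bp.leadingCoeff.natDegree) (by
      rw [← hgdeg ∅]
      exact gg_pos (hB0 ∅))
  have hmob : ∀ B, (liou (gg (A B) (F * W B)) : ℝ) = η * sg (phi (A B) (F * W B) (J B)) := by
    intro B
    rw [liou_sqf (gg_sqf (hAB B))]
    exact hsg _ _ _ (hB0 B) (hgmon B) (hgdeg B) (hBdeg B) (hJ B)
  rw [Finset.prod_congr rfl fun B _ => hmob B, Finset.prod_mul_distrib, Finset.prod_const,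
    Finset.card_univ, pm_pow hη hk0, one_mul, sg_sum]
  -- the phases
  have hτW : ∀ B, W B ^ 2 ∣ τ B * A B - r ^ 2 := by
    intro B
    refine ⟨(v.eval (z B)) ^ 2 - 2 * 0, ?_⟩
    rw [hτ]
    show (u.eval (z B)) ^ 2 * U.eval (z B) * A B - r ^ 2 = _
    rw [hAe, ← hrel B]
    linear_combination (-(v.eval (z B)) ^ 2 * (W B) ^ 2 -
      u.eval (z B) * A B * (v.eval (z B) * W B)) * h2K
  have hpair : ∀ B, res (rf (ww (A ∅) (F * W ∅) (J ∅)) / rf ((F * W ∅) ^ 2)) +
        res (rf (qq r (A ∅) (F * W ∅) (τ ∅)) / rf (r ^ 4 * (F * W ∅) ^ 2)) =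
      res (rf (ww (A B) (F * W B) (J B)) / rf ((F * W B) ^ 2)) +
        res (rf (qq r (A B) (F * W B) (τ B)) / rf (r ^ 4 * (F * W B) ^ 2)) := by
    intro B
    have e4 : r ^ 4 * F ^ 2 = (r ^ 2 * F) ^ 2 := by ring
    have hA1 : (r ^ 2 * F) ^ 2 ∣ A ∅ - A B := by
      rw [← hAe, ← hAe]
      exact hev U B
    have hW1 : (r ^ 2 * F) ^ 2 ∣ W ∅ - W B := by
      rw [← hWe, ← hWe]
      exact hev V B
    have hτ1 : (r ^ 2 * F) ^ 2 ∣ τ ∅ - τ B := by
      have := hev (u ^ 2 * U) B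
      rw [eval_mul, eval_mul, eval_pow, eval_pow] at this
      rw [hτ]
      exact this
    refine pair K r F (A ∅) (W ∅) (J ∅) (τ ∅) (A B) (W B) (J B) (τ B) hr hF (hW0 _) (hW0 _)
      (hcVB _) (hcVB _) (hJ _) (hJ _) (hτW _) (hτW _) ?_ ?_ ?_ ?_ ?_
    · rw [e4]
      exact hA1
    · rw [e4, ← derivative_sub]
      exact der_dvd hA1
    · rw [e4]
      exact hW1
    · rw [e4, ← derivative_sub]
      exact der_dvd hW1
    · rw [e4]
      exact hτ1
  have hcA : CDeg d A := by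
    have hmono := (hcd K[X] k).2.2.1
    rw [hA]
    exact hmono _ _ _ (cdeg_eval hcd U z hcd1) (by omega)
  have hcW : CDeg d (fun B => F * W B) := by
    obtain ⟨h0, -, hmono, hadd, hmul, -⟩ := hcd K[X] k
    have h3 := hmul 0 V.natDegree (fun _ => F) _ (h0 F) (cdeg_eval hcd V z hcd1)
    rw [hW]
    exact hmono _ _ _ h3 (by omega)
  have hcτ : CDeg (3 * d) τ := by
    obtain ⟨h0, -, hmono, hadd, hmul, -⟩ := hcd K[X] k
    have h3 := cdeg_eval hcd u z hcd1
    have h4 := hmul _ _ _ _ (hmul _ _ _ _ h3 h3) (cdeg_eval hcd U z hcd1)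
    have h5 : τ = fun B => u.eval (z B) * u.eval (z B) * U.eval (z B) := by
      rw [hτ]
      funext B
      ring
    rw [h5]
    exact hmono _ _ _ h4 (by omega)
  have hdA : ∀ B, (A B).natDegree ≤ d * n + H := by
    intro B
    rw [← hAe]
    have := natDegree_eval_le U HU d n hHU (by omega) (z B) (hmon B).2.le
    omega
  have hdW : ∀ B, (F * W B).natDegree ≤ d * n + H := by
    intro B
    rw [← hWe]
    have h3 := natDegree_eval_le V HV d n hHV (by omega) (z B) (hmon B).2.le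
    refine natDegree_mul_le.trans ?_
    omega
  have hdτ : ∀ B, (τ B).natDegree ≤ 3 * (d * n + H) := by
    intro B
    rw [hτ]
    show ((u.eval (z B)) ^ 2 * U.eval (z B)).natDegree ≤ _
    have h3 := natDegree_eval_le u Hu d n hHu (by omega) (z B) (hmon B).2.le
    have h4 := natDegree_eval_le U HU d n hHU (by omega) (z B) (hmon B).2.le
    refine natDegree_mul_le.trans ?_
    have h5 := natDegree_pow_le (p := u.eval (z B)) (n := 2)
    omega
  have hsum1 : ∑ B : Finset (Fin k), res (rf (zz (A B) (F * W B)) /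
      rf ((F * W B) ^ 2 * gg (A B) (F * W B))) = 0 := by
    have h3 := hn₁ n (by omega) z hmon hcd1 hzd (fun B => zz (A B) (F * W B)) (fun B => by
      refine (deg_zz (hdA B) (hdW B)).trans ?_
      have : 10 * (d * n + H) = 10 * d * n + 10 * H := by ring
      omega) (cd_zz hcd hcA hcW)
    rw [← h3]
    refine Finset.sum_congr rfl fun B _ => ?_
    rw [eval_mul, eval_pow, hBeW, hgeW]
  have hsum2 : ∑ B : Finset (Fin k), res (rf (qq r (A B) (F * W B) (τ B)) /
      rf (r ^ 4 * (F * W B) ^ 2)) = 0 := by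
    have h3 := hn₂ n (by omega) z hmon hcd1 hzd (fun B => qq r (A B) (F * W B) (τ B)) (fun B => by
      refine (deg_qq (hdA B) (hdW B) (hdτ B)).trans ?_
      have : 10 * (d * n + H) = 10 * d * n + 10 * H := by ring
      omega) (cd_qq hcd r hcA hcW hcτ)
    rw [← h3]
    refine Finset.sum_congr rfl fun B _ => ?_
    rw [eval_mul, eval_pow, eval_C, hBeW]
  have hzero : ∑ B : Finset (Fin k), phi (A B) (F * W B) (J B) = 0 := by
    obtain ⟨κ, hκ⟩ : ∃ κ : K, κ = res (rf (ww (A ∅) (F * W ∅) (J ∅)) / rf ((F * W ∅) ^ 2)) +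
        res (rf (qq r (A ∅) (F * W ∅) (τ ∅)) / rf (r ^ 4 * (F * W ∅) ^ 2)) := ⟨_, rfl⟩
    have h3 : ∀ B, phi (A B) (F * W B) (J B) = res (rf (zz (A B) (F * W B)) /
        rf ((F * W B) ^ 2 * gg (A B) (F * W B))) + (κ +
        res (rf (qq r (A B) (F * W B) (τ B)) / rf (r ^ 4 * (F * W B) ^ 2))) := by
      intro B
      have h4 := hpair B
      rw [← hκ] at h4
      unfold phi
      rw [h4]
      linear_combination - res (rf (qq r (A B) (F * W B) (τ B)) / rf (r ^ 4 * (F * W B) ^ 2)) * h2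
    rw [Finset.sum_congr rfl fun B _ => h3 B, Finset.sum_add_distrib, Finset.sum_add_distrib,
      hsum1, hsum2, Finset.sum_const, Finset.card_univ, Fintype.card_finset, Fintype.card_fin]
    obtain ⟨m, rfl⟩ : ∃ m, k = m + 1 := ⟨k - 1, by omega⟩
    rw [nsmul_eq_mul, pow_succ]
    push_cast
    rw [h2]
    ring
  rw [hzero, Pool.Agent.H985.KP.Loc2.sg_zero]

end FLH

open FLH in
theorem flh : S_flathasm := by
  intro par van2 pair hevf hcd K _ _ _ U V u v r F μ hr hF hV huv hcV hcU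
  have hne : U ^ 2 + C X * (C F * V) ^ 2 ≠ 0 := by
    intro h
    obtain ⟨⟨n₄, hn₄⟩, -⟩ := hevf K V hV
    have h1 := (hn₄ (X ^ n₄) (monic_X_pow _) (by rw [natDegree_X_pow])).1
    have h3 : gg (U.eval (X ^ n₄)) (F * V.eval (X ^ n₄)) = 0 := by
      have := congrArg (eval (X ^ n₄)) h
      simp only [eval_add, eval_mul, eval_pow, eval_C, eval_zero] at this
      unfold gg
      exact this
    have h4 := gg_pos (A := U.eval (X ^ n₄)) (mul_ne_zero hF h1)
    rw [h3, natDegree_zero] at h4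
    omega
  obtain ⟨m, hm⟩ := FiniteField.isSquare_of_char_two (ringChar.eq_iff.2 inferInstance)
    (U ^ 2 + C X * (C F * V) ^ 2).leadingCoeff.leadingCoeff
  have hm0 : m ≠ 0 := by
    rintro rfl
    rw [mul_zero] at hm
    exact leadingCoeff_ne_zero.2 (leadingCoeff_ne_zero.2 hne) hm
  have hmm : (C m⁻¹ : K[X]) * C m = 1 := by
    rw [← C_mul, inv_mul_cancel₀ hm0, C_1]
  have hCm : (C m⁻¹ : K[X]) ≠ 0 := C_ne_zero.2 (inv_ne_zero hm0)
  have hunit : IsUnit (C m⁻¹ : K[X]) := isUnit_C.2 (IsUnit.mk0 _ (inv_ne_zero hm0))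
  obtain ⟨k, N, hN, h⟩ := core par van2 pair hevf hcd K (C (C m⁻¹) * U) (C (C m⁻¹) * V)
    (C (C m) * u) (C (C m) * v) r F μ hr hF
    (mul_ne_zero (C_ne_zero.2 hCm) hV) (by
      have h1 : (C (C m⁻¹) : K[X][X]) * C (C m) = 1 := by rw [← C_mul, hmm, C_1]
      linear_combination (u * U + v * V) * h1 + huv) (fun a => by
      rw [eval_mul, eval_C]
      exact (isCoprime_mul_unit_left_left hunit _ _).2 (hcV a)) (fun a => by
      rw [eval_mul, eval_C]
      exact (isCoprime_mul_unit_left_left hunit _ _).2 (hcU a)) (by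
      have h1 : (C (C m⁻¹) * U) ^ 2 + C X * (C F * (C (C m⁻¹) * V)) ^ 2 =
          C (C (m⁻¹ * m⁻¹)) * (U ^ 2 + C X * (C F * V) ^ 2) := by
        rw [C_mul, C_mul]
        ring
      rw [h1, leadingCoeff_mul, leadingCoeff_C, leadingCoeff_mul, leadingCoeff_C, hm]
      field_simp)
  refine ⟨k, N, hN, fun M => ?_⟩
  obtain ⟨n₀, hn₀⟩ := h M
  refine ⟨n₀, fun n hn a ha t ht => ?_⟩
  have h1 := hn₀ n hn a ha t ht
  rw [← h1]
  refine Finset.prod_congr rfl fun B _ => ?_
  set z := a + μ * (N * ∑ j ∈ B, t j) ^ 2 with hz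
  have h3 : gg (eval z (C (C m⁻¹) * U)) (F * eval z (C (C m⁻¹) * V)) =
      C m⁻¹ * (C m⁻¹ * gg (U.eval z) (F * V.eval z)) := by
    rw [eval_mul, eval_mul, eval_C]
    unfold gg
    ring
  rw [h3, Pool.Agent.H140.Q.FinM.liou_mul, Pool.Agent.H140.Q.FinM.liou_mul,
    Pool.Agent.H140.Q.FinM.liou_C (inv_ne_zero hm0), one_mul, one_mul]

end Pool.Agent.H140.MH
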