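import Pool.Agent.H140.MH.Stm

/-!
# Task MH-PAIR
-/

set_option autoImplicit false

namespace Pool.Agent.H140.MH

open Polynomial
open Pool.Agent.H985.Chow (lc Kp)
open Pool.Agent.H604.LD (rf)
open Pool.Agent.H604.LD.DegL (res)

namespace PairL

variable {K : Type} [Field K]

lemma mk_eq (D a b : K[X]) : Ideal.Quotient.mk (Ideal.span {D}) a = Ideal.Quotient.mk (Ideal.span {D}) b ↔
    D ∣ a - b := by
  rw [Ideal.Quotient.eq, Ideal.mem_span_singleton]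

lemma cong_ww {D A₁ A₂ B₁ B₂ J₁ J₂ : K[X]} (hA : D ∣ A₁ - A₂)
    (hA' : D ∣ derivative A₁ - derivative A₂) (hB : D ∣ B₁ - B₂)
    (hB' : D ∣ derivative B₁ - derivative B₂) (hJ : D ∣ J₁ - J₂) :
    D ∣ ww A₁ B₁ J₁ - ww A₂ B₂ J₂ := by
  rw [← mk_eq] at hA hA' hB hB' hJ ⊢
  simp only [ww, ss, Kp, map_mul, map_add, map_pow]
  rw [hA, hA', hB, hB', hJ]

lemma cong_qq {D r A₁ A₂ B₁ B₂ t₁ t₂ : K[X]} (hA : D ∣ A₁ - A₂)
    (hA' : D ∣ derivative A₁ - derivative A₂) (hB : D ∣ B₁ - B₂)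
    (hB' : D ∣ derivative B₁ - derivative B₂) (ht : D ∣ t₁ - t₂) :
    D ∣ qq r A₁ B₁ t₁ - qq r A₂ B₂ t₂ := by
  rw [← mk_eq] at hA hA' hB hB' ht ⊢
  simp only [qq, ss, Kp, map_mul, map_add, map_pow]
  rw [hA, hA', hB, hB', ht]

lemma res_poly (x : K[X]) : res (rf x) = 0 := by
  have h1 : rf x = rf x / rf 1 := by rw [Pool.Agent.H604.LD.DegL.rf_one, div_one]
  rw [h1, Pool.Agent.H604.LD.DegL.res_div monic_one]
  unfold lc
  rw [modByMonic_one, coeff_zero]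

lemma res_neg (f : RatFunc K) : res (-f) = -res f := by
  have h1 := Pool.Agent.H604.LD.DegL.res_add f (-f)
  rw [add_neg_cancel, Pool.Agent.H604.LD.DegL.res_zero] at h1
  exact (neg_eq_of_add_eq_zero_right h1.symm).symm

/-- the quotient `Y` for one index -/
lemma one_index [CharP K 2] {r F A V J t : K[X]} (hr : r ≠ 0) (hF : F ≠ 0) (hV : V ≠ 0)
    (hJ : (F * V) ^ 2 ∣ A * J - 1) (ht : V ^ 2 ∣ t * A - r ^ 2) :
    ∃ Y : K[X], r ^ 4 * ww A (F * V) J + qq r A (F * V) t = V ^ 2 * Y ∧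
      res (rf (ww A (F * V) J) / rf ((F * V) ^ 2)) +
        res (rf (qq r A (F * V) t) / rf (r ^ 4 * (F * V) ^ 2)) = res (rf Y / rf (r ^ 4 * F ^ 2)) := by
  have two : (2 : K[X]) = 0 := by
    have h : (2 : K) = 0 := CharTwo.two_eq_zero
    have h1 : (2 : K[X]) = C (2 : K) := (map_ofNat C 2).symm
    rw [h1, h, C_0]
  have hJ' : V ^ 2 ∣ A * J - 1 := (Dvd.intro_left (F ^ 2) (by ring)).trans hJ
  have htJ : V ^ 2 ∣ t - r ^ 2 * J := by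
    have e : t - r ^ 2 * J = (t * A - r ^ 2) * J - t * (A * J - 1) := by ring
    rw [e]
    exact dvd_sub (ht.mul_right _) (hJ'.mul_left _)
  have hdvd : V ^ 2 ∣ r ^ 4 * ww A (F * V) J + qq r A (F * V) t := by
    have e : r ^ 4 * ww A (F * V) J + qq r A (F * V) t =
        (qq r A (F * V) t - r ^ 4 * ww A (F * V) J) + 2 * (r ^ 4 * ww A (F * V) J) := by ring
    rw [e, two, zero_mul, add_zero, ← mk_eq]
    rw [← mk_eq] at htJ
    simp only [ww, qq, ss, Kp, map_mul, map_add, map_pow] at htJ ⊢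
    rw [htJ]
    ring
  obtain ⟨Y, hY⟩ := hdvd
  refine ⟨Y, hY, ?_⟩
  rw [← Pool.Agent.H604.LD.DegL.res_add]
  congr 1
  have h1 : rf r ≠ 0 := Pool.Agent.H604.LD.DegL.rf_ne hr
  have h2 : rf F ≠ 0 := Pool.Agent.H604.LD.DegL.rf_ne hF
  have h3 : rf V ≠ 0 := Pool.Agent.H604.LD.DegL.rf_ne hV
  have h4 : rf r ^ 4 * rf (ww A (F * V) J) + rf (qq r A (F * V) t) = rf V ^ 2 * rf Y := by
    have h5 := congrArg rf hY
    rw [Pool.Agent.H604.LD.DegL.rf_add, Pool.Agent.H604.LD.DegL.rf_mul,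
      Pool.Agent.H604.LD.DegL.rf_mul, Pool.Agent.H604.LD.DegL.rf_pow,
      Pool.Agent.H604.LD.DegL.rf_pow] at h5
    exact h5
  rw [Pool.Agent.H604.LD.DegL.rf_mul, Pool.Agent.H604.LD.DegL.rf_mul,
    Pool.Agent.H604.LD.DegL.rf_pow, Pool.Agent.H604.LD.DegL.rf_pow, Pool.Agent.H604.LD.DegL.rf_pow,
    Pool.Agent.H604.LD.DegL.rf_mul]
  have hn1 : (rf F * rf V) ^ 2 ≠ 0 := pow_ne_zero _ (mul_ne_zero h2 h3)
  have hn2 : rf r ^ 4 * (rf F * rf V) ^ 2 ≠ 0 := mul_ne_zero (pow_ne_zero _ h1) hn1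
  have hn3 : rf r ^ 4 * rf F ^ 2 ≠ 0 := mul_ne_zero (pow_ne_zero _ h1) (pow_ne_zero _ h2)
  rw [div_add_div _ _ hn1 hn2, div_eq_div_iff (mul_ne_zero hn1 hn2) hn3]
  linear_combination ((rf F * rf V) ^ 2 * (rf r ^ 4 * rf F ^ 2)) * h4

end PairL

open PairL

theorem pair : S_pair := by
  intro K _ _ r F A₁ V₁ J₁ t₁ A₂ V₂ J₂ t₂ hr hF hV₁ hV₂ hc₁ hc₂ hJ₁ hJ₂ ht₁ ht₂ hA hA' hV hV' ht
  obtain ⟨Y₁, hY₁, e₁⟩ := one_index hr hF hV₁ hJ₁ ht₁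
  obtain ⟨Y₂, hY₂, e₂⟩ := one_index hr hF hV₂ hJ₂ ht₂
  rw [e₁, e₂]
  set D := r ^ 4 * F ^ 2 with hD
  have hFD : F ^ 2 ∣ D := Dvd.intro_left _ rfl
  have hB : D ∣ F * V₁ - F * V₂ := by
    rw [← mul_sub]
    exact hV.mul_left _
  have hB' : D ∣ derivative (F * V₁) - derivative (F * V₂) := by
    have e : derivative (F * V₁) - derivative (F * V₂) =
        derivative F * (V₁ - V₂) + F * (derivative V₁ - derivative V₂) := by
      rw [derivative_mul, derivative_mul]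
      ring
    rw [e]
    exact dvd_add (hV.mul_left _) (hV'.mul_left _)
  have hJ : F ^ 2 ∣ J₁ - J₂ := by
    have h1 : F ^ 2 ∣ A₁ * J₁ - 1 := (Dvd.intro (V₁ ^ 2) (by ring)).trans hJ₁
    have h2 : F ^ 2 ∣ A₂ * J₂ - 1 := (Dvd.intro (V₂ ^ 2) (by ring)).trans hJ₂
    have h3 : F ^ 2 ∣ A₁ - A₂ := hFD.trans hA
    have e : J₁ - J₂ = (A₁ * J₁ - 1) * J₂ - J₁ * (A₂ * J₂ - 1) - J₁ * J₂ * (A₁ - A₂) := by ring
    rw [e]
    exact dvd_sub (dvd_sub (h1.mul_right _) (h2.mul_left _)) (h3.mul_left _)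
  have hW : F ^ 2 ∣ ww A₁ (F * V₁) J₁ - ww A₂ (F * V₂) J₂ :=
    cong_ww (hFD.trans hA) (hFD.trans hA') (hFD.trans hB) (hFD.trans hB') hJ
  have hQ : D ∣ qq r A₁ (F * V₁) t₁ - qq r A₂ (F * V₂) t₂ := cong_qq hA hA' hB hB' ht
  have hrW : D ∣ r ^ 4 * ww A₁ (F * V₁) J₁ - r ^ 4 * ww A₂ (F * V₂) J₂ := by
    rw [← mul_sub]
    exact mul_dvd_mul_left _ hW
  have hVY : D ∣ V₁ ^ 2 * (Y₁ - Y₂) := by
    have e : V₁ ^ 2 * (Y₁ - Y₂) = (r ^ 4 * ww A₁ (F * V₁) J₁ - r ^ 4 * ww A₂ (F * V₂) J₂) +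
        (qq r A₁ (F * V₁) t₁ - qq r A₂ (F * V₂) t₂) - (V₁ - V₂) * ((V₁ + V₂) * Y₂) := by
      linear_combination -hY₁ + hY₂
    rw [e]
    exact dvd_sub (dvd_add hrW hQ) (hV.mul_right _)
  have hcop : IsCoprime D (V₁ ^ 2) := by
    have h1 : IsCoprime V₁ r := hc₁.of_mul_right_left
    have h2 : IsCoprime V₁ F := hc₁.of_mul_right_right
    exact ((h1.symm.pow_left).mul_left h2.symm.pow_left).pow_right
  obtain ⟨x, hx⟩ := hcop.dvd_of_dvd_mul_left hVY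
  have hD0 : rf D ≠ 0 := Pool.Agent.H604.LD.DegL.rf_ne (mul_ne_zero (pow_ne_zero _ hr) (pow_ne_zero _ hF))
  have h1 : rf Y₁ / rf D = rf Y₂ / rf D + rf x := by
    have h2 : Y₁ = Y₂ + D * x := by linear_combination hx
    rw [h2, Pool.Agent.H604.LD.DegL.rf_add, Pool.Agent.H604.LD.DegL.rf_mul, add_div,
      mul_div_cancel_left₀ _ hD0]
  rw [h1, Pool.Agent.H604.LD.DegL.res_add, res_poly, add_zero]

end Pool.Agent.H140.MH
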