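import Pool.Agent.H140.MH.Stm

/-!
# The parity of `A ^ 2 + X B ^ 2` (assembly of WIT; helper296, for helper140)
-/

set_option autoImplicit false

namespace Pool.Agent.H140.MH

open Polynomial
open scoped Classical
open Pool.Agent.H985.Chow (mob)
open Pool.Agent.H985.KP (sg)
open Pool.Agent.H524 (red emb frobLift AC)

namespace Par

variable {K : Type} [Field K]

theorem cop_of_dvd {A B J : K[X]} (h : B ^ 2 ∣ A * J - 1) : IsCoprime A B := by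
  obtain ⟨t, ht⟩ := h
  exact ⟨J, -(B * t), by linear_combination ht⟩

theorem mob_gg [CharP K 2] {A B J : K[X]} (h : B ^ 2 ∣ A * J - 1) :
    mob (gg A B) = 1 ∨ mob (gg A B) = -1 :=
  Pool.Agent.H985.Chow.mob_pm (Pool.Agent.H985.Chow.squarefree_f A B (cop_of_dvd h))

theorem eps_pm (n : ℕ) {m : ℤ} (h : m = 1 ∨ m = -1) :
    (-1) ^ n * m = 1 ∨ (-1) ^ n * m = -1 := by
  rcases neg_one_pow_eq_or ℤ n with h1 | h1 <;> rcases h with h2 | h2 <;> rw [h1, h2]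
  · left; norm_num
  · right; norm_num
  · right; norm_num
  · left; norm_num

theorem two_triples [Fintype K] [CharP K 2] (hW : S_wit) {n β : ℕ} (hn : 1 ≤ n)
    {A₁ B₁ J₁ A₂ B₂ J₂ : K[X]}
    (hB₁ : B₁ ≠ 0) (hm₁ : (gg A₁ B₁).Monic) (hd₁ : (gg A₁ B₁).natDegree = n)
    (hb₁ : B₁.natDegree = β) (hJ₁ : B₁ ^ 2 ∣ A₁ * J₁ - 1)
    (hB₂ : B₂ ≠ 0) (hm₂ : (gg A₂ B₂).Monic) (hd₂ : (gg A₂ B₂).natDegree = n)
    (hb₂ : B₂.natDegree = β) (hJ₂ : B₂ ^ 2 ∣ A₂ * J₂ - 1) :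
    (mob (gg A₁ B₁) : ℝ) * (mob (gg A₂ B₂) : ℝ) = sg (phi A₁ B₁ J₁) * sg (phi A₂ B₂ J₂) := by
  obtain ⟨V₁, Y₁, N₁, z₁, w₁, hV₁, hV0₁, hYf₁, hY0₁, hVY₁, hN1₁, hN₁, hz₁⟩ :=
    hW K n β A₁ B₁ J₁ hn hB₁ hm₁ hd₁ hb₁ hJ₁
  obtain ⟨V₂, Y₂, N₂, z₂, w₂, hV₂, hV0₂, hYf₂, hY0₂, hVY₂, hN1₂, hN₂, hz₂⟩ :=
    hW K n β A₂ B₂ J₂ hn hB₂ hm₂ hd₂ hb₂ hJ₂
  have e1 := mob_gg hJ₁
  have e2 := mob_gg hJ₂
  obtain ⟨x, hx, hx'⟩ := Pool.Agent.H985.Chow.sign_step (V₁ * Y₂) (V₂ * Y₁) N₁ N₂ (z₁ - z₂)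
    ((-1) ^ n * mob (gg A₁ B₁)) ((-1) ^ n * mob (gg A₂ B₂))
    (eps_pm n e1) (eps_pm n e2)
    (by rw [map_mul, hV₁, hYf₂]; ring) (by rw [map_mul, hV₂, hYf₁]; ring)
    (by rw [map_mul]; exact mul_ne_zero hV0₂ hY0₁)
    (by
      linear_combination (-(V₁ ^ 2)) * hVY₂ + V₂ ^ 2 * hVY₁)
    hN1₂ (by
      rw [hN₁, hN₂]
      exact ⟨w₁ - w₂, by ring⟩)
  have hz : red (AC K) (z₁ - z₂) = algebraMap K (AC K) (phi A₁ B₁ J₁ - phi A₂ B₂ J₂) := by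
    rw [map_sub, hz₁, hz₂, map_sub]
  obtain ⟨w', hw', hfin⟩ := Pool.Agent.H985.Chow.last_step x 0 (red (AC K) (z₁ - z₂))
    (red (AC K) (z₁ - z₂)) ((-1) ^ n * mob (gg A₁ B₁) * ((-1) ^ n * mob (gg A₂ B₂))) hx
    (by ring) (by
      rw [zero_pow (Fintype.card_ne_zero)]) (by
      rw [hz, ← map_pow, FiniteField.pow_card]) hx'
  have hw'' : w' = phi A₁ B₁ J₁ + phi A₂ B₂ J₂ := by
    apply (algebraMap K (AC K)).injective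
    rw [hw', hz, CharTwo.sub_eq_add]
  rw [hw''] at hfin
  have hmm : (-1) ^ n * mob (gg A₁ B₁) * ((-1) ^ n * mob (gg A₂ B₂)) =
      mob (gg A₁ B₁) * mob (gg A₂ B₂) := by
    have h1 : ((-1 : ℤ) ^ n) * (-1) ^ n = 1 := by
      rw [← mul_pow]
      norm_num
    linear_combination (mob (gg A₁ B₁) * mob (gg A₂ B₂)) * h1
  rw [hmm] at hfin
  rw [← Pool.Agent.H985.KP.Loc2.sg_add]
  rcases hfin with ⟨h1, h2⟩ | ⟨h1, h2⟩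
  · rw [sg, if_pos h2]; exact_mod_cast h1
  · rw [sg, if_neg h2]; exact_mod_cast h1

end Par

open Par in
/-- **Task MH-PAR** -/
theorem par : S_parasm := by
  intro hW K _ _ _ n β hn
  by_cases hex : ∃ A B J : K[X], B ≠ 0 ∧ (gg A B).Monic ∧ (gg A B).natDegree = n ∧
      B.natDegree = β ∧ B ^ 2 ∣ A * J - 1
  · obtain ⟨A₁, B₁, J₁, hB₁, hm₁, hd₁, hb₁, hJ₁⟩ := hex
    have h1 : (mob (gg A₁ B₁) : ℝ) * (mob (gg A₁ B₁) : ℝ) = 1 := by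
      rcases mob_gg hJ₁ with h | h <;> rw [h] <;> norm_num
    have h2 := Pool.Agent.H985.KP.Loc2.sg_mul_self (phi A₁ B₁ J₁)
    refine ⟨(mob (gg A₁ B₁) : ℝ) * sg (phi A₁ B₁ J₁), ?_, ?_⟩
    · have h3 : ((mob (gg A₁ B₁) : ℝ) * sg (phi A₁ B₁ J₁)) ^ 2 = 1 := by
        linear_combination (sg (phi A₁ B₁ J₁)) ^ 2 * h1 + h2
      exact sq_eq_one_iff.mp h3
    · intro A B J hB hm hd hb hJ
      have h3 := two_triples hW hn hB₁ hm₁ hd₁ hb₁ hJ₁ hB hm hd hb hJ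
      linear_combination (-(mob (gg A B) : ℝ)) * h1 + (mob (gg A₁ B₁) : ℝ) * h3
  · refine ⟨1, Or.inl rfl, fun A B J hB hm hd hb hJ => ?_⟩
    exact absurd ⟨A, B, J, hB, hm, hd, hb, hJ⟩ hex

end Pool.Agent.H140.MH
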