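import Pool.Agent.H140.MH.Stm
import Pool.Agent.H524.LD.ParG

/-!
# Task MH-RING (helper169 for helper140)
-/

set_option autoImplicit false

namespace Pool.Agent.H140.MH

open Polynomial
open Pool.Agent.H985.Chow (mob lc Kp RT.lc_add RT.lc_mul RT.lc_dvd RT.one_side RT.lc_sub)
open Pool.Agent.H524.LD (Top Top.mul Top.pow Top.add Top.neg Top.lift Top.eq top_X top_C top_zero
  top_monic lc_top lc_congr)

namespace RingAux

theorem key {S : Type} [CommRing S] (A A' B' E J P Q s x c : S) (hs : A * J - 1 = E ^ 2 * s)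
    (hQ : (A * A' + x * (c * E) * B') ^ 2 - P * E ^ 2 = (A ^ 2 + x * (c * E) ^ 2) * Q) :
    E ^ 2 ∣ Q - (A' ^ 2 + (x * (c * E) * B' * A' * J + x * (c * E) * B' * A' * J)) := by
  refine ⟨x ^ 2 * c ^ 2 * B' ^ 2 * J ^ 2 +
    s * A' * (2 * (A' + x * (c * E) * B' * J) + E ^ 2 * s * A') - J ^ 2 * (P + Q * x * c ^ 2) -
    Q * s * (A * J + 1), ?_⟩
  linear_combination (A' * ((A * A' + x * (c * E) * B') * J +
    (A' + x * (c * E) * B' * J + E ^ 2 * s * A')) - Q * (A * J + 1)) * hs - J ^ 2 * hQ

variable {R : Type} [CommRing R] [IsDomain R]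

theorem top_der' {P : R[X]} {m : ℕ} {s : R} (hP : Top P m s) (h : 1 ≤ m) :
    Top (derivative P) (m - 1) (s * m) := by
  refine ⟨(natDegree_derivative_le P).trans (by have := hP.1; omega), ?_⟩
  rw [coeff_derivative, show m - 1 + 1 = m by omega, hP.2]
  have h3 : ((m : ℕ) : R) = ((m - 1 : ℕ) : R) + 1 := by
    have : ((m : ℕ) : R) = ((m - 1 + 1 : ℕ) : R) := by rw [show m - 1 + 1 = m by omega]
    rw [this]; push_cast; ring
  rw [h3]

theorem der_zero {P : R[X]} {m : ℕ} {s : R} (hP : Top P m s) (h : m = 0) : derivative P = 0 :=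
  derivative_of_natDegree_zero (by have := hP.1; omega)

/-- data of the two cases -/
structure Dat (A E : R[X]) (c a : R) (n m β : ℕ) : Prop where
  tA : Top A m a
  tE : Top E β 1
  cs : (n = 2 * m ∧ β + 1 ≤ m ∧ a ^ 2 = 1) ∨ (n = 2 * m + 1 ∧ β = m ∧ c ^ 2 = 1)

theorem part1 {A E : R[X]} {c a : R} {n m β : ℕ} (D : Dat A E c a n m β) :
    Top (Kp A (C c * E)) (n - 1) (m : R) := by
  obtain ⟨tA, tE, cs⟩ := D
  have tB : Top (C c * E) β c := ((top_C c).mul tE).eq (zero_add _) (mul_one _)
  rcases cs with ⟨h1, h2, h3⟩ | ⟨h1, h2, h3⟩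
  · have t1 : Top (A * derivative A) (n - 1) (m : R) :=
      (tA.mul (top_der' tA (by omega))).eq (by omega) (by linear_combination (m : R) * h3)
    have t2 : Top (X * (C c * E) * derivative (C c * E)) (n - 1) 0 := by
      rcases Nat.eq_zero_or_pos β with h0 | h0
      · rw [der_zero tB h0, mul_zero]
        exact top_zero _
      · exact ((top_X.mul tB).mul (top_der' tB h0)).lift (by omega)
    exact (t1.add t2).eq rfl (add_zero _)
  · have t1 : Top (A * derivative A) (n - 1) (0 : R) := by
      rcases Nat.eq_zero_or_pos m with h0 | h0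
      · rw [der_zero tA h0, mul_zero]
        exact top_zero _
      · exact (tA.mul (top_der' tA h0)).lift (by omega)
    have t2 : Top (X * (C c * E) * derivative (C c * E)) (n - 1) (m : R) := by
      rcases Nat.eq_zero_or_pos β with h0 | h0
      · rw [der_zero tB h0, mul_zero]
        exact (top_zero _).eq rfl (by rw [← h2, h0, Nat.cast_zero])
      · exact ((top_X.mul tB).mul (top_der' tB h0)).eq (by omega)
          (by rw [← h2]; linear_combination (β : R) * h3)
    exact (t1.add t2).eq rfl (zero_add _)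

theorem part2 {A E : R[X]} {c a : R} {n m β : ℕ} (D : Dat A E c a n m β) :
    Top (C (c ^ 2) * (-(X * E * (derivative A) ^ 2) +
      2 * (X * (A * derivative A) * derivative E)) + C (c ^ 4) * (X ^ 2 * E * (derivative E) ^ 2))
      (β + n - 1) (c ^ 2 * (kap n β : R)) := by
  obtain ⟨tA, tE, cs⟩ := D
  have h2C : (2 : R[X]) = C 2 := by rw [map_ofNat]
  rcases cs with ⟨h1, h2, h3⟩ | ⟨h1, h2, h3⟩
  · have tA' := top_der' tA (show 1 ≤ m by omega)
    have t1 : Top (X * E * (derivative A) ^ 2) (β + n - 1) ((m : R) ^ 2) :=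
      ((top_X.mul tE).mul (tA'.pow 2)).eq (by omega) (by linear_combination (m : R) ^ 2 * h3)
    have t2 : Top (X * (A * derivative A) * derivative E) (β + n - 1) ((m : R) * β) := by
      rcases Nat.eq_zero_or_pos β with h0 | h0
      · rw [der_zero tE h0, mul_zero, h0, Nat.cast_zero, mul_zero]
        exact top_zero _
      · exact ((top_X.mul (tA.mul tA')).mul (top_der' tE h0)).eq (by omega)
          (by linear_combination (m : R) * β * h3)
    have t3 : Top (X ^ 2 * E * (derivative E) ^ 2) (β + n - 1) (0 : R) := by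
      rcases Nat.eq_zero_or_pos β with h0 | h0
      · rw [der_zero tE h0, zero_pow two_ne_zero, mul_zero]
        exact top_zero _
      · exact (((top_X.pow 2).mul tE).mul ((top_der' tE h0).pow 2)).lift (by omega)
    have t4 : Top (2 * (X * (A * derivative A) * derivative E)) (β + n - 1)
        (2 * ((m : R) * β)) := by
      rw [h2C]
      exact ((top_C (2 : R)).mul t2).eq (by omega) rfl
    have hk : (kap n β : R) = -(m : R) ^ 2 + 2 * m * β := by
      have he : Even n := ⟨m, by omega⟩
      have hm : n / 2 = m := by omega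
      unfold kap
      rw [if_pos he, hm]
      push_cast
      ring
    exact (((top_C (c ^ 2)).mul (t1.neg.add t4)).eq (zero_add _) rfl |>.add
      (((top_C (c ^ 4)).mul t3).eq (zero_add _) rfl)).eq rfl (by rw [hk]; ring)
  · have t1 : Top (X * E * (derivative A) ^ 2) (β + n - 1) (0 : R) := by
      rcases Nat.eq_zero_or_pos m with h0 | h0
      · rw [der_zero tA h0, zero_pow two_ne_zero, mul_zero]
        exact top_zero _
      · exact ((top_X.mul tE).mul ((top_der' tA h0).pow 2)).lift (by omega)
    have t2 : Top (X * (A * derivative A) * derivative E) (β + n - 1) (0 : R) := by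
      rcases Nat.eq_zero_or_pos β with h0 | h0
      · rw [der_zero tE h0, mul_zero]
        exact top_zero _
      · exact ((top_X.mul (tA.mul (top_der' tA (by omega)))).mul (top_der' tE h0)).lift
          (by omega)
    have t3 : Top (X ^ 2 * E * (derivative E) ^ 2) (β + n - 1) ((β : R) ^ 2) := by
      rcases Nat.eq_zero_or_pos β with h0 | h0
      · rw [der_zero tE h0, zero_pow two_ne_zero, mul_zero, h0, Nat.cast_zero,
          zero_pow two_ne_zero]
        exact top_zero _
      · exact (((top_X.pow 2).mul tE).mul ((top_der' tE h0).pow 2)).eq (by omega) (by ring)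
    have t4 : Top (2 * (X * (A * derivative A) * derivative E)) (β + n - 1) (0 : R) := by
      rw [h2C]
      exact ((top_C (2 : R)).mul t2).eq (by omega) (mul_zero _)
    have hk : (kap n β : R) = (β : R) ^ 2 := by
      have he : ¬ Even n := by
        rw [Nat.not_even_iff_odd]
        exact ⟨m, by omega⟩
      unfold kap
      rw [if_neg he]
      push_cast
      ring
    exact (((top_C (c ^ 2)).mul (t1.neg.add t4)).eq (zero_add _) rfl |>.add
      (((top_C (c ^ 4)).mul t3).eq (zero_add _) rfl)).eq rfl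
      (by rw [hk]; linear_combination (c ^ 2 * (β : R) ^ 2) * h3)

end RingAux

open RingAux in
theorem ring' : S_ring := by
  intro R _ _ A E J P c n β hE hEd hGm hGd hn hA hβ hev hod
  have D : Dat A E c (A.coeff (n / 2)) n (n / 2) β := by
    refine ⟨⟨by omega, rfl⟩, top_monic hE hEd, ?_⟩
    rcases Nat.even_or_odd n with he | ho
    · have h0 := Nat.even_iff.1 he
      exact Or.inl ⟨by omega, by omega, hev he⟩
    · have h0 := Nat.odd_iff.1 ho
      refine Or.inr ⟨by omega, ?_, hod (Nat.not_even_iff_odd.2 ho)⟩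
      by_contra hne
      have hBd : (C c * E).natDegree ≤ β := (natDegree_C_mul_le _ _).trans hEd.le
      have h1 : (X * (C c * E) ^ 2).natDegree ≤ 1 + 2 * β :=
        natDegree_mul_le_of_le natDegree_X_le (natDegree_pow_le_of_le 2 hBd)
      have h2 : (A ^ 2).natDegree ≤ 2 * A.natDegree := natDegree_pow_le
      have h3 : (gg A (C c * E)).natDegree ≤ max (A ^ 2).natDegree (X * (C c * E) ^ 2).natDegree :=
        natDegree_add_le _ _
      rw [hGd] at h3
      omega
  refine ⟨lc_top hGm (n := n - 1) (by omega) (part1 D), ?_⟩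
  rintro ⟨s, hs⟩ ⟨Q, hQ⟩
  have hBder : derivative (C c * E) = C c * derivative E := derivative_C_mul _ _
  have k1 := key A (derivative A) (derivative (C c * E)) E J P Q s X (C c) hs hQ
  have k2 := lc_congr (hE.pow 2) k1
  rw [RT.lc_add, RT.lc_add] at k2
  have k3 := RT.one_side 2 hE hGm hQ
  set R' : R[X] := C (c ^ 2) * (-(X * E * (derivative A) ^ 2) +
    2 * (X * (A * derivative A) * derivative E)) + C (c ^ 4) * (X ^ 2 * E * (derivative E) ^ 2)
    with hR'
  have e1 : (Kp A (C c * E)) ^ 2 = (derivative A) ^ 2 * gg A (C c * E) + R' * E := by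
    rw [Kp, hBder, hR', gg, C_pow, C_pow]
    ring
  have e2 : E ^ 2 * gg A (C c * E) = (E * gg A (C c * E)) * E := by ring
  have hEG : (E * gg A (C c * E)).Monic := hE.mul hGm
  have hEGd : (E * gg A (C c * E)).natDegree = β + n := by rw [hE.natDegree_mul hGm, hEd, hGd]
  have k4 : lc (E ^ 2 * gg A (C c * E)) ((Kp A (C c * E)) ^ 2) =
      lc (E ^ 2) ((derivative A) ^ 2) + c ^ 2 * (kap n β : R) := by
    rw [e1, RT.lc_add, RT.lc_mul (hE.pow 2) hGm, e2, RT.lc_mul hEG hE]
    congr 1
    exact lc_top hEG (n := β + n - 1) (by omega) (part2 D)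
  rw [k4, k2] at k3
  linear_combination -k3

end Pool.Agent.H140.MH
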