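import Pool.Agent.H140.MH.Stm
import Pool.Agent.H524.LD.ParG
import Pool.Agent.H985.Chow.RT

/-!
# MH-THIRD: the third sum, in characteristic two (by helper328)
-/

set_option autoImplicit false

namespace Pool.Agent.H140.MH

open Polynomial
open Pool.Agent.H985.Chow (mob lc Kp RT.one_side RT.lc_dvd RT.lc_sub)

theorem third : S_third := by
  intro F _ _ A E J p c hE hc hG hJ hdiv
  have h2 : (2 : F[X]) = 0 := CharTwo.two_eq_zero
  obtain ⟨B, hB⟩ : ∃ B : F[X], B = C c * E := ⟨_, rfl⟩
  rw [← hB] at hG hdiv ⊢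
  have hcc : C (c⁻¹) * C c = (1 : F[X]) := by
    rw [← C_mul, inv_mul_cancel₀ hc, C_1]
  -- the identity
  have hid : Kp A B ^ 3 - B ^ 2 * zz A B = Kp A B * derivative A ^ 2 * gg A B := by
    unfold zz ss gg Kp
    linear_combination (A * derivative A + X * B * derivative B) *
      (X * A * derivative A * B * derivative B - X * derivative A ^ 2 * B ^ 2) * h2
  -- coprimality
  have hEA : IsCoprime E A := by
    obtain ⟨t, ht⟩ := hJ
    exact ⟨-(E * t), J, by linear_combination ht⟩
  have hEG : IsCoprime E (gg A B) := by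
    have h3 : gg A B = A ^ 2 + (X * C c * B) * E := by
      unfold gg
      rw [hB]
      ring
    rw [h3]
    exact (hEA.pow_right).add_mul_right_right _
  have hBG : IsCoprime B (gg A B) := by
    obtain ⟨u, v, huv⟩ := hEG
    refine ⟨u * C (c⁻¹), v, ?_⟩
    rw [← huv]
    have h4 : u * C (c⁻¹) * B = u * E := by
      rw [hB]
      linear_combination (u * E) * hcc
    rw [h4]
  have h5 : gg A B ∣ (zz A B - p * B ^ 2) * B ^ 2 := by
    have h6 : (zz A B - p * B ^ 2) * B ^ 2 =
        (Kp A B ^ 3 - p * B ^ 4) - Kp A B * derivative A ^ 2 * gg A B := by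
      linear_combination -hid
    rw [h6]
    exact dvd_sub hdiv (dvd_mul_left _ _)
  have h7 : gg A B ∣ zz A B - p * B ^ 2 := (hBG.pow_left).symm.dvd_of_dvd_mul_right h5
  obtain ⟨q, hq⟩ := h7
  have h8 : zz A B - (C (c ^ 2) * p) * E ^ 2 = gg A B * q := by
    rw [← hq, hB, C_pow]
    ring
  have h9 := Pool.Agent.H985.Chow.RT.one_side 2 hE hG h8
  rw [Pool.Agent.H524.LD.lc_C_mul'] at h9
  have h10 : lc (E ^ 2) (zz A B * J ^ 2) = lc (E ^ 2) q := by
    apply Pool.Agent.H524.LD.lc_congr (hE.pow 2)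
    obtain ⟨t, ht⟩ := hJ
    refine ⟨C (c ^ 2) * p * J ^ 2 + q * (t * (A * J + 1) + X * C (c ^ 2) * J ^ 2), ?_⟩
    have h11 : zz A B = (C (c ^ 2) * p) * E ^ 2 + gg A B * q := by
      linear_combination h8
    rw [h11]
    unfold gg
    rw [hB, C_pow]
    linear_combination (q * (A * J + 1)) * ht
  rw [h9, h10]
  have h12 : (2 : F) = 0 := CharTwo.two_eq_zero
  linear_combination (- lc (E ^ 2) q) * h12

end Pool.Agent.H140.MH
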