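import Pool.Agent.H140.MH.Stm
import Pool.Agent.H140.MX.Van

/-!
# Task MH-VAN2: cube sums of coefficients at infinity vanish (helper116, for helper140)
-/

set_option autoImplicit false

namespace Pool.Agent.H140.MH

open Polynomial
open scoped Classical
open Pool.Agent.H604.LD
open Pool.Agent.H604.LD.DegL
open Pool.Agent.H140.MX (CDeg S_cd)
open Pool.Agent.H140.MX.VanL

/-- **Task MH-VAN2.** -/
theorem van2 : S_van2asm := by
  intro h K _ _ k D m G e Q P hG hQ hQe hdiff hP hcQ hcP hk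
  have hchar : CharP K[X] 2 := inferInstance
  obtain ⟨c0, c1, cm, ca, cmul, cs⟩ := h K[X] k
  obtain ⟨Q0, hQ0⟩ : ∃ Q0 : K[X], Q0 = Q ∅ := ⟨_, rfl⟩
  obtain ⟨v, hv⟩ : ∃ v : Finset (Fin k) → K[X], ∀ S, v S = Q0 + Q S := ⟨_, fun S => rfl⟩
  have h2 : (2 : K[X]) = 0 := by
    have := CharP.cast_eq_zero K[X] 2
    exact_mod_cast this
  have hE : ∀ S, Q S = Q0 - v S := by
    intro S
    rw [hv]
    linear_combination (Q S) * h2
  have hv' : ∀ S, v S = Q S - Q ∅ := by
    intro S
    rw [hv, hQ0]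
    linear_combination (Q ∅) * h2
  -- cube degrees
  have hcv : CDeg D v := by
    have e1 := ca D (fun _ => Q0) Q (cm 0 D _ (c0 Q0) (Nat.zero_le D)) hcQ
    have e2 : v = fun S => Q0 + Q S := funext hv
    rw [e2]
    exact e1
  have hzero : ∀ i ∈ Finset.range (m + 2), ∑ S : Finset (Fin k), P S * v S ^ i = 0 := by
    intro i hi
    rw [Finset.mem_range] at hi
    refine cs _ _ (cmul _ _ _ _ hcP (cdeg_pow h hcv i)) ?_
    have e1 : i * D ≤ (m + 1) * D := Nat.mul_le_mul_right D (by omega)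
    have e2 : D * (m + 3) = D + (m + 1) * D + D := by ring
    omega
  have hQ00 : rf Q0 ≠ 0 := rf_ne (by rw [hQ0]; exact hQ ∅)
  have hQS : ∀ S, rf (Q S) ≠ 0 := fun S => rf_ne (hQ S)
  have hres : ∀ S, rf (P S) / rf (Q S) =
      ∑ i ∈ Finset.range (m + 2), rf (P S * v S ^ i) / rf (Q0 ^ (i + 1)) +
        rf (P S * v S ^ (m + 2)) / rf (Q0 ^ (m + 2) * Q S) := by
    intro S
    have h3 := geom hQ00 (hQS S) (v := rf (v S)) (by rw [← rf_sub, ← hE]) (m + 2)
    rw [div_eq_mul_one_div, h3, mul_add, Finset.mul_sum]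
    congr 1
    · refine Finset.sum_congr rfl fun i _ => ?_
      rw [rf_mul (P S), rf_pow, rf_pow]
      ring
    · rw [rf_mul (P S), rf_pow, rf_mul (Q0 ^ (m + 2)), rf_pow]
      ring
  rw [← res_sum, Finset.sum_congr rfl fun S _ => hres S, Finset.sum_add_distrib, Finset.sum_comm]
  have hmain : ∑ i ∈ Finset.range (m + 2), ∑ S : Finset (Fin k),
      rf (P S * v S ^ i) / rf (Q0 ^ (i + 1)) = 0 := by
    apply Finset.sum_eq_zero
    intro i hi
    rw [← Finset.sum_div]
    have e : ∑ S : Finset (Fin k), rf (P S * v S ^ i) = rf (∑ S : Finset (Fin k), P S * v S ^ i) := by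
      unfold rf
      rw [map_sum]
    rw [e, hzero i hi, rf_zero, zero_div]
  rw [hmain, zero_add]
  apply res_eq_zero
  apply Le.sum
  intro S _
  by_cases hS : Q S = Q ∅
  · left
    rw [hv', hS, sub_self, zero_pow (by omega), mul_zero, rf_zero, zero_div]
  have hd := hdiff S hS
  rw [← hv'] at hd
  have hQ0d : Q0.natDegree = e := by rw [hQ0, hQe]
  have hQSd : (Q S).natDegree = e := by
    rw [hE, natDegree_sub_eq_left_of_natDegree_lt (by omega), hQ0d]
  have hQ0ne : Q0 ≠ 0 := by rw [hQ0]; exact hQ ∅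
  apply Le.div (mul_ne_zero (pow_ne_zero _ hQ0ne) (hQ S))
  have hden : (Q0 ^ (m + 2) * Q S).natDegree = (m + 2) * e + e := by
    rw [natDegree_mul (pow_ne_zero _ hQ0ne) (hQ S), natDegree_pow, hQ0d, hQSd]
  have hnum : (P S * v S ^ (m + 2)).natDegree ≤ e + m * G + (m + 2) * (v S).natDegree := by
    have e1 : (P S * v S ^ (m + 2)).natDegree ≤ (P S).natDegree + (v S ^ (m + 2)).natDegree :=
      natDegree_mul_le
    have e2 : (v S ^ (m + 2)).natDegree ≤ (m + 2) * (v S).natDegree := natDegree_pow_le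
    have e3 := hP S
    omega
  have h5 : (m + 2) * (v S).natDegree + (m + 2) * G ≤ (m + 2) * e := by
    rw [← mul_add]
    exact Nat.mul_le_mul_left (m + 2) hd
  have h6 : (m + 2) * G = m * G + 2 * G := by ring
  rw [hden]
  omega

end Pool.Agent.H140.MH
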