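import Pool.Agent.H140.MH.Stm
import Pool.Agent.H524.LD.ParH
import Pool.Agent.H985.Chow.KeyG
import Pool.Agent.H985.Chow.Sgn

/-!
# Task MH-WIT: the data in the Witt vectors (helper974)
-/

set_option autoImplicit false

namespace Pool.Agent.H140.MH

open Polynomial
open scoped Classical
open Pool.Agent.H985.Chow
open Pool.Agent.H524 (red emb frobLift AC vdm two_dvd_iff isUnit_iff_red two_ne_zero_witt
  red_frobLift frobLift_emb red_emb)
open Pool.Agent.H524.LD (lc_C_mul' lc_congr lc_map)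
open Pool.Agent.H604.LD (rf)
open Pool.Agent.H604.LD.DegL (res rf_mul rf_C_inv rf_C_ne rf_ne res_div res_C_mul)

namespace WitAux

section field

variable {K : Type} [Field K]

lemma res_div_C {p q : K[X]} {d : K} (hd : d ≠ 0) (hq : q.Monic) :
    res (rf p / rf (C d * q)) = d⁻¹ * lc q p := by
  have h1 : rf p / rf (C d * q) = rf (C d⁻¹) * (rf p / rf q) := by
    rw [rf_mul, rf_C_inv hd]
    have h2 := rf_C_ne hd
    have h3 := rf_ne hq.ne_zero
    field_simp
  rw [h1, res_C_mul, res_div hq]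

lemma phi_eq {A B J e : K[X]} {c : K} (hc : c ≠ 0) (he : e.Monic) (hB : B = C c * e)
    (hg : (gg A B).Monic) :
    phi A B J = (c ^ 2)⁻¹ * lc (e ^ 2 * gg A B) (zz A B) + (c ^ 2)⁻¹ * lc (e ^ 2) (ww A B J) := by
  have hB2 : B ^ 2 = C (c ^ 2) * e ^ 2 := by
    rw [hB, C_pow]
    ring
  have h1 : B ^ 2 * gg A B = C (c ^ 2) * (e ^ 2 * gg A B) := by
    rw [hB2]
    ring
  unfold phi
  rw [h1, hB2, res_div_C (pow_ne_zero 2 hc) ((he.pow 2).mul hg),
    res_div_C (pow_ne_zero 2 hc) (he.pow 2)]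

lemma ww_eq (A B J : K[X]) :
    ww A B J = zz A B * J ^ 2 + X * B * derivative B * derivative A * J := by
  unfold ww zz
  ring

lemma parity [CharP K 2] (n : ℕ) (a b : K[X]) (hb : b ≠ 0) (hm : (a ^ 2 + X * b ^ 2).Monic)
    (hd : (a ^ 2 + X * b ^ 2).natDegree = n) :
    (Even n → a.coeff (n / 2) = 1) ∧ (¬ Even n → b.leadingCoeff = 1) := by
  have hmax := natDegree_f a b hb
  rw [hd] at hmax
  have hmc : (a ^ 2 + X * b ^ 2).coeff n = 1 := by rw [← hd]; exact hm.coeff_natDegree
  constructor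
  · intro hev
    obtain ⟨m, hm'⟩ := hev
    obtain rfl : n = 2 * m := by omega
    have hm2 : 2 * m / 2 = m := by omega
    have e1 : (a ^ 2).coeff (2 * m) = (a.coeff m) ^ 2 := by
      have := coeff_pow_of_natDegree_le (p := a) (n := m) (by omega) (m := 2)
      exact this
    have e2 : (X * b ^ 2).coeff (2 * m) = 0 := by
      apply coeff_eq_zero_of_natDegree_lt
      rw [natDegree_X_mul (pow_ne_zero 2 hb), natDegree_pow]
      omega
    rw [coeff_add, e1, e2, add_zero] at hmc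
    rw [hm2]
    exact sq_eq_one hmc
  · intro hodd
    rw [Nat.not_even_iff_odd] at hodd
    obtain ⟨m, hm'⟩ := hodd
    obtain rfl : n = 2 * m + 1 := hm'
    have e1 : (a ^ 2).coeff (2 * m + 1) = 0 := by
      apply coeff_eq_zero_of_natDegree_lt
      rw [natDegree_pow]
      omega
    have e2 : (X * b ^ 2).coeff (2 * m + 1) = (b.coeff m) ^ 2 := by
      rw [coeff_X_mul]
      have := coeff_pow_of_natDegree_le (p := b) (n := m) (by omega) (m := 2)
      exact this
    rw [coeff_add, e1, e2, zero_add] at hmc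
    have hbm := sq_eq_one hmc
    have hbd : b.natDegree = m := by
      apply le_antisymm (by omega)
      apply le_natDegree_of_ne_zero
      rw [hbm]; exact one_ne_zero
    rw [leadingCoeff, hbd, hbm]

end field

end WitAux

open WitAux

/-- **Task MH-WIT**, assembly. -/
theorem wit : S_witasm := by
  intro hR hT K _ _ _ n β A B J hn hB0 hg hgn hβ hAJ
  have hg' : (A ^ 2 + X * B ^ 2).Monic := hg
  have hgn' : (A ^ 2 + X * B ^ 2).natDegree = n := hgn
  have h2K : (2 : K) = 0 := by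
    have := CharP.cast_eq_zero K 2
    exact_mod_cast this
  have hmax := natDegree_f A B hB0
  rw [hgn'] at hmax
  have hA2 : 2 * A.natDegree ≤ n := by omega
  have hB2 : 2 * B.natDegree + 1 ≤ n := by omega
  obtain ⟨hAc, hBc⟩ := parity n A B hB0 hg' hgn'
  obtain ⟨c, hc⟩ : ∃ c, c = B.leadingCoeff := ⟨_, rfl⟩
  have hc0 : c ≠ 0 := by rw [hc]; exact leadingCoeff_ne_zero.2 hB0
  obtain ⟨e, he⟩ : ∃ e, e = C c⁻¹ * B := ⟨_, rfl⟩
  have hem : e.Monic := by
    rw [he]
    apply monic_C_mul_of_mul_leadingCoeff_eq_one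
    rw [← hc, inv_mul_cancel₀ hc0]
  have hBe : B = C c * e := by rw [he, ← mul_assoc, ← C_mul, mul_inv_cancel₀ hc0, C_1, one_mul]
  have hed : e.natDegree = β := by rw [he, natDegree_C_mul (inv_ne_zero hc0), hβ]
  have hcu : IsUnit (C c : K[X]) := isUnit_C.mpr (IsUnit.mk0 _ hc0)
  have hcopB : IsCoprime A B := by
    obtain ⟨t, ht⟩ := hAJ
    exact ⟨J, -(B * t), by linear_combination ht⟩
  have hgE : IsCoprime e (A ^ 2 + X * B ^ 2) := by
    have h1 := isCoprime_f A B hcopB
    have h2 : IsCoprime (A ^ 2 + X * B ^ 2) (C c * e) := by rw [← hBe]; exact h1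
    exact ((isCoprime_mul_unit_left_right hcu _ _).mp h2).symm
  -- the lifts
  obtain ⟨cW, hcW⟩ : ∃ cW : WittVector 2 K, cW = WittVector.teichmuller 2 c := ⟨_, rfl⟩
  have hcWr : red K cW = c := by rw [hcW]; exact WittVector.teichmuller_coeff_zero 2 c
  obtain ⟨At, hAt⟩ : ∃ At, At = tl A := ⟨_, rfl⟩
  obtain ⟨et, het⟩ : ∃ et, et = tl e := ⟨_, rfl⟩
  obtain ⟨Bt, hBt⟩ : ∃ Bt, Bt = C cW * et := ⟨_, rfl⟩
  have hAtr : At.map (red K) = A := by rw [hAt]; exact map_tl A
  have hetr : et.map (red K) = e := by rw [het]; exact map_tl e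
  have hBtr : Bt.map (red K) = B := by rw [hBt, Polynomial.map_mul, map_C, hetr, hcWr, ← hBe]
  have hetm : et.Monic := by rw [het]; exact tl_monic hem
  have hetd : et.natDegree = β := by rw [het, natDegree_tl hem, hed]
  have hAtd : At.natDegree ≤ A.natDegree := by rw [hAt]; exact natDegree_tl_le A
  have hBtd : Bt.natDegree ≤ β := by rw [hBt]; exact (natDegree_C_mul_le _ _).trans hetd.le
  have hAt1 : A.coeff (n / 2) = 1 → At.coeff (n / 2) = 1 := by
    intro h
    rw [hAt, coeff_tl, h, map_one]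
  obtain ⟨hG, hGd⟩ := lift_monic n A B hB0 hg' hgn' At Bt (by omega) (by omega) hAt1 (by
    intro h1 h2
    have h3 : c = 1 := by rw [hc, leadingCoeff, h1, h2]
    have h4 : et.coeff (n / 2) = 1 := by
      rw [← h1, hβ, ← hetd]
      exact hetm.coeff_natDegree
    rw [hBt, coeff_C_mul, h4, hcW, h3, map_one, one_mul])
  obtain ⟨V, Y, N, ℓ1, ℓ2, w, hV, hV0, hYf, hY0, hVY, hN1, hN, hℓ1, hℓ2, hcp⟩ :=
    side sgn n hn At Bt hG hGd (by rw [hAtr, hBtr]; exact hcopB)
  -- over the Witt vectors of the algebraic closure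
  obtain ⟨Ae, hAe⟩ : ∃ Ae, Ae = At.map (emb K) := ⟨_, rfl⟩
  obtain ⟨Ee, hEe⟩ : ∃ Ee, Ee = et.map (emb K) := ⟨_, rfl⟩
  obtain ⟨ce, hce⟩ : ∃ ce, ce = emb K cW := ⟨_, rfl⟩
  have hBee : Bt.map (emb K) = C ce * Ee := by
    rw [hBt, Polynomial.map_mul, map_C, ← hce, ← hEe]
  have hGe : (At ^ 2 + X * Bt ^ 2).map (emb K) = gg Ae (C ce * Ee) := by
    rw [map_G, hBee, ← hAe]
    rfl
  have hKe : (At * derivative At + X * Bt * derivative Bt).map (emb K) = Kp Ae (C ce * Ee) := by
    have h1 := map_Kp (emb K) At Bt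
    rw [hBee, ← hAe] at h1
    exact h1
  have hEem : Ee.Monic := by rw [hEe]; exact hetm.map _
  have hEed : Ee.natDegree = β := by rw [hEe, hetm.natDegree_map, hetd]
  have hggm : (gg Ae (C ce * Ee)).Monic := by rw [← hGe]; exact hG.map _
  have hggd : (gg Ae (C ce * Ee)).natDegree = n := by rw [← hGe, hG.natDegree_map, hGd]
  have hGE : IsCoprime Ee (gg Ae (C ce * Ee)) := by
    have h1 := hcp (et.map (emb K)) (by
      intro x hx
      rw [red_map_map, hetr]
      rw [map_G, hAtr, hBtr] at hx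
      exact coprime_eval hgE x hx)
    rw [hGe, ← hEe] at h1
    exact h1.symm
  have hcur : red (AC K) ce = algebraMap K (AC K) c := by
    rw [hce, red_emb, hcWr]
  have hcu2 : IsUnit ce := by
    apply isUnit_iff_red
    rw [hcur]
    exact fun h => hc0 ((map_eq_zero _).mp h)
  obtain ⟨c', hc'⟩ := hcu2.exists_right_inv
  -- the inverse of `A`
  have hEA : IsCoprime (Ee ^ 2) Ae := by
    have h1 : IsCoprime Ee (Ae ^ 2) := by
      have h2 : gg Ae (C ce * Ee) = Ae ^ 2 + Ee * (X * C ce ^ 2 * Ee) := by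
        unfold gg
        ring
      rw [h2] at hGE
      exact hGE.of_add_mul_left_right
    exact ((IsCoprime.pow_right_iff (by norm_num)).1 h1).pow_left
  obtain ⟨u₀, Jt, hJt⟩ := hEA
  have hJd : Ee ^ 2 ∣ Ae * Jt - 1 := ⟨-u₀, by linear_combination hJt⟩
  -- the second sum
  obtain ⟨u₁, v₁, huv⟩ := (hGE.pow_left (m := 2)).symm
  obtain ⟨Pt, hPt⟩ : ∃ Pt, Pt = Kp Ae (C ce * Ee) ^ 2 * v₁ := ⟨_, rfl⟩
  have hPd : gg Ae (C ce * Ee) ∣ Kp Ae (C ce * Ee) ^ 2 - Pt * Ee ^ 2 := by
    refine ⟨Kp Ae (C ce * Ee) ^ 2 * u₁, ?_⟩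
    rw [hPt]
    linear_combination (-(Kp Ae (C ce * Ee)) ^ 2) * huv
  obtain ⟨hL, hS2⟩ := hR (WittVector 2 (AC K)) Ae Ee Jt Pt ce n β hEem hEed hggm hggd hn
    (by
      rw [hAe]
      have := natDegree_map_le (f := emb K) (p := At)
      omega)
    (by omega)
    (by
      intro hev
      rw [hAe, coeff_map, hAt1 (hAc hev), map_one, one_pow])
    (by
      intro hodd
      rw [hce, hcW, hc, hBc hodd, map_one, map_one, one_pow])
  have hS2' := hS2 hJd hPd
  obtain ⟨M, hM⟩ : ∃ M, M = lc (Ee ^ 2) (X * (C ce * Ee) * derivative (C ce * Ee) *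
    derivative Ae * Jt) := ⟨_, rfl⟩
  rw [← hM] at hS2'
  have hℓ1' : ℓ1 = c' ^ 2 * lc (gg Ae (C ce * Ee)) Pt := by
    rw [hℓ1 (C (c' ^ 2) * Pt) (by
      rw [hGe, hKe, hBee]
      obtain ⟨t, ht⟩ := hPd
      refine ⟨t, ?_⟩
      have e1 : C c' * C ce = (1 : (WittVector 2 (AC K))[X]) := by
        rw [← C_mul, mul_comm, hc', C_1]
      have e2 : C (c' ^ 2) * Pt * (C ce * Ee) ^ 2 = Pt * Ee ^ 2 := by
        rw [C_pow]
        linear_combination (Pt * Ee ^ 2 * (C c' * C ce + 1)) * e1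
      rw [e2]
      exact ht), lc_C_mul', hGe]
  have hℓ1'' : ℓ1 = (kap n β : WittVector 2 (AC K)) - 2 * (c' ^ 2 * M) := by
    rw [hℓ1', hS2']
    linear_combination ((kap n β : WittVector 2 (AC K)) * (ce * c' + 1)) * hc'
  -- the third sum
  obtain ⟨u₂, v₂, huv2⟩ := (isCoprime_f A B hcopB).pow_right (n := 4)
  obtain ⟨p, hp⟩ : ∃ p, p = Kp A B ^ 3 * v₂ := ⟨_, rfl⟩
  have hpd : (A ^ 2 + X * B ^ 2) ∣ Kp A B ^ 3 - p * B ^ 4 := by
    refine ⟨Kp A B ^ 3 * u₂, ?_⟩
    rw [hp]
    linear_combination (-(Kp A B) ^ 3) * huv2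
  have hℓ2' : red (AC K) ℓ2 = algebraMap K (AC K) (lc (gg A B) p) := by
    rw [hℓ2 (p.map (algebraMap K (AC K))) (by
      have e1 : (At * derivative At + X * Bt * derivative Bt).map (red K) = Kp A B := by
        have h1 := map_Kp (red K) At Bt
        rw [hAtr, hBtr] at h1
        exact h1
      rw [map_G, e1, hAtr, hBtr]
      have e9 : ((Kp A B).map (algebraMap K (AC K))) ^ 3 -
          (p.map (algebraMap K (AC K))) * (B.map (algebraMap K (AC K))) ^ 4 =
          (Kp A B ^ 3 - p * B ^ 4).map (algebraMap K (AC K)) := by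
        simp only [Polynomial.map_sub, Polynomial.map_mul, Polynomial.map_pow]
      rw [e9]
      exact Polynomial.map_dvd _ hpd), map_G, hAtr, hBtr, lc_map (algebraMap K (AC K)) hg']
    rfl
  have he2J : e ^ 2 ∣ A * J - 1 := by
    refine dvd_trans ?_ hAJ
    rw [hBe]
    exact ⟨C c ^ 2, by ring⟩
  have hS3 := hT K A e J p c hem hc0 (by rw [← hBe]; exact hg) he2J (by
    rw [← hBe]
    exact hpd)
  rw [← hBe] at hS3
  -- the reduction of `M`
  have hredM : red (AC K) M = algebraMap K (AC K)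
      (lc (e ^ 2) (X * B * derivative B * derivative A * J)) := by
    have hEr : Ee.map (red (AC K)) = e.map (algebraMap K (AC K)) := by
      rw [hEe, red_map_map, hetr]
    have hAr : Ae.map (red (AC K)) = A.map (algebraMap K (AC K)) := by
      rw [hAe, red_map_map, hAtr]
    have hBr : (C ce * Ee).map (red (AC K)) = B.map (algebraMap K (AC K)) := by
      rw [← hBee, red_map_map, hBtr]
    have e1 := lc_map (red (AC K)) (hEem.pow 2) (X * (C ce * Ee) * derivative (C ce * Ee) *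
      derivative Ae * Jt)
    have e2 := lc_map (algebraMap K (AC K)) (hem.pow 2)
      (X * B * derivative B * derivative A * J)
    rw [hM, ← e1, ← e2]
    have e3 : (X * (C ce * Ee) * derivative (C ce * Ee) * derivative Ae * Jt).map
        (red (AC K)) = X * B.map (algebraMap K (AC K)) *
          derivative (B.map (algebraMap K (AC K))) *
          derivative (A.map (algebraMap K (AC K))) * Jt.map (red (AC K)) := by
      rw [Polynomial.map_mul, Polynomial.map_mul, Polynomial.map_mul, Polynomial.map_mul, map_X,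
        ← derivative_map, ← derivative_map, hBr, hAr]
    have e4 : (X * B * derivative B * derivative A * J).map (algebraMap K (AC K)) =
        X * B.map (algebraMap K (AC K)) * derivative (B.map (algebraMap K (AC K))) *
          derivative (A.map (algebraMap K (AC K))) * J.map (algebraMap K (AC K)) := by
      rw [Polynomial.map_mul, Polynomial.map_mul, Polynomial.map_mul, Polynomial.map_mul, map_X,
        ← derivative_map, ← derivative_map]
    rw [e3, e4, Polynomial.map_pow, Polynomial.map_pow, hEr]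
    apply lc_congr ((hem.map _).pow 2)
    have d1 : (e.map (algebraMap K (AC K))) ^ 2 ∣
        A.map (algebraMap K (AC K)) * Jt.map (red (AC K)) - 1 := by
      have h := Polynomial.map_dvd (red (AC K)) hJd
      rw [Polynomial.map_pow, Polynomial.map_sub, Polynomial.map_mul, Polynomial.map_one, hEr,
        hAr] at h
      exact h
    have d2 : (e.map (algebraMap K (AC K))) ^ 2 ∣
        A.map (algebraMap K (AC K)) * J.map (algebraMap K (AC K)) - 1 := by
      have h := Polynomial.map_dvd (algebraMap K (AC K)) he2J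
      rw [Polynomial.map_pow, Polynomial.map_sub, Polynomial.map_mul, Polynomial.map_one] at h
      exact h
    obtain ⟨t1, ht1⟩ := d1
    obtain ⟨t2, ht2⟩ := d2
    obtain ⟨F, hF⟩ : ∃ F, F = X * B.map (algebraMap K (AC K)) *
      derivative (B.map (algebraMap K (AC K))) * derivative (A.map (algebraMap K (AC K))) :=
      ⟨_, rfl⟩
    rw [← hF]
    exact ⟨F * (J.map (algebraMap K (AC K)) * t1 - Jt.map (red (AC K)) * t2), by
      linear_combination F * (J.map (algebraMap K (AC K))) * ht1 -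
        F * (Jt.map (red (AC K))) * ht2⟩
  have hredc : red (AC K) c' = algebraMap K (AC K) c⁻¹ := by
    have h1 := congrArg (red (AC K)) hc'
    rw [map_mul, hcur, map_one] at h1
    rw [map_inv₀]
    exact eq_inv_of_mul_eq_one_right h1
  refine ⟨V, Y, N, -(c' ^ 2 * M) - ℓ2, w, ?_, hV0, hYf, hY0, hVY, hN1, ?_, ?_⟩
  · rw [map_G, hAtr, hBtr] at hV
    exact hV
  · rw [hN, hGe, hKe, hL, hℓ1'']
    ring
  · rw [map_sub, map_neg, map_mul, map_pow, hredc, hredM, hℓ2', ← map_pow, ← map_mul, ← map_neg,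
      ← map_sub]
    congr 1
    rw [phi_eq hc0 hem hBe hg, ww_eq, RT.lc_add]
    have h3 : lc (gg A B) p = (c ^ 2)⁻¹ * (lc (e ^ 2 * gg A B) (zz A B) +
        lc (e ^ 2) (zz A B * J ^ 2)) := by
      rw [← hS3, ← mul_assoc, inv_mul_cancel₀ (pow_ne_zero 2 hc0), one_mul]
    rw [h3, inv_pow]
    linear_combination (-((c ^ 2)⁻¹ * (lc (e ^ 2) (X * B * derivative B * derivative A * J) +
      lc (e ^ 2 * gg A B) (zz A B) + lc (e ^ 2) (zz A B * J ^ 2)))) * h2K

end Pool.Agent.H140.MH
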