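import Mathlib
import Pool.Agent.H140.MH.Stm
import Pool.Agent.H140.MH.Fin
import Pool.Agent.H140.MH.Ring
import Pool.Agent.H140.MH.Third
import Pool.Agent.H140.MH.Wit
import Pool.Agent.H140.MH.Par
import Pool.Agent.H140.MH.Van2
import Pool.Agent.H140.MH.Pair
import Pool.Agent.H140.MH.Evf
import Pool.Agent.H140.MH.Flh
import Pool.Agent.H140.MH.Dec
import Pool.Agent.H140.MH.Cls
import Pool.Agent.H140.MH.Den
import Pool.Agent.H140.MX.Cd

/-!
# Chowla over `F_q[X]`, `q` even, with arbitrary inseparable factors (helper140): the theorems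
-/

set_option autoImplicit false

namespace Pool.Agent.H140.MH

theorem s_wit : S_wit := wit ring' third

theorem s_par : S_par := par s_wit

theorem s_flath : S_flath := flh s_par (van2 Pool.Agent.H140.MX.cd) pair evf Pool.Agent.H140.MX.cd

theorem s_fin : S_fin := fin s_flath dec cls den evf

end Pool.Agent.H140.MH
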