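import Pool.Agent.H140.MH.Mobh

/-!
# Task MOBH, general form: the Möbius function of a divisor (helper116, for helper140)
-/

set_option autoImplicit false

namespace Pool.Agent.H140.MH

open Polynomial
open scoped Classical
open Pool.Agent.H985.Chow (mob MD)
open Pool.Agent.H694.Typ (Mn mem_Mn card_Mn)
open Pool.Agent.H140.Q (liou)
open Pool.Agent.H140.Q.FinM (abs_liou)
open Pool.Agent.H140.MX (SqR)
open Pool.Agent.H251.SP.TII (Pl mem_Pl card_Pl)
open Pool.Agent.H526.PE (Ph)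

/-- The Möbius function at the values of `F`, where `c ^ 2 F = f h`. -/
def S_mobh2 : Prop :=
  ∀ (K : Type) [Field K] [Fintype K] [CharP K 2] (F f h : K[X][X]) (c μ : K[X]) (s : ℕ),
    c ≠ 0 → C (c ^ 2) * F = f * h →
    0 < f.natDegree → (f.map (algebraMap K[X] (RatFunc K))).Separable → μ ≠ 0 → SqR f μ →
    h ≠ 0 → derivative h = 0 → ∀ ε : ℝ, 0 < ε → ∃ n₀ : ℕ, ∀ n : ℕ, n₀ ≤ n →
    ∀ w : K[X] → ℝ, (∀ g, |w g| ≤ 1) →
      (∀ g, ∃ χ : AddChar K[X] ℝ, ∀ u, w (g + μ * u ^ 2) = w g * χ u) →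
      ∀ P : K[X] → ℂ, Ph s P →
      ‖∑ g ∈ Mn K n, ((w g * (mob (F.eval g) : ℝ) : ℝ) : ℂ) * P g‖ ≤
        ε * (Fintype.card K : ℝ) ^ n

open MobH

theorem mobh2 : S_fin → S_dec → S_mobh2 := by
  intro hfin hdec K _ _ _ F f h c₀ μ s hc₀ hF hd hsep hμ hr hh hh' ε hε
  have hFa : ∀ a : K[X], f.eval a * h.eval a = c₀ ^ 2 * F.eval a := by
    intro a
    have h1 := congrArg (eval a) hF
    rw [eval_mul, eval_C, eval_mul] at h1
    exact h1.symm
  obtain ⟨e, r, g, U, V, u, v, he, hrm, hg0, hdeco, hbez⟩ := hdec K h hh hh'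
  have hf0 : f ≠ 0 := by
    rintro rfl
    simp at hd
  have hq1 : 1 < Fintype.card K := Fintype.one_lt_card
  have hq : (0 : ℝ) < (Fintype.card K : ℝ) := by exact_mod_cast (zero_lt_one.trans hq1)
  have hdich : (∃ (G : K[X][X]) (c : K[X]), 0 < G.natDegree ∧ c ≠ 0 ∧ G ^ 2 ∣ C c * (f * h)) ∨
      (∃ g₀ : K[X], g = C g₀ ∧ g₀ ≠ 0) ∧
        ∃ (p q : K[X][X]) (N : K[X]), N ≠ 0 ∧ p * f + q * h = C N := by
    by_cases hgd : 0 < g.natDegree
    · left
      refine ⟨g, e ^ 2, hgd, pow_ne_zero 2 he, f * (U ^ 2 + C X * V ^ 2), ?_⟩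
      linear_combination f * hdeco
    · rcases dich f h hf0 with h1 | h1
      · exact Or.inl h1
      · right
        have h2 : g = C (g.coeff 0) := eq_C_of_natDegree_eq_zero (by omega)
        refine ⟨⟨g.coeff 0, h2, ?_⟩, h1⟩
        intro h0
        rw [h0, C_0] at h2
        exact hg0 h2
  rcases hdich with ⟨G, c, hG, hc, hdvd⟩ | ⟨⟨g₀, hg, hg00⟩, p, q, N, hN, hpq⟩
  · obtain ⟨n₀, hn₀⟩ := mob_zero F G (c * c₀ ^ 2) hG (mul_ne_zero hc (pow_ne_zero 2 hc₀)) (by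
      rw [← hF, ← mul_assoc, ← C_mul] at hdvd
      exact hdvd)
    refine ⟨n₀, fun n hn w hw hw2 P hP => ?_⟩
    rw [Finset.sum_eq_zero]
    · rw [norm_zero]
      positivity
    · intro a ha
      rw [mem_Mn] at ha
      have h1 := hn₀ a ha.1 (by omega)
      rw [h1]
      simp
  obtain ⟨u', v', N', hN', hsep'⟩ := Pool.Agent.H140.E.sep_clear f hsep
  obtain ⟨r', cp, a', c', δ, hc', hδ, hf'⟩ :=
    Pool.Agent.H140.E.intrA K f u' v' μ N' hμ hN' hd hsep' hr
  obtain ⟨M₁, hM₁, n₁, hn₁⟩ := Pool.Agent.H140.E.MobE.tail3 Pool.Agent.H140.E.cntE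
    Pool.Agent.H140.E.bigE K r' cp a' f u' v' c' (δ ^ 2 * μ) N' hc'
    (mul_ne_zero (pow_ne_zero 2 hδ) hμ) hN' hf' hd hsep' (ε / 2) (by positivity)
  obtain ⟨M₂, hM₂⟩ : ∃ M₂ : ℕ, M₂ = M₁ + g₀.natDegree + r.natDegree + N.natDegree := ⟨_, rfl⟩
  obtain ⟨W, hWm, hW⟩ := small K M₂
  obtain ⟨Q, hQ⟩ : ∃ Q : K[X], Q = W ^ 2 := ⟨_, rfl⟩
  have hQm : Q.Monic := by rw [hQ]; exact hWm.pow 2
  obtain ⟨Bad, hBad⟩ : ∃ Bad : K[X] → Prop, ∀ a, Bad a ↔ ∃ P : K[X], Irreducible P ∧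
      P.natDegree ≤ M₂ ∧ P ^ 2 ∣ F.eval a := ⟨_, fun _ => Iff.rfl⟩
  have hBadQ : ∀ a b : K[X], Q ∣ a - b → (Bad a ↔ Bad b) := by
    intro a b hab
    rw [hBad, hBad]
    have h1 : ∀ P : K[X], Irreducible P → P.natDegree ≤ M₂ →
        (P ^ 2 ∣ F.eval a ↔ P ^ 2 ∣ F.eval b) := by
      intro P hP hPd
      have h2 : P ^ 2 ∣ F.eval a - F.eval b := by
        refine Dvd.dvd.trans ?_ (sub_dvd_eval_sub a b F)
        refine Dvd.dvd.trans ?_ hab
        rw [hQ]
        exact pow_dvd_pow_of_dvd (hW P hP hPd) 2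
      exact dvd_iff_dvd_of_dvd_sub h2
    constructor
    · rintro ⟨P, hP, hPd, h6⟩
      exact ⟨P, hP, hPd, (h1 P hP hPd).1 h6⟩
    · rintro ⟨P, hP, hPd, h6⟩
      exact ⟨P, hP, hPd, (h1 P hP hPd).2 h6⟩
  obtain ⟨ε', hε'⟩ : ∃ ε' : ℝ, ε' = ε / 2 / (Fintype.card K : ℝ) ^ Q.natDegree := ⟨_, rfl⟩
  have hε'0 : 0 < ε' := by rw [hε']; positivity
  obtain ⟨n₂, hn₂⟩ := hfin K f h μ (max s 2) hd hsep hμ hr hh hh' ε' hε'0
  refine ⟨max n₁ n₂, fun n hn w hw hw2 P hP => ?_⟩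
  have hPn : ∀ a, ‖P a‖ ≤ 1 := by
    intro a
    rcases Nat.eq_zero_or_pos s with h0 | h0
    · rw [h0] at hP
      rw [show P a = 1 from hP a, norm_one]
    · exact (Pool.Agent.H526.PE.Phl.main.2.2.2.2.1 K[X] s P hP a).le
  obtain ⟨L, hL⟩ : ∃ L : K[X] → ℂ, ∀ a, L a =
      ((w a * (liou (F.eval a) : ℝ) : ℝ) : ℂ) := ⟨_, fun _ => rfl⟩
  have hcl : ∀ b : K[X], ‖∑ a ∈ (Mn K n).filter (fun a => Q ∣ a - b), P a * L a‖ ≤
      ε' * (Fintype.card K : ℝ) ^ n := by
    intro b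
    refine classes s ε' n L (fun P' hP' => ?_) P hP Q b hQm.ne_zero
    have h1 := hn₂ n ((le_max_right _ _).trans hn) w hw hw2 P' hP'
    refine le_of_eq_of_le ?_ h1
    congr 1
    refine Finset.sum_congr rfl fun a _ => ?_
    rw [hL, mul_comm, hFa, liou_sq_mul hc₀]
  -- the main part
  have hmain : ‖∑ a ∈ Mn K n, (if Bad a then 0 else P a * L a)‖ ≤
      ε / 2 * (Fintype.card K : ℝ) ^ n := by
    rw [← split Q hQm n]
    have h1 : ∀ b ∈ Pl K Q.natDegree, ‖∑ a ∈ (Mn K n).filter (fun a => Q ∣ a - b),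
        (if Bad a then 0 else P a * L a)‖ ≤ ε' * (Fintype.card K : ℝ) ^ n := by
      intro b _
      by_cases hb : Bad b
      · rw [Finset.sum_eq_zero]
        · rw [norm_zero]
          positivity
        · intro a ha
          rw [if_pos ((hBadQ a b (Finset.mem_filter.1 ha).2).2 hb)]
      · refine le_of_eq_of_le ?_ (hcl b)
        congr 1
        refine Finset.sum_congr rfl fun a ha => ?_
        rw [if_neg (fun h0 => hb ((hBadQ a b (Finset.mem_filter.1 ha).2).1 h0))]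
    refine (norm_sum_le _ _).trans ((Finset.sum_le_sum h1).trans ?_)
    rw [Finset.sum_const, card_Pl, nsmul_eq_mul, hε']
    push_cast
    apply le_of_eq
    field_simp
  -- the error
  have hpt : ∀ a : K[X], ‖((w a * (mob (F.eval a) : ℝ) : ℝ) : ℂ) * P a -
      (if Bad a then 0 else P a * L a)‖ ≤
      if ∃ P : K[X], Irreducible P ∧ M₁ < P.natDegree ∧ P ^ 2 ∣ f.eval a then 1 else 0 := by
    intro a
    have hsq : Squarefree (F.eval a) ↔
        ∀ P : K[X], Irreducible P → ¬ P * P ∣ F.eval a :=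
      squarefree_iff_irreducible_sq_not_dvd_of_exists_irreducible ⟨X, irreducible_X⟩
    by_cases h4 : Bad a
    · rw [if_pos h4]
      have h5 : ¬ Squarefree (F.eval a) := by
        obtain ⟨P, hP, -, h6⟩ := (hBad a).1 h4
        rw [sq] at h6
        exact fun h7 => hsq.1 h7 P hP h6
      rw [mob, if_neg h5]
      simp only [Int.cast_zero, mul_zero, Complex.ofReal_zero, zero_mul, sub_zero, norm_zero]
      split_ifs <;> norm_num
    · rw [if_neg h4]
      by_cases h5 : Squarefree (F.eval a)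
      · have h6 : F.eval a ≠ 0 := h5.ne_zero
        rw [hL, mob, if_pos h5, liou, if_neg h6, mul_comm (P a), sub_self, norm_zero]
        split_ifs <;> norm_num
      · have h6 : ∃ P : K[X], Irreducible P ∧ M₁ < P.natDegree ∧ P ^ 2 ∣ f.eval a := by
          rw [hsq] at h5
          push Not at h5
          obtain ⟨P, hP, h7⟩ := h5
          rw [← sq] at h7
          have h8 : M₂ < P.natDegree := by
            by_contra h8
            exact h4 ((hBad a).2 ⟨P, hP, not_lt.1 h8, h7⟩)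
          have hnd : ∀ z : K[X], z ≠ 0 → z.natDegree ≤ M₂ → ¬ P ∣ z := by
            intro z hz h3 h9
            have h10 := natDegree_le_of_dvd h9 hz
            omega
          refine ⟨P, hP, by omega, ?_⟩
          exact large_fh hpq hP (hnd N hN (by omega))
            (large_h hg hdeco hbez hP (hnd g₀ hg00 (by omega)) (hnd r hrm.ne_zero (by omega)))
            (by rw [hFa]; exact h7.mul_left _)
        rw [if_pos h6, mob, if_neg h5]
        simp only [Int.cast_zero, mul_zero, Complex.ofReal_zero, zero_mul, zero_sub, norm_neg]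
        rw [norm_mul, hL, Complex.norm_real, Real.norm_eq_abs, abs_mul]
        exact mul_le_one₀ (hPn a) (by positivity) (mul_le_one₀ (hw a) (abs_nonneg _) (abs_liou _))
  have htail := hn₁ n ((le_max_left _ _).trans hn)
  have h4 : ((MD K n ∩ {g | ∃ P : K[X], Irreducible P ∧ M₁ < P.natDegree ∧
        P ^ 2 ∣ f.eval g}).ncard : ℝ) = ∑ a ∈ Mn K n,
      if ∃ P : K[X], Irreducible P ∧ M₁ < P.natDegree ∧ P ^ 2 ∣ f.eval a then (1 : ℝ) else 0 := by
    rw [Finset.sum_boole]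
    have h5 : (MD K n ∩ {g | ∃ P : K[X], Irreducible P ∧ M₁ < P.natDegree ∧
        P ^ 2 ∣ f.eval g}) = (((Mn K n).filter fun a => ∃ P : K[X], Irreducible P ∧
          M₁ < P.natDegree ∧ P ^ 2 ∣ f.eval a : Finset K[X]) : Set K[X]) := by
      ext a
      rw [Finset.mem_coe, Finset.mem_filter, mem_Mn]
      rfl
    rw [h5, Set.ncard_coe_finset]
  rw [h4] at htail
  have h5 : ∑ a ∈ Mn K n, ((w a * (mob (F.eval a) : ℝ) : ℝ) : ℂ) * P a =
      ∑ a ∈ Mn K n, (if Bad a then 0 else P a * L a) +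
      ∑ a ∈ Mn K n, (((w a * (mob (F.eval a) : ℝ) : ℝ) : ℂ) * P a -
        (if Bad a then 0 else P a * L a)) := by
    rw [← Finset.sum_add_distrib]
    refine Finset.sum_congr rfl fun a _ => ?_
    ring
  rw [h5]
  calc _ ≤ ‖∑ a ∈ Mn K n, (if Bad a then 0 else P a * L a)‖ +
      ‖∑ a ∈ Mn K n, (((w a * (mob (F.eval a) : ℝ) : ℝ) : ℂ) * P a -
        (if Bad a then 0 else P a * L a))‖ := norm_add_le _ _
    _ ≤ ε / 2 * (Fintype.card K : ℝ) ^ n + ε / 2 * (Fintype.card K : ℝ) ^ n := by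
        refine add_le_add hmain (le_trans ?_ htail)
        exact (norm_sum_le _ _).trans (Finset.sum_le_sum fun a _ => hpt a)
    _ = ε * (Fintype.card K : ℝ) ^ n := by ring

end Pool.Agent.H140.MH
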