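import Mathlib
import Pool.Agent.H140.MH.All
import Pool.Agent.H140.MH.Mobh2

/-!
# The Möbius function at polynomials with arbitrary inseparable factors (helper116, helper140)
-/

set_option autoImplicit false

namespace Pool.Agent.H140.MH

theorem s_mobh2 : S_mobh2 := mobh2 s_fin dec

end Pool.Agent.H140.MH
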