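import Pool.Agent.H140.MH.Cls

/-!
# MH-CLS with bounds for the degrees (helper909, helper140)
-/

set_option autoImplicit false

namespace Pool.Agent.H140.MH

open Polynomial
open scoped Classical

/-- Residue classes, with bounds for the degrees. -/
def S_cls2 : Prop :=
  ∀ (K : Type) [Field K] (U V u v : K[X][X]) (r a₀ : K[X]) (m : ℕ), r.Monic → V ≠ 0 →
    u * U + v * V = C r → (∀ P : K[X], Irreducible P → P ∣ r → ¬ P ^ m ∣ V.eval a₀) →
    ∃ (D F r₂ : K[X]) (U₂ V₂ u₂ v₂ : K[X][X]), D ≠ 0 ∧ F ≠ 0 ∧ r₂ ≠ 0 ∧ V₂ ≠ 0 ∧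
      U.comp (C (r ^ (m + 1)) * X + C a₀) = C D * U₂ ∧
      V.comp (C (r ^ (m + 1)) * X + C a₀) = C (D * F) * V₂ ∧
      u₂ * U₂ + v₂ * V₂ = C r₂ ∧ (∀ a, IsCoprime (V₂.eval a) (r₂ * F)) ∧
      (∀ a, IsCoprime (U₂.eval a) F) ∧ U₂.natDegree + V₂.natDegree + u₂.natDegree ≤
        U.natDegree + V.natDegree + u.natDegree

theorem comp_le {K : Type} [Field K] (p : K[X][X]) (R a : K[X]) :
    (p.comp (C R * X + C a)).natDegree ≤ p.natDegree := by
  refine natDegree_comp_le.trans ?_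
  have : (C R * X + C a : K[X][X]).natDegree ≤ 1 := natDegree_linear_le
  calc p.natDegree * (C R * X + C a : K[X][X]).natDegree ≤ p.natDegree * 1 :=
        Nat.mul_le_mul_left _ this
    _ = p.natDegree := mul_one _

open ClsAux in
theorem cls2 : S_cls2 := by
  intro K _ U V u v r a₀ m hr hV huv hP
  have hr0 : r ≠ 0 := hr.ne_zero
  obtain ⟨F0, x, s, hF0, hA, hrm, hxs⟩ := exists_gcd (V.eval a₀) (r ^ m) (pow_ne_zero _ hr0)
  -- x is coprime to r
  have hxr : IsCoprime x r := by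
    by_contra hcop
    have hex : ∃ P : K[X], Irreducible P ∧ P ∣ r ∧ P ∣ x := by
      obtain ⟨d, r', x', hd0, hdr, hdx, hcc⟩ : ∃ d x₁ y₁ : K[X], d ≠ 0 ∧ x = d * x₁ ∧ r = d * y₁ ∧ IsCoprime x₁ y₁ :=
        exists_gcd x r hr0
      have hnu : ¬ IsUnit d := by
        intro hu
        apply hcop
        rw [hdr, hdx]
        exact (isCoprime_mul_unit_left hu r' x').mpr hcc
      obtain ⟨P, hPi, hPd⟩ := WfDvdMonoid.exists_irreducible_factor hnu hd0
      refine ⟨P, hPi, ?_, ?_⟩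
      · rw [hdx]; exact hPd.mul_right _
      · rw [hdr]; exact hPd.mul_right _
    obtain ⟨P, hPi, hPr, hPx⟩ := hex
    apply hP P hPi hPr
    have hPs : ¬ P ∣ s := by
      intro hPs
      obtain ⟨α, β, hαβ⟩ := hxs
      apply hPi.not_isUnit
      apply isUnit_of_dvd_one
      rw [← hαβ]
      exact dvd_add (hPx.mul_left _) (hPs.mul_left _)
    have hcPs : IsCoprime (P ^ m) s := by
      apply IsCoprime.pow_left
      exact (Irreducible.coprime_iff_not_dvd hPi).mpr hPs
    have h1 : P ^ m ∣ F0 * s := by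
      rw [← hrm]
      exact pow_dvd_pow_of_dvd hPr m
    rw [hA]
    exact (hcPs.dvd_of_dvd_mul_right h1).mul_right x
  obtain ⟨D, y, F, hD, hB, hF0D, hyF⟩ := exists_gcd (U.eval a₀) F0 hF0
  have hF : F ≠ 0 := by
    intro h
    apply hF0
    rw [hF0D, h, mul_zero]
  -- D divides r
  have hDr : D ∣ r := by
    have h1 : u.eval a₀ * U.eval a₀ + v.eval a₀ * V.eval a₀ = r := by
      have h2 := congrArg (fun p => Polynomial.eval a₀ p) huv
      simp only [eval_add, eval_mul, eval_C] at h2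
      exact h2
    rw [← h1, hA, hB, hF0D]
    refine dvd_add ?_ ?_
    · exact (Dvd.intro _ rfl : D ∣ D * y).mul_left _
    · refine Dvd.dvd.mul_left ?_ _
      rw [mul_assoc]
      exact Dvd.intro _ rfl
  obtain ⟨r₂, hr₂⟩ := hDr
  have hr₂0 : r₂ ≠ 0 := by
    intro h
    apply hr0
    rw [hr₂, h, mul_zero]
  have hR : r ^ (m + 1) = D * (F * s * r) := by
    rw [pow_succ, hrm, hF0D]; ring
  obtain ⟨QU, hQU⟩ := comp_eq U (r ^ (m + 1)) a₀
  obtain ⟨QV, hQV⟩ := comp_eq V (r ^ (m + 1)) a₀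
  have hU2 : U.comp (C (r ^ (m + 1)) * X + C a₀) = C D * (C y + C (F * s * r) * QU) := by
    rw [hQU, hR, hB, C_mul, C_mul]; ring
  have hV2 : V.comp (C (r ^ (m + 1)) * X + C a₀) = C (D * F) * (C x + C (s * r) * QV) := by
    rw [hQV, hR, hA, hF0D]
    simp only [C_mul]
    ring
  have hFr : F ∣ r ^ m := by
    rw [hrm, hF0D]
    exact (Dvd.intro_left _ rfl : F ∣ D * F).mul_right s
  have hxF : IsCoprime x F := (IsCoprime.pow_right hxr).of_isCoprime_of_dvd_right hFr
  have hV2cop : ∀ a, IsCoprime ((C x + C (s * r) * QV).eval a) r := by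
    intro a
    rw [eval_add, eval_mul, eval_C, eval_C]
    have h1 : x + s * r * QV.eval a = x + r * (s * QV.eval a) := by ring
    rw [h1]
    exact IsCoprime.add_mul_left_left hxr _
  refine ⟨D, F, r₂, C y + C (F * s * r) * QU, C x + C (s * r) * QV,
    u.comp (C (r ^ (m + 1)) * X + C a₀), C F * v.comp (C (r ^ (m + 1)) * X + C a₀), hD, hF, hr₂0, ?_, hU2, hV2, ?_, ?_, ?_, ?_⟩
  · intro h
    rw [h, mul_zero] at hV2
    rw [comp_eq_zero_iff] at hV2
    rcases hV2 with h1 | ⟨-, h1⟩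
    · exact hV h1
    · have h2 := congrArg (fun p => Polynomial.coeff p 1) h1
      simp only [coeff_add, coeff_C_mul, coeff_X_one, mul_one, coeff_C_succ, add_zero] at h2
      exact pow_ne_zero _ hr0 h2
  · have hCD : (C D : K[X][X]) ≠ 0 := by
      rw [Ne, C_eq_zero]; exact hD
    refine mul_left_cancel₀ hCD ?_
    have h1 := congrArg (fun p => Polynomial.comp p (C (r ^ (m + 1)) * X + C a₀)) huv
    simp only [add_comp, mul_comp, C_comp] at h1
    rw [hU2, hV2] at h1
    rw [← C_mul, ← hr₂, ← h1]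
    simp only [C_mul]
    ring
  · intro a
    have h1 := hV2cop a
    refine IsCoprime.mul_right ?_ ?_
    · exact h1.of_isCoprime_of_dvd_right (by rw [hr₂]; exact Dvd.intro_left _ rfl)
    · exact (IsCoprime.pow_right h1 (n := m)).of_isCoprime_of_dvd_right hFr
  · intro a
    rw [eval_add, eval_mul, eval_C, eval_C]
    have h1 : y + F * s * r * QU.eval a = y + F * (s * r * QU.eval a) := by ring
    rw [h1]
    exact IsCoprime.add_mul_left_left hyF _
  · have i1 : (C y + C (F * s * r) * QU).natDegree ≤ U.natDegree := by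
      rw [← natDegree_C_mul hD, ← hU2]
      exact comp_le _ _ _
    have i2 : (C x + C (s * r) * QV).natDegree ≤ V.natDegree := by
      rw [← natDegree_C_mul (mul_ne_zero hD hF), ← hV2]
      exact comp_le _ _ _
    have i3 := comp_le u (r ^ (m + 1)) a₀
    omega

end Pool.Agent.H140.MH
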