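import Mathlib
import Pool.Agent.H140.MX.Stm

/-!
# Roots of odd multiplicity
-/

set_option autoImplicit false

namespace Pool.Agent.H140.MH.Roots

open Polynomial
open Pool.Agent.H140.MX (SqR)

section field

variable {L : Type} [Field L] [CharP L 2]

/-- Every polynomial is the product of a separable polynomial and a polynomial in `T ^ 2`. -/
theorem factor (F : L[X]) (hF : F ≠ 0) :
    ∃ f h : L[X], F = f * h ∧ f.Separable ∧ derivative h = 0 := by
  have h2 : (C (2 : L) : L[X]) = 0 := by
    have : ((2 : ℕ) : L) = 0 := CharP.cast_eq_zero _ _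
    have h3 : (2 : L) = 0 := by exact_mod_cast this
    rw [h3, C_0]
  induction F using WfDvdMonoid.induction_on_irreducible with
  | zero => exact absurd rfl hF
  | unit u hu =>
    refine ⟨1, u, by rw [one_mul], separable_one, ?_⟩
    obtain ⟨c, -, rfl⟩ := Polynomial.isUnit_iff.1 hu
    exact derivative_C
  | mul a p ha hp ih =>
    obtain ⟨f, h, hfh, hf, hh⟩ := ih ha
    by_cases hsep : p.Separable
    · by_cases hpf : p ∣ f
      · obtain ⟨g, rfl⟩ := hpf
        refine ⟨g, p ^ 2 * h, by rw [hfh]; ring, hf.of_mul_right, ?_⟩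
        rw [derivative_mul, derivative_pow, hh]
        push_cast
        linear_combination (p * derivative p * h) * h2
      · refine ⟨p * f, h, by rw [hfh]; ring, hsep.mul hf ?_, hh⟩
        exact (hp.coprime_iff_not_dvd).2 hpf
    · have h1 : derivative p = 0 := by
        by_contra hne
        exact hsep ((separable_iff_derivative_ne_zero hp).2 hne)
      refine ⟨f, p * h, by rw [hfh]; ring, hf, ?_⟩
      rw [derivative_mul, h1, hh]
      ring

/-- Multiplicities of the roots of a polynomial in `T ^ 2`. -/
theorem even_mult {A : Type} [Field A] [IsAlgClosed A] [CharP A 2] (h : A[X])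
    (hh : derivative h = 0) (θ : A) : Even (rootMultiplicity θ h) := by
  classical
  have h1 : expand A 2 (contract 2 h) = h := expand_contract 2 hh two_ne_zero
  rw [← count_roots, ← h1, roots_expand, Multiset.count_nsmul]
  exact even_two_mul _

end field

section rat

variable {K : Type} [Field K] [CharP K 2]

/-- the multiplicities of the roots of a product of a separable polynomial and a polynomial
in `T ^ 2` -/
theorem odd_iff (F : K[X][X]) (f h : (RatFunc K)[X]) (hF : F ≠ 0)
    (hfh : F.map (algebraMap K[X] (RatFunc K)) = f * h) (hh : derivative h = 0)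
    (θ : AlgebraicClosure (RatFunc K)) :
    Odd (rootMultiplicity θ (F.map (algebraMap K[X] (AlgebraicClosure (RatFunc K))))) ↔
      Odd (rootMultiplicity θ (f.map (algebraMap (RatFunc K) (AlgebraicClosure (RatFunc K))))) := by
  have : CharP (AlgebraicClosure (RatFunc K)) 2 :=
    charP_of_injective_algebraMap (algebraMap K (AlgebraicClosure (RatFunc K))).injective 2
  set j := algebraMap (RatFunc K) (AlgebraicClosure (RatFunc K)) with hj
  have h1 : F.map (algebraMap K[X] (AlgebraicClosure (RatFunc K))) = f.map j * h.map j := by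
    rw [← Polynomial.map_mul, ← hfh, Polynomial.map_map, hj,
      ← IsScalarTower.algebraMap_eq K[X] (RatFunc K) (AlgebraicClosure (RatFunc K))]
  have h2 : F.map (algebraMap K[X] (AlgebraicClosure (RatFunc K))) ≠ 0 := by
    rw [Polynomial.map_ne_zero_iff]
    · exact hF
    · rw [IsScalarTower.algebraMap_eq K[X] (RatFunc K) (AlgebraicClosure (RatFunc K))]
      exact (algebraMap (RatFunc K) (AlgebraicClosure (RatFunc K))).injective.comp
        (IsFractionRing.injective K[X] (RatFunc K))
  have h3 : Even (rootMultiplicity θ (h.map j)) := by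
    refine even_mult _ ?_ θ
    rw [derivative_map, hh, Polynomial.map_zero]
  rw [h1] at h2 ⊢
  rw [rootMultiplicity_mul h2, Nat.odd_add]
  exact ⟨fun h => h.2 h3, fun h => ⟨fun _ => h3, fun _ => h⟩⟩

/-- a root of odd multiplicity is separable -/
theorem sep_of_odd (F : K[X][X]) (hF : F ≠ 0) (θ : AlgebraicClosure (RatFunc K))
    (hodd : Odd (rootMultiplicity θ
      (F.map (algebraMap K[X] (AlgebraicClosure (RatFunc K)))))) :
    IsSeparable (RatFunc K) θ := by
  have hF' : F.map (algebraMap K[X] (RatFunc K)) ≠ 0 := by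
    rwa [Polynomial.map_ne_zero_iff (IsFractionRing.injective K[X] (RatFunc K))]
  have : CharP (RatFunc K) 2 :=
    charP_of_injective_algebraMap (algebraMap K (RatFunc K)).injective 2
  obtain ⟨f, h, hfh, hf, hh⟩ := factor _ hF'
  rw [odd_iff F f h hF hfh hh] at hodd
  have hpos : 0 < rootMultiplicity θ
      (f.map (algebraMap (RatFunc K) (AlgebraicClosure (RatFunc K)))) := hodd.pos
  have hroot : aeval θ f = 0 := by
    have := (rootMultiplicity_pos'.1 hpos).2
    rwa [IsRoot.def, eval_map_algebraMap] at this
  exact hf.of_dvd (minpoly.dvd _ _ hroot)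

/-- Decomposition of `F` up to a square. -/
theorem split (F : K[X][X]) (hF : derivative F ≠ 0) :
    ∃ (c : K[X]) (f h : K[X][X]), c ≠ 0 ∧ C (c ^ 2) * F = f * h ∧ 0 < f.natDegree ∧
      (f.map (algebraMap K[X] (RatFunc K))).Separable ∧ h ≠ 0 ∧ derivative h = 0 ∧
      ∀ θ : AlgebraicClosure (RatFunc K), aeval θ f = 0 → Odd (rootMultiplicity θ
        (F.map (algebraMap K[X] (AlgebraicClosure (RatFunc K))))) := by
  have hF0 : F ≠ 0 := by
    rintro rfl
    exact hF derivative_zero
  have hinj : Function.Injective (algebraMap K[X] (RatFunc K)) :=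
    IsFractionRing.injective K[X] (RatFunc K)
  have hF' : F.map (algebraMap K[X] (RatFunc K)) ≠ 0 := by
    rwa [Polynomial.map_ne_zero_iff hinj]
  have : CharP (RatFunc K) 2 :=
    charP_of_injective_algebraMap (algebraMap K (RatFunc K)).injective 2
  have : CharP (AlgebraicClosure (RatFunc K)) 2 :=
    charP_of_injective_algebraMap (algebraMap K (AlgebraicClosure (RatFunc K))).injective 2
  obtain ⟨f₁, h₁, hfh, hf, hh⟩ := factor _ hF'
  obtain ⟨x, hx, hxa⟩ := IsLocalization.integerNormalization_spec (nonZeroDivisors K[X]) f₁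
  obtain ⟨y, hy, hyb⟩ := IsLocalization.integerNormalization_spec (nonZeroDivisors K[X]) h₁
  set A := IsLocalization.integerNormalization (nonZeroDivisors K[X]) f₁
  set B := IsLocalization.integerNormalization (nonZeroDivisors K[X]) h₁
  have hx0 : x ≠ 0 := nonZeroDivisors.ne_zero hx
  have hy0 : y ≠ 0 := nonZeroDivisors.ne_zero hy
  have e1 : ∀ r : K[X], algebraMap K[X] (RatFunc K)[X] r =
      C (algebraMap K[X] (RatFunc K) r) := fun r => by
    rw [IsScalarTower.algebraMap_apply K[X] (RatFunc K) (RatFunc K)[X],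
      Polynomial.algebraMap_eq]
  have hA : A.map (algebraMap K[X] (RatFunc K)) = C (algebraMap K[X] (RatFunc K) x) * f₁ := by
    rw [hxa, Algebra.smul_def, e1]
  have hB : B.map (algebraMap K[X] (RatFunc K)) = C (algebraMap K[X] (RatFunc K) y) * h₁ := by
    rw [hyb, Algebra.smul_def, e1]
  have hprod : C ((x * y) ^ 2) * F = A * (C (x * y) * B) := by
    apply map_injective (algebraMap K[X] (RatFunc K)) hinj
    rw [Polynomial.map_mul, Polynomial.map_mul, Polynomial.map_mul, hA, hB, hfh, map_C, map_C,
      map_pow, map_mul, C_pow, C_mul]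
    ring
  have hdB : derivative B = 0 := by
    apply map_injective (algebraMap K[X] (RatFunc K)) hinj
    rw [← derivative_map, hB, derivative_C_mul, hh, mul_zero, Polynomial.map_zero]
  have hdB' : derivative (C (x * y) * B) = 0 := by
    rw [derivative_C_mul, hdB, mul_zero]
  have hne : C ((x * y) ^ 2) * F ≠ 0 :=
    mul_ne_zero (C_ne_zero.2 (pow_ne_zero 2 (mul_ne_zero hx0 hy0))) hF0
  have hf₁0 : f₁ ≠ 0 := by
    rintro rfl
    rw [zero_mul] at hfh
    exact hF' hfh
  refine ⟨x * y, A, C (x * y) * B, mul_ne_zero hx0 hy0, hprod, ?_, ?_, ?_, hdB', ?_⟩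
  · rw [Nat.pos_iff_ne_zero]
    intro h0
    obtain ⟨c, hc⟩ := natDegree_eq_zero.1 h0
    have h3 : derivative (C ((x * y) ^ 2) * F) = 0 := by
      rw [hprod, derivative_mul, hdB', ← hc, derivative_C]
      ring
    rw [derivative_C_mul] at h3
    rcases mul_eq_zero.1 h3 with h4 | h4
    · exact pow_ne_zero 2 (mul_ne_zero hx0 hy0) (C_eq_zero.1 h4)
    · exact hF h4
  · rw [hA]
    refine Separable.unit_mul ?_ hf
    rw [isUnit_C, isUnit_iff_ne_zero]
    exact fun h => hx0 (hinj (by rw [h, map_zero]))
  · intro h0
    rw [hprod, h0, mul_zero] at hne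
    exact hne rfl
  · intro θ hθ
    rw [odd_iff F f₁ h₁ hF0 hfh hh]
    have h5 : aeval θ f₁ = 0 := by
      have h6 : aeval θ (A.map (algebraMap K[X] (RatFunc K))) = 0 := by
        rw [aeval_map_algebraMap]
        exact hθ
      rw [hA, map_mul, aeval_C] at h6
      rcases mul_eq_zero.1 h6 with h7 | h7
      · exfalso
        have := (algebraMap (RatFunc K) (AlgebraicClosure (RatFunc K))).injective
          (h7.trans (map_zero _).symm)
        exact hx0 (hinj (by rw [this, map_zero]))
      · exact h7
    have h8 : 0 < rootMultiplicity θ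
        (f₁.map (algebraMap (RatFunc K) (AlgebraicClosure (RatFunc K)))) := by
      rw [rootMultiplicity_pos', IsRoot.def, eval_map_algebraMap]
      exact ⟨(Polynomial.map_ne_zero_iff (RingHom.injective _)).2 hf₁0, h5⟩
    have h9 : rootMultiplicity θ
        (f₁.map (algebraMap (RatFunc K) (AlgebraicClosure (RatFunc K)))) ≤ 1 :=
      rootMultiplicity_le_one_of_separable hf.map θ
    have h10 : rootMultiplicity θ
        (f₁.map (algebraMap (RatFunc K) (AlgebraicClosure (RatFunc K)))) = 1 := by omega
    rw [h10]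
    exact odd_one

end rat

end Pool.Agent.H140.MH.Roots
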