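import Mathlib
import Pool.Agent.H140.MH.Roots
import Pool.Agent.H140.MH.Dec

/-!
# Polynomials with the square root property
-/

set_option autoImplicit false

namespace Pool.Agent.H140.MH.Roots

open Polynomial

/-- The square root property for the roots of odd multiplicity. -/
def SqO {K : Type} [Field K] (F : K[X][X]) (μ : K[X]) : Prop :=
  ∀ θ : AlgebraicClosure (RatFunc K),
    Odd (rootMultiplicity θ (F.map (algebraMap K[X] (AlgebraicClosure (RatFunc K))))) →
    ∃ (s : RatFunc K) (σ : AlgebraicClosure (RatFunc K)), IsSeparable (RatFunc K) σ ∧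
      σ ^ 2 = algebraMap K[X] (AlgebraicClosure (RatFunc K)) μ * θ +
        algebraMap (RatFunc K) (AlgebraicClosure (RatFunc K)) s

variable {K : Type} [Field K] [CharP K 2]

omit [CharP K 2] in
theorem inj1 : Function.Injective (algebraMap K[X] (AlgebraicClosure (RatFunc K))) := by
  rw [IsScalarTower.algebraMap_eq K[X] (RatFunc K) (AlgebraicClosure (RatFunc K))]
  exact (algebraMap (RatFunc K) (AlgebraicClosure (RatFunc K))).injective.comp
    (IsFractionRing.injective K[X] (RatFunc K))

/-- odd multiplicity in `h * G` -/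
theorem odd_mul (h G : K[X][X]) (hne : h * G ≠ 0) (hh : derivative h = 0)
    (θ : AlgebraicClosure (RatFunc K))
    (hodd : Odd (rootMultiplicity θ
      ((h * G).map (algebraMap K[X] (AlgebraicClosure (RatFunc K)))))) :
    Odd (rootMultiplicity θ (G.map (algebraMap K[X] (AlgebraicClosure (RatFunc K))))) := by
  have : CharP (AlgebraicClosure (RatFunc K)) 2 :=
    charP_of_injective_algebraMap (algebraMap K (AlgebraicClosure (RatFunc K))).injective 2
  set i := algebraMap K[X] (AlgebraicClosure (RatFunc K)) with hi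
  have h2 : (h * G).map i ≠ 0 := by
    rwa [Polynomial.map_ne_zero_iff inj1]
  have h3 : Even (rootMultiplicity θ (h.map i)) := by
    refine even_mult _ ?_ θ
    rw [derivative_map, hh, Polynomial.map_zero]
  rw [Polynomial.map_mul] at h2 hodd
  rw [rootMultiplicity_mul h2, Nat.odd_add'] at hodd
  exact hodd.2 h3

/-- **The first family.** -/
theorem fam (α β γ : K[X]) (S R h : K[X][X]) (hα : α ≠ 0) (hβ : β ≠ 0) (hR : R ≠ 0) (hh0 : h ≠ 0)
    (hh : derivative h = 0) :
    derivative (h * (C α * S ^ 2 + (C β * X + C γ) * R ^ 2)) ≠ 0 ∧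
      SqO (h * (C α * S ^ 2 + (C β * X + C γ) * R ^ 2)) (α * β) := by
  classical
  have hc : (2 : AlgebraicClosure (RatFunc K)) = 0 := by
    have : ((2 : K) : K) = 0 := CharTwo.two_eq_zero
    have h2 := congrArg (algebraMap K (AlgebraicClosure (RatFunc K))) this
    rwa [map_ofNat, map_zero] at h2
  have h2 : (C (2 : K[X]) : K[X][X]) = 0 := by
    have h3 : (2 : K[X]) = 0 := CharTwo.two_eq_zero
    rw [h3, C_0]
  have hinj : Function.Injective (algebraMap K[X] (RatFunc K)) :=
    IsFractionRing.injective K[X] (RatFunc K)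
  have hder : derivative (h * (C α * S ^ 2 + (C β * X + C γ) * R ^ 2)) = h * (C β * R ^ 2) := by
    rw [derivative_mul, hh, derivative_add, derivative_C_mul, derivative_mul, derivative_pow,
      derivative_pow, derivative_add, derivative_C_mul, derivative_X, derivative_C]
    push_cast
    linear_combination (h * (C α * S * derivative S) +
      h * ((C β * X + C γ) * R * derivative R)) * h2
  have hdne : derivative (h * (C α * S ^ 2 + (C β * X + C γ) * R ^ 2)) ≠ 0 := by
    rw [hder]
    exact mul_ne_zero hh0 (mul_ne_zero (C_ne_zero.2 hβ) (pow_ne_zero 2 hR))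
  refine ⟨hdne, ?_⟩
  have hne : h * (C α * S ^ 2 + (C β * X + C γ) * R ^ 2) ≠ 0 := by
    intro h0
    rw [h0, derivative_zero] at hdne
    exact hdne rfl
  intro θ hodd
  have hsep := sep_of_odd _ hne θ hodd
  have hodd1 := odd_mul h _ hne hh θ hodd
  -- the greatest common divisor
  set S' := S.map (algebraMap K[X] (RatFunc K)) with hS'
  set R' := R.map (algebraMap K[X] (RatFunc K)) with hR'
  have hR'0 : R' ≠ 0 := by rwa [hR', Polynomial.map_ne_zero_iff hinj]
  set g := EuclideanDomain.gcd S' R' with hg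
  have hg0 : g ≠ 0 := by
    intro h0
    exact hR'0 (EuclideanDomain.gcd_eq_zero_iff.1 h0).2
  obtain ⟨s₁, hs₁⟩ : g ∣ S' := EuclideanDomain.gcd_dvd_left _ _
  obtain ⟨r₁, hr₁⟩ : g ∣ R' := EuclideanDomain.gcd_dvd_right _ _
  have hcop : ∃ a b : (RatFunc K)[X], a * s₁ + b * r₁ = 1 := by
    refine ⟨EuclideanDomain.gcdA S' R', EuclideanDomain.gcdB S' R', ?_⟩
    have h3 := EuclideanDomain.gcd_eq_gcd_ab S' R'
    rw [← hg] at h3
    apply mul_left_cancel₀ hg0
    rw [mul_one]
    calc g * (EuclideanDomain.gcdA S' R' * s₁ + EuclideanDomain.gcdB S' R' * r₁)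
        = (g * s₁) * EuclideanDomain.gcdA S' R' + (g * r₁) * EuclideanDomain.gcdB S' R' := by ring
      _ = S' * EuclideanDomain.gcdA S' R' + R' * EuclideanDomain.gcdB S' R' := by
          rw [← hs₁, ← hr₁]
      _ = g := h3.symm
  obtain ⟨a, b, hab⟩ := hcop
  set j := algebraMap (RatFunc K) (AlgebraicClosure (RatFunc K)) with hj
  set i := algebraMap K[X] (AlgebraicClosure (RatFunc K)) with hi
  have hij : ∀ f : K[X], i f = j (algebraMap K[X] (RatFunc K) f) :=
    fun f => IsScalarTower.algebraMap_apply K[X] (RatFunc K) (AlgebraicClosure (RatFunc K)) f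
  have hcomp : i = j.comp (algebraMap K[X] (RatFunc K)) := RingHom.ext hij
  set G₁ : (AlgebraicClosure (RatFunc K))[X] :=
    C (i α) * (s₁.map j) ^ 2 + (C (i β) * X + C (i γ)) * (r₁.map j) ^ 2 with hG₁
  have hG : (C α * S ^ 2 + (C β * X + C γ) * R ^ 2).map i = (g.map j) ^ 2 * G₁ := by
    have e1 : S.map i = g.map j * s₁.map j := by
      rw [← Polynomial.map_mul, ← hs₁, hS', Polynomial.map_map, hcomp]
    have e2 : R.map i = g.map j * r₁.map j := by
      rw [← Polynomial.map_mul, ← hr₁, hR', Polynomial.map_map, hcomp]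
    rw [Polynomial.map_add, Polynomial.map_mul, Polynomial.map_mul, Polynomial.map_pow,
      Polynomial.map_pow, Polynomial.map_add, Polynomial.map_mul, map_C, map_C, map_C, map_X, e1,
      e2, hG₁]
    ring
  have hGne : (g.map j) ^ 2 * G₁ ≠ 0 := by
    rw [← hG, Polynomial.map_ne_zero_iff inj1]
    exact right_ne_zero_of_mul hne
  have hroot : G₁.eval θ = 0 := by
    rw [hG, rootMultiplicity_mul hGne] at hodd1
    have e3 : rootMultiplicity θ ((g.map j) ^ 2) = rootMultiplicity θ (g.map j) +
        rootMultiplicity θ (g.map j) := by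
      rw [pow_two, rootMultiplicity_mul]
      rw [← pow_two]
      exact left_ne_zero_of_mul hGne
    rw [e3] at hodd1
    have hpos : 0 < rootMultiplicity θ G₁ := by
      rcases Nat.eq_zero_or_pos (rootMultiplicity θ G₁) with h0 | h0
      · exfalso
        rw [h0, add_zero] at hodd1
        exact (Nat.not_odd_iff_even.2 ⟨_, rfl⟩) hodd1
      · exact h0
    exact (rootMultiplicity_pos'.1 hpos).2
  rw [hG₁, eval_add, eval_mul, eval_mul, eval_pow, eval_pow, eval_add, eval_mul, eval_C, eval_C,
    eval_C, eval_X, eval_map_algebraMap, eval_map_algebraMap] at hroot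
  have hiα : i α ≠ 0 := fun h => hα (inj1 (by rw [← hi, h, map_zero]))
  have hr : aeval θ r₁ ≠ 0 := by
    intro h0
    rw [h0] at hroot
    have e4 : aeval θ s₁ = 0 := by
      have : i α * (aeval θ s₁) ^ 2 = 0 := by linear_combination hroot
      rcases mul_eq_zero.1 this with h5 | h5
      · exact absurd h5 hiα
      · exact pow_eq_zero_iff two_ne_zero |>.1 h5
    have e5 := congrArg (aeval θ) hab
    rw [map_add, map_mul, map_mul, h0, e4, map_one, mul_zero, mul_zero, add_zero] at e5
    exact zero_ne_one e5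
  refine ⟨algebraMap K[X] (RatFunc K) (α * γ), i α * aeval θ s₁ / aeval θ r₁, ?_, ?_⟩
  · have hmem : θ ∈ separableClosure (RatFunc K) (AlgebraicClosure (RatFunc K)) := hsep
    have hae : ∀ p : (RatFunc K)[X],
        aeval θ p ∈ separableClosure (RatFunc K) (AlgebraicClosure (RatFunc K)) := by
      intro p
      have := (aeval (⟨θ, hmem⟩ : separableClosure (RatFunc K)
        (AlgebraicClosure (RatFunc K))) p).2
      rwa [← IntermediateField.aeval_coe] at this
    have hα' : i α ∈ separableClosure (RatFunc K) (AlgebraicClosure (RatFunc K)) := by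
      rw [hij]
      exact algebraMap_mem _ _
    exact div_mem (mul_mem hα' (hae _)) (hae _)
  · rw [← hij, map_mul, map_mul, div_pow, div_eq_iff (pow_ne_zero 2 hr)]
    linear_combination (i α) * hroot - i α * (i β * θ + i γ) * (aeval θ r₁) ^ 2 * hc

/-- **The second family.** -/
theorem lin (k : ℕ) (α β : Fin k → K[X]) (h : K[X][X]) (hh : derivative h = 0)
    (hd : derivative (h * ∏ l, (C (α l) * X + C (β l))) ≠ 0) :
    SqO (h * ∏ l, (C (α l) * X + C (β l))) 1 := by
  have hne : h * ∏ l, (C (α l) * X + C (β l)) ≠ 0 := by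
    intro h0
    rw [h0, derivative_zero] at hd
    exact hd rfl
  intro θ hodd
  have hodd1 := odd_mul h _ hne hh θ hodd
  have hroot := (rootMultiplicity_pos'.1 hodd1.pos).2
  rw [IsRoot.def, eval_map_algebraMap, map_prod] at hroot
  obtain ⟨l, -, hl⟩ := Finset.prod_eq_zero_iff.1 hroot
  have hlne : C (α l) * X + C (β l) ≠ 0 := by
    have := right_ne_zero_of_mul hne
    exact Finset.prod_ne_zero_iff.1 this l (Finset.mem_univ _)
  rw [map_add, map_mul, aeval_X, aeval_C, aeval_C] at hl
  have hαl : α l ≠ 0 := by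
    intro h0
    rw [h0, map_zero, zero_mul, zero_add] at hl
    have h1 : β l = 0 := inj1 (by rw [hl, map_zero])
    rw [h0, h1] at hlne
    simp at hlne
  have hA : algebraMap K[X] (AlgebraicClosure (RatFunc K)) (α l) ≠ 0 :=
    fun h => hαl (inj1 (by rw [h, map_zero]))
  have hm : ∀ f : K[X], algebraMap K[X] (AlgebraicClosure (RatFunc K)) f =
      algebraMap (RatFunc K) (AlgebraicClosure (RatFunc K)) (algebraMap K[X] (RatFunc K) f) :=
    fun f => IsScalarTower.algebraMap_apply K[X] (RatFunc K) (AlgebraicClosure (RatFunc K)) f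
  refine ⟨algebraMap K[X] (RatFunc K) (β l) / algebraMap K[X] (RatFunc K) (α l), 0, ?_, ?_⟩
  · have := isSeparable_algebraMap (F := RatFunc K) (K := AlgebraicClosure (RatFunc K)) 0
    rwa [map_zero] at this
  · rw [map_div₀, ← hm, ← hm, map_one, one_mul]
    field_simp
    linear_combination -hl

omit [CharP K 2] in
/-- multiplication by a constant -/
theorem sqO_C_mul (c : K[X]) (hc : c ≠ 0) (F : K[X][X]) (μ : K[X]) :
    SqO (C c * F) μ ↔ SqO F μ := by
  have h1 : ∀ θ : AlgebraicClosure (RatFunc K), rootMultiplicity θ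
      ((C c * F).map (algebraMap K[X] (AlgebraicClosure (RatFunc K)))) =
      rootMultiplicity θ (F.map (algebraMap K[X] (AlgebraicClosure (RatFunc K)))) := by
    intro θ
    by_cases hF : F = 0
    · rw [hF, mul_zero]
    · rw [Polynomial.map_mul, rootMultiplicity_mul, map_C, rootMultiplicity_C, zero_add]
      rw [← Polynomial.map_mul, Polynomial.map_ne_zero_iff inj1]
      exact mul_ne_zero (C_ne_zero.2 hc) hF
  unfold SqO
  refine forall_congr' fun θ => ?_
  rw [h1 θ]

/-- the polynomials with constant coefficients -/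
theorem const_form [Fintype K] (f : K[X]) (hf : ¬ IsSquare f) :
    ∃ S R : K[X][X], R ≠ 0 ∧ f.map C = C 1 * S ^ 2 + (C 1 * X + C 0) * R ^ 2 := by
  obtain ⟨x, y, hxy⟩ := DecL.dec1 f
  refine ⟨x.map C, y.map C, ?_, ?_⟩
  · rw [Polynomial.map_ne_zero_iff C_injective]
    rintro rfl
    exact hf ⟨x, by rw [hxy]; ring⟩
  · rw [hxy, C_1, C_0, Polynomial.map_add, Polynomial.map_mul, Polynomial.map_pow,
      Polynomial.map_pow, map_X]
    ring

/-- the cubic polynomials `α T³ + β T² + γ T + δ` with `α γ` a square -/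
theorem cub_form (α β γ δ : K[X]) (hα : α ≠ 0) (hsq : IsSquare (α * γ)) :
    ∃ (a b c : K[X]) (S R : K[X][X]), a ≠ 0 ∧ b ≠ 0 ∧ R ≠ 0 ∧
      C (α ^ 2) * (C α * X ^ 3 + C β * X ^ 2 + C γ * X + C δ) =
        C a * S ^ 2 + (C b * X + C c) * R ^ 2 := by
  have h2 : (2 : K[X][X]) = 0 := by
    have h3 : (2 : K[X]) = 0 := CharTwo.two_eq_zero
    have := congrArg (C : K[X] →+* K[X][X]) h3
    rwa [map_ofNat, map_zero] at this
  obtain ⟨e, he⟩ := hsq
  have hR : C α * X + C e ≠ (0 : K[X][X]) := by
    intro h0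
    have := congrArg (fun p : K[X][X] => p.coeff 1) h0
    simp at this
    exact hα this
  have he' : (C α * C γ : K[X][X]) = C e * C e := by rw [← C_mul, he, C_mul]
  by_cases hκ : α * δ + β * γ = 0
  · refine ⟨1, α, β, 0, C α * X + C e, one_ne_zero, hα, hR, ?_⟩
    have hκ' : (C α * C δ + C β * C γ : K[X][X]) = 0 := by
      rw [← C_mul, ← C_mul, ← C_add, hκ, C_0]
    rw [C_pow]
    linear_combination (C α * X + C β) * he' + C α * hκ' -
      (C α * C β * C γ + (C α * X + C β) * (C α * C e * X)) * h2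
  · refine ⟨α * (α * δ + β * γ), α, β, 1, C α * X + C e, mul_ne_zero hα hκ, hα, hR, ?_⟩
    rw [C_pow, C_mul, C_add, C_mul, C_mul]
    linear_combination (C α * X + C β) * he' -
      (C α * C β * C γ + (C α * X + C β) * (C α * C e * X)) * h2

end Pool.Agent.H140.MH.Roots
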