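import Pool.Agent.H140.MH.Flh

/-!
# The Liouville function of a polynomial in `T ^ 2` is a polynomial phase in short windows: all
directions, explicit degree
-/

set_option autoImplicit false
set_option linter.unusedSectionVars false
set_option linter.unusedVariables false

namespace Pool.Agent.H140.MH

open Polynomial
open scoped Classical
open Pool.Agent.H985.Chow (mob lc Kp)
open Pool.Agent.H985.KP (sg)
open Pool.Agent.H694.Typ (Mn mem_Mn)
open Pool.Agent.H140.Q (liou)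
open Pool.Agent.H140.MX (CDeg S_cd)
open Pool.Agent.H604.LD (rf)
open Pool.Agent.H604.LD.DegL (res)

/-- Flatness in all directions, explicit degree. -/
def S_flg2 : Prop :=
  ∀ (K : Type) [Field K] [Fintype K] [CharP K 2] (U V u v : K[X][X]) (r F : K[X]) (d : ℕ),
    r ≠ 0 → F ≠ 0 → V ≠ 0 → u * U + v * V = C r → (∀ a, IsCoprime (V.eval a) (r * F)) →
    (∀ a, IsCoprime (U.eval a) F) → U.natDegree + V.natDegree + u.natDegree ≤ d →
    ∃ N : K[X], N ≠ 0 ∧ ∀ k : ℕ, 10 * d * (10 * d + 1 + 3) + 1 ≤ k → ∀ M : ℕ, ∃ n₀ : ℕ, ∀ n : ℕ, n₀ ≤ n →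
      ∀ a ∈ Mn K n, ∀ t : Fin k → K[X], (∀ j, (t j).natDegree ≤ M) →
        ∏ B : Finset (Fin k), (liou (gg (U.eval (a + N * ∑ j ∈ B, t j))
          (F * V.eval (a + N * ∑ j ∈ B, t j))) : ℝ) = 1

namespace FLH

open Pool.Agent.H140.MX.FLT (cdeg_eval sg_sum pm_pow liou_sqf)
open EvfProof (exists_H natDegree_eval_le)

/-- the case of leading coefficient one -/
theorem coreg2 (par : S_par) (van2 : S_van2) (pair : S_pair) (hevf : S_evf) (hcd : S_cd)
    (K : Type) [Field K] [Fintype K] [CharP K 2] (U V u v : K[X][X]) (r F : K[X]) (d : ℕ)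
    (hr : r ≠ 0) (hF : F ≠ 0) (hV : V ≠ 0) (huv : u * U + v * V = C r)
    (hcV : ∀ a, IsCoprime (V.eval a) (r * F)) (hcU : ∀ a, IsCoprime (U.eval a) F)
    (hl : (U ^ 2 + C X * (C F * V) ^ 2).leadingCoeff.leadingCoeff = 1)
    (hd : U.natDegree + V.natDegree + u.natDegree ≤ d) :
    ∃ N : K[X], N ≠ 0 ∧ ∀ k : ℕ, 10 * d * (10 * d + 1 + 3) + 1 ≤ k → ∀ M : ℕ, ∃ n₀ : ℕ, ∀ n : ℕ, n₀ ≤ n →
      ∀ a ∈ Mn K n, ∀ t : Fin k → K[X], (∀ j, (t j).natDegree ≤ M) →
        ∏ B : Finset (Fin k), (liou (gg (U.eval (a + N * ∑ j ∈ B, t j))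
          (F * V.eval (a + N * ∑ j ∈ B, t j))) : ℝ) = 1 := by
  have h2K : (2 : K[X]) = 0 := two0
  have h2 : (2 : K) = 0 := CharTwo.two_eq_zero
  -- the polynomials
  set Bp : K[X][X] := C F * V with hBp
  have hBp0 : Bp ≠ 0 := mul_ne_zero (C_ne_zero.2 hF) hV
  set gp : K[X][X] := U ^ 2 + C X * Bp ^ 2 with hgp
  have hgp0 : gp ≠ 0 := by
    intro h
    rw [h, leadingCoeff_zero, leadingCoeff_zero] at hl
    exact zero_ne_one hl
  have hge : ∀ z : K[X], gp.eval z = gg (U.eval z) (F * V.eval z) := by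
    intro z
    rw [hgp, hBp]
    unfold gg
    simp only [eval_add, eval_mul, eval_pow, eval_C]
  have hBe : ∀ z : K[X], Bp.eval z = F * V.eval z := by
    intro z
    rw [hBp, eval_mul, eval_C]
  obtain ⟨HU, hHU⟩ := exists_H U
  obtain ⟨HV, hHV⟩ := exists_H V
  obtain ⟨Hu, hHu⟩ := exists_H u
  obtain ⟨H, hH⟩ : ∃ H : ℕ, H = HU + HV + Hu + F.natDegree := ⟨_, rfl⟩
  have hBpd : Bp.natDegree ≤ d := by
    rw [hBp, natDegree_C_mul hF]
    omega
  have hgpd : gp.natDegree ≤ 2 * d := by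
    rw [hgp]
    refine (natDegree_add_le _ _).trans (max_le ?_ ?_)
    · exact natDegree_pow_le.trans (by omega)
    · refine natDegree_mul_le.trans ?_
      have := natDegree_pow_le (p := Bp) (n := 2)
      rw [natDegree_C]
      omega
  have hQ1 : Bp ^ 2 * gp ≠ 0 := mul_ne_zero (pow_ne_zero 2 hBp0) hgp0
  have hQ1d : (Bp ^ 2 * gp).natDegree ≤ 10 * d := by
    refine natDegree_mul_le.trans ?_
    have := natDegree_pow_le (p := Bp) (n := 2)
    omega
  have hQ2 : C (r ^ 4) * Bp ^ 2 ≠ 0 :=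
    mul_ne_zero (C_ne_zero.2 (pow_ne_zero 4 hr)) (pow_ne_zero 2 hBp0)
  have hQ2d : (C (r ^ 4) * Bp ^ 2).natDegree ≤ 10 * d := by
    refine natDegree_mul_le.trans ?_
    have := natDegree_pow_le (p := Bp) (n := 2)
    rw [natDegree_C]
    omega
  refine ⟨(r ^ 2 * F) ^ 2,
    pow_ne_zero 2 (mul_ne_zero (pow_ne_zero 2 hr) hF), fun k hk M => ?_⟩
  have hk0 : 0 < k := by omega
  obtain ⟨M', hM'⟩ : ∃ M' : ℕ, M' = ((r ^ 2 * F) ^ 2).natDegree + M := ⟨_, rfl⟩
  obtain ⟨n₁, hn₁⟩ := van_gen (k := k) van2 hevf hcd _ hQ1 (10 * d) (10 * d) hQ1d (by omega) M'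
    (10 * H + 3)
  obtain ⟨n₂, hn₂⟩ := van_gen (k := k) van2 hevf hcd _ hQ2 (10 * d) (10 * d) hQ2d (by omega) M'
    (10 * H + 3 + 2 * r.natDegree)
  obtain ⟨⟨n₃, hn₃⟩, -⟩ := hevf K gp hgp0
  obtain ⟨⟨n₄, hn₄⟩, -⟩ := hevf K Bp hBp0
  refine ⟨n₁ + n₂ + n₃ + n₄ + M' + 1, fun n hn a ha t ht => ?_⟩
  rw [mem_Mn] at ha
  obtain ⟨ham, han⟩ := ha
  -- the shifts
  obtain ⟨δ, hδ⟩ : ∃ δ : Finset (Fin k) → K[X],
      δ = fun B => (r ^ 2 * F) ^ 2 * ∑ j ∈ B, t j := ⟨_, rfl⟩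
  have hδB : ∀ B, (r ^ 2 * F) ^ 2 * ∑ j ∈ B, t j = δ B := fun B => by rw [hδ]
  have hδ0 : δ ∅ = 0 := by
    rw [← hδB]
    simp
  have hδd : ∀ B, (δ B).natDegree ≤ M' := by
    intro B
    have h3 : (∑ j ∈ B, t j).natDegree ≤ M := by
      exact natDegree_sum_le_of_forall_le _ _ fun j _ => ht j
    rw [← hδB, hM']
    exact natDegree_mul_le.trans (Nat.add_le_add_left h3 _)
  obtain ⟨z, hz⟩ : ∃ z : Finset (Fin k) → K[X], z = fun B => a + δ B := ⟨_, rfl⟩
  have hzB : ∀ B, a + (r ^ 2 * F) ^ 2 * ∑ j ∈ B, t j = z B := fun B => by rw [hz, hδB]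
  simp only [hzB]
  have hmon : ∀ B, (z B).Monic ∧ (z B).natDegree = n := by
    intro B
    have h3 : (δ B).natDegree < a.natDegree := by
      have h4 := hδd B
      omega
    have h4 : (δ B).degree < a.degree := degree_lt_degree h3
    rw [hz]
    exact ⟨ham.add_of_left h4, by
      show (a + δ B).natDegree = n
      rw [natDegree_add_eq_left_of_natDegree_lt h3, han]⟩
  have hcd1 : CDeg 1 z := by
    have hcd0 : CDeg 1 δ := by
      have h3 : δ = fun B => ∑ j ∈ B, (r ^ 2 * F) ^ 2 * t j := by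
        funext B
        rw [← hδB, Finset.mul_sum]
      rw [h3]
      exact (hcd K[X] _).2.1 _
    obtain ⟨h0, -, hmono, hadd, -, -⟩ := hcd K[X] k
    rw [hz]
    exact hadd 1 _ _ (hmono 0 1 _ (h0 a) (by omega)) hcd0
  have hzd : ∀ B, (z B - z ∅).natDegree ≤ M' := by
    intro B
    have : z B - z ∅ = δ B := by
      rw [hz]
      show a + δ B - (a + δ ∅) = δ B
      rw [hδ0]
      ring
    rw [this]
    exact hδd B
  have hzN : ∀ B, (r ^ 2 * F) ^ 2 ∣ z ∅ - z B := by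
    intro B
    have : z ∅ - z B = - δ B := by
      rw [hz]
      show a + δ ∅ - (a + δ B) = - δ B
      rw [hδ0]
      ring
    rw [this, ← hδB, dvd_neg]
    exact dvd_mul_right _ _
  have hev : ∀ (f : K[X][X]) (B : Finset (Fin k)), (r ^ 2 * F) ^ 2 ∣ f.eval (z ∅) - f.eval (z B) :=
    fun f B => (hzN B).trans (sub_dvd_eval_sub _ _ f)
  -- the values
  obtain ⟨A, hA⟩ : ∃ A : Finset (Fin k) → K[X], A = fun B => U.eval (z B) := ⟨_, rfl⟩
  obtain ⟨W, hW⟩ : ∃ W : Finset (Fin k) → K[X], W = fun B => V.eval (z B) := ⟨_, rfl⟩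
  obtain ⟨τ, hτ⟩ : ∃ τ : Finset (Fin k) → K[X],
      τ = fun B => (u.eval (z B)) ^ 2 * U.eval (z B) := ⟨_, rfl⟩
  have hAe : ∀ B, U.eval (z B) = A B := fun B => by rw [hA]
  have hWe : ∀ B, V.eval (z B) = W B := fun B => by rw [hW]
  simp only [hAe, hWe]
  have hBeW : ∀ B, Bp.eval (z B) = F * W B := fun B => by rw [hBe, hWe]
  have hgeW : ∀ B, gp.eval (z B) = gg (A B) (F * W B) := fun B => by rw [hge, hWe, hAe]
  have hB0 : ∀ B, F * W B ≠ 0 := by
    intro B
    rw [← hBeW]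
    exact (hn₄ (z B) (hmon B).1 (by rw [(hmon B).2]; omega)).1
  have hW0 : ∀ B, W B ≠ 0 := fun B => right_ne_zero_of_mul (hB0 B)
  have hBdeg : ∀ B, (F * W B).natDegree = Bp.natDegree * n + Bp.leadingCoeff.natDegree := by
    intro B
    rw [← hBeW, (hn₄ (z B) (hmon B).1 (by rw [(hmon B).2]; omega)).2.1, (hmon B).2]
  have hgdeg : ∀ B, (gg (A B) (F * W B)).natDegree =
      gp.natDegree * n + gp.leadingCoeff.natDegree := by
    intro B
    rw [← hgeW, (hn₃ (z B) (hmon B).1 (by rw [(hmon B).2]; omega)).2.1, (hmon B).2]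
  have hgmon : ∀ B, (gg (A B) (F * W B)).Monic := by
    intro B
    unfold Polynomial.Monic
    rw [← hgeW, (hn₃ (z B) (hmon B).1 (by rw [(hmon B).2]; omega)).2.2]
    exact hl
  -- coprimality
  have hrel : ∀ B, u.eval (z B) * A B + v.eval (z B) * W B = r := by
    intro B
    have := congrArg (eval (z B)) huv
    rw [eval_add, eval_mul, eval_mul, eval_C, hAe, hWe] at this
    exact this
  have hcVB : ∀ B, IsCoprime (W B) (r * F) := fun B => by rw [← hWe]; exact hcV _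
  have hcUB : ∀ B, IsCoprime (A B) F := fun B => by rw [← hAe]; exact hcU _
  have hAW : ∀ B, IsCoprime (A B) (W B) := by
    intro B
    obtain ⟨x, y, hxy⟩ := (hcVB B).of_mul_right_left
    refine ⟨y * u.eval (z B), x + y * v.eval (z B), ?_⟩
    linear_combination hxy + y * hrel B
  have hAB : ∀ B, IsCoprime (A B) (F * W B) := fun B => (hcUB B).mul_right (hAW B)
  have hJ : ∀ B, ∃ J : K[X], (F * W B) ^ 2 ∣ A B * J - 1 := by
    intro B
    obtain ⟨x, y, hxy⟩ := (hAB B).pow_right (n := 2)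
    exact ⟨x, -y, by linear_combination hxy⟩
  choose J hJ using hJ
  -- the sign
  obtain ⟨η, hη, hsg⟩ := par K (gp.natDegree * n + gp.leadingCoeff.natDegree)
    (Bp.natDegree * n + Bp.leadingCoeff.natDegree) (by
      rw [← hgdeg ∅]
      exact gg_pos (hB0 ∅))
  have hmob : ∀ B, (liou (gg (A B) (F * W B)) : ℝ) = η * sg (phi (A B) (F * W B) (J B)) := by
    intro B
    rw [liou_sqf (gg_sqf (hAB B))]
    exact hsg _ _ _ (hB0 B) (hgmon B) (hgdeg B) (hBdeg B) (hJ B)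
  rw [Finset.prod_congr rfl fun B _ => hmob B, Finset.prod_mul_distrib, Finset.prod_const,
    Finset.card_univ, pm_pow hη hk0, one_mul, sg_sum]
  -- the phases
  have hτW : ∀ B, W B ^ 2 ∣ τ B * A B - r ^ 2 := by
    intro B
    refine ⟨(v.eval (z B)) ^ 2 - 2 * 0, ?_⟩
    rw [hτ]
    show (u.eval (z B)) ^ 2 * U.eval (z B) * A B - r ^ 2 = _
    rw [hAe, ← hrel B]
    linear_combination (-(v.eval (z B)) ^ 2 * (W B) ^ 2 -
      u.eval (z B) * A B * (v.eval (z B) * W B)) * h2K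
  have hpair : ∀ B, res (rf (ww (A ∅) (F * W ∅) (J ∅)) / rf ((F * W ∅) ^ 2)) +
        res (rf (qq r (A ∅) (F * W ∅) (τ ∅)) / rf (r ^ 4 * (F * W ∅) ^ 2)) =
      res (rf (ww (A B) (F * W B) (J B)) / rf ((F * W B) ^ 2)) +
        res (rf (qq r (A B) (F * W B) (τ B)) / rf (r ^ 4 * (F * W B) ^ 2)) := by
    intro B
    have e4 : r ^ 4 * F ^ 2 = (r ^ 2 * F) ^ 2 := by ring
    have hA1 : (r ^ 2 * F) ^ 2 ∣ A ∅ - A B := by
      rw [← hAe, ← hAe]
      exact hev U B
    have hW1 : (r ^ 2 * F) ^ 2 ∣ W ∅ - W B := by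
      rw [← hWe, ← hWe]
      exact hev V B
    have hτ1 : (r ^ 2 * F) ^ 2 ∣ τ ∅ - τ B := by
      have := hev (u ^ 2 * U) B
      rw [eval_mul, eval_mul, eval_pow, eval_pow] at this
      rw [hτ]
      exact this
    refine pair K r F (A ∅) (W ∅) (J ∅) (τ ∅) (A B) (W B) (J B) (τ B) hr hF (hW0 _) (hW0 _)
      (hcVB _) (hcVB _) (hJ _) (hJ _) (hτW _) (hτW _) ?_ ?_ ?_ ?_ ?_
    · rw [e4]
      exact hA1
    · rw [e4, ← derivative_sub]
      exact der_dvd hA1
    · rw [e4]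
      exact hW1
    · rw [e4, ← derivative_sub]
      exact der_dvd hW1
    · rw [e4]
      exact hτ1
  have hcA : CDeg d A := by
    have hmono := (hcd K[X] k).2.2.1
    rw [hA]
    exact hmono _ _ _ (cdeg_eval hcd U z hcd1) (by omega)
  have hcW : CDeg d (fun B => F * W B) := by
    obtain ⟨h0, -, hmono, hadd, hmul, -⟩ := hcd K[X] k
    have h3 := hmul 0 V.natDegree (fun _ => F) _ (h0 F) (cdeg_eval hcd V z hcd1)
    rw [hW]
    exact hmono _ _ _ h3 (by omega)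
  have hcτ : CDeg (3 * d) τ := by
    obtain ⟨h0, -, hmono, hadd, hmul, -⟩ := hcd K[X] k
    have h3 := cdeg_eval hcd u z hcd1
    have h4 := hmul _ _ _ _ (hmul _ _ _ _ h3 h3) (cdeg_eval hcd U z hcd1)
    have h5 : τ = fun B => u.eval (z B) * u.eval (z B) * U.eval (z B) := by
      rw [hτ]
      funext B
      ring
    rw [h5]
    exact hmono _ _ _ h4 (by omega)
  have hdA : ∀ B, (A B).natDegree ≤ d * n + H := by
    intro B
    rw [← hAe]
    have := natDegree_eval_le U HU d n hHU (by omega) (z B) (hmon B).2.le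
    omega
  have hdW : ∀ B, (F * W B).natDegree ≤ d * n + H := by
    intro B
    rw [← hWe]
    have h3 := natDegree_eval_le V HV d n hHV (by omega) (z B) (hmon B).2.le
    refine natDegree_mul_le.trans ?_
    omega
  have hdτ : ∀ B, (τ B).natDegree ≤ 3 * (d * n + H) := by
    intro B
    rw [hτ]
    show ((u.eval (z B)) ^ 2 * U.eval (z B)).natDegree ≤ _
    have h3 := natDegree_eval_le u Hu d n hHu (by omega) (z B) (hmon B).2.le
    have h4 := natDegree_eval_le U HU d n hHU (by omega) (z B) (hmon B).2.le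
    refine natDegree_mul_le.trans ?_
    have h5 := natDegree_pow_le (p := u.eval (z B)) (n := 2)
    omega
  have hsum1 : ∑ B : Finset (Fin k), res (rf (zz (A B) (F * W B)) /
      rf ((F * W B) ^ 2 * gg (A B) (F * W B))) = 0 := by
    have h3 := hn₁ n (by omega) z hmon hcd1 hzd (fun B => zz (A B) (F * W B)) (fun B => by
      refine (deg_zz (hdA B) (hdW B)).trans ?_
      have : 10 * (d * n + H) = 10 * d * n + 10 * H := by ring
      omega) (cd_zz hcd hcA hcW)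
    rw [← h3]
    refine Finset.sum_congr rfl fun B _ => ?_
    rw [eval_mul, eval_pow, hBeW, hgeW]
  have hsum2 : ∑ B : Finset (Fin k), res (rf (qq r (A B) (F * W B) (τ B)) /
      rf (r ^ 4 * (F * W B) ^ 2)) = 0 := by
    have h3 := hn₂ n (by omega) z hmon hcd1 hzd (fun B => qq r (A B) (F * W B) (τ B)) (fun B => by
      refine (deg_qq (hdA B) (hdW B) (hdτ B)).trans ?_
      have : 10 * (d * n + H) = 10 * d * n + 10 * H := by ring
      omega) (cd_qq hcd r hcA hcW hcτ)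
    rw [← h3]
    refine Finset.sum_congr rfl fun B _ => ?_
    rw [eval_mul, eval_pow, eval_C, hBeW]
  have hzero : ∑ B : Finset (Fin k), phi (A B) (F * W B) (J B) = 0 := by
    obtain ⟨κ, hκ⟩ : ∃ κ : K, κ = res (rf (ww (A ∅) (F * W ∅) (J ∅)) / rf ((F * W ∅) ^ 2)) +
        res (rf (qq r (A ∅) (F * W ∅) (τ ∅)) / rf (r ^ 4 * (F * W ∅) ^ 2)) := ⟨_, rfl⟩
    have h3 : ∀ B, phi (A B) (F * W B) (J B) = res (rf (zz (A B) (F * W B)) /
        rf ((F * W B) ^ 2 * gg (A B) (F * W B))) + (κ +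
        res (rf (qq r (A B) (F * W B) (τ B)) / rf (r ^ 4 * (F * W B) ^ 2))) := by
      intro B
      have h4 := hpair B
      rw [← hκ] at h4
      unfold phi
      rw [h4]
      linear_combination - res (rf (qq r (A B) (F * W B) (τ B)) / rf (r ^ 4 * (F * W B) ^ 2)) * h2
    rw [Finset.sum_congr rfl fun B _ => h3 B, Finset.sum_add_distrib, Finset.sum_add_distrib,
      hsum1, hsum2, Finset.sum_const, Finset.card_univ, Fintype.card_finset, Fintype.card_fin]
    obtain ⟨m, rfl⟩ : ∃ m, k = m + 1 := ⟨k - 1, by omega⟩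
    rw [nsmul_eq_mul, pow_succ]
    push_cast
    rw [h2]
    ring
  rw [hzero, Pool.Agent.H985.KP.Loc2.sg_zero]

end FLH

open FLH in
theorem flg2 : S_par → S_van2 → S_pair → S_evf → S_cd → S_flg2 := by
  intro par van2 pair hevf hcd K _ _ _ U V u v r F d hr hF hV huv hcV hcU hd
  have hne : U ^ 2 + C X * (C F * V) ^ 2 ≠ 0 := by
    intro h
    obtain ⟨⟨n₄, hn₄⟩, -⟩ := hevf K V hV
    have h1 := (hn₄ (X ^ n₄) (monic_X_pow _) (by rw [natDegree_X_pow])).1
    have h3 : gg (U.eval (X ^ n₄)) (F * V.eval (X ^ n₄)) = 0 := by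
      have := congrArg (eval (X ^ n₄)) h
      simp only [eval_add, eval_mul, eval_pow, eval_C, eval_zero] at this
      unfold gg
      exact this
    have h4 := gg_pos (A := U.eval (X ^ n₄)) (mul_ne_zero hF h1)
    rw [h3, natDegree_zero] at h4
    omega
  obtain ⟨m, hm⟩ := FiniteField.isSquare_of_char_two (ringChar.eq_iff.2 inferInstance)
    (U ^ 2 + C X * (C F * V) ^ 2).leadingCoeff.leadingCoeff
  have hm0 : m ≠ 0 := by
    rintro rfl
    rw [mul_zero] at hm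
    exact leadingCoeff_ne_zero.2 (leadingCoeff_ne_zero.2 hne) hm
  have hmm : (C m⁻¹ : K[X]) * C m = 1 := by
    rw [← C_mul, inv_mul_cancel₀ hm0, C_1]
  have hCm : (C m⁻¹ : K[X]) ≠ 0 := C_ne_zero.2 (inv_ne_zero hm0)
  have hunit : IsUnit (C m⁻¹ : K[X]) := isUnit_C.2 (IsUnit.mk0 _ (inv_ne_zero hm0))
  obtain ⟨N, hN, h⟩ := coreg2 par van2 pair hevf hcd K (C (C m⁻¹) * U) (C (C m⁻¹) * V)
    (C (C m) * u) (C (C m) * v) r F d hr hF
    (mul_ne_zero (C_ne_zero.2 hCm) hV) (by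
      have h1 : (C (C m⁻¹) : K[X][X]) * C (C m) = 1 := by rw [← C_mul, hmm, C_1]
      linear_combination (u * U + v * V) * h1 + huv) (fun a => by
      rw [eval_mul, eval_C]
      exact (isCoprime_mul_unit_left_left hunit _ _).2 (hcV a)) (fun a => by
      rw [eval_mul, eval_C]
      exact (isCoprime_mul_unit_left_left hunit _ _).2 (hcU a)) (by
      have h1 : (C (C m⁻¹) * U) ^ 2 + C X * (C F * (C (C m⁻¹) * V)) ^ 2 =
          C (C (m⁻¹ * m⁻¹)) * (U ^ 2 + C X * (C F * V) ^ 2) := by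
        rw [C_mul, C_mul]
        ring
      rw [h1, leadingCoeff_mul, leadingCoeff_C, leadingCoeff_mul, leadingCoeff_C, hm]
      field_simp) (by
      have i1 := natDegree_C_mul_le (C m⁻¹) U
      have i2 := natDegree_C_mul_le (C m⁻¹) V
      have i3 := natDegree_C_mul_le (C m) u
      omega)
  refine ⟨N, hN, fun k' hk' M => ?_⟩
  obtain ⟨n₀, hn₀⟩ := h k' hk' M
  refine ⟨n₀, fun n hn a ha t ht => ?_⟩
  have h1 := hn₀ n hn a ha t ht
  rw [← h1]
  refine Finset.prod_congr rfl fun B _ => ?_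
  set z := a + N * ∑ j ∈ B, t j with hz
  have h3 : gg (eval z (C (C m⁻¹) * U)) (F * eval z (C (C m⁻¹) * V)) =
      C m⁻¹ * (C m⁻¹ * gg (U.eval z) (F * V.eval z)) := by
    rw [eval_mul, eval_mul, eval_C]
    unfold gg
    ring
  rw [h3, Pool.Agent.H140.Q.FinM.liou_mul, Pool.Agent.H140.Q.FinM.liou_mul,
    Pool.Agent.H140.Q.FinM.liou_C (inv_ne_zero hm0), one_mul, one_mul]

end Pool.Agent.H140.MH
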