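import Mathlib
import Pool.Agent.H140.MH.Flg2
import Pool.Agent.H140.MH.Cls2
import Pool.Agent.H140.MH.All

/-!
# The Liouville function of a polynomial in `T ^ 2` is locally a polynomial phase of bounded degree
-/

set_option autoImplicit false

namespace Pool.Agent.H140.MH

open Polynomial
open scoped Classical
open Pool.Agent.H694.Typ (Mn mem_Mn)
open Pool.Agent.H140.Q (liou)
open Pool.Agent.H140.Q.FinM (liou_mul liou_self)
open Pool.Agent.H251.SP.TII (Pl mem_Pl)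

theorem s_flg2 : S_flg2 :=
  flg2 s_par (van2 Pool.Agent.H140.MX.cd) pair evf Pool.Agent.H140.MX.cd

/-- Local polynomial phases. -/
def S_loc2 : Prop :=
  ∀ (K : Type) [Field K] [Fintype K] [CharP K 2] (h : K[X][X]), h ≠ 0 → derivative h = 0 →
    ∃ k₀ : ℕ, ∀ ε : ℝ, 0 < ε → ∃ Q : K[X], Q ≠ 0 ∧ ∀ k : ℕ, k₀ ≤ k → ∀ M : ℕ, ∃ n₀ : ℕ,
      ∀ n : ℕ, n₀ ≤ n →
        (((Mn K n).filter (fun a => ¬ ∀ t : Fin k → K[X], (∀ j, (t j).natDegree ≤ M) →
          ∏ B : Finset (Fin k), (liou (h.eval (a + Q * ∑ j ∈ B, t j)) : ℝ) = 1)).card : ℝ) ≤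
            ε * (Fintype.card K : ℝ) ^ n

theorem loc2 : S_loc2 := by
  intro K _ _ _ h hh0 hh'
  obtain ⟨e, r, g₀, U, V, u, v, he, hrm, hg0, hdeco, hbez⟩ := dec K h hh0 hh'
  obtain ⟨⟨ng, hng⟩, -⟩ := evf K g₀ hg0
  have hval : ∀ a : K[X], a.Monic → ng ≤ a.natDegree →
      liou (h.eval a) = liou (gg (U.eval a) (V.eval a)) := by
    intro a ha hn
    have h1 := congrArg (fun q => liou (q.eval a)) hdeco
    simp only [eval_mul, eval_C, eval_pow, eval_add] at h1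
    rw [liou_sq_mul he, liou_sq_mul (hng a ha hn).1] at h1
    exact h1
  -- the points of the cubes
  have hpt : ∀ (Q : K[X]) (k M n : ℕ), Q.natDegree + M + ng + 1 ≤ n → ∀ a ∈ Mn K n,
      ∀ t : Fin k → K[X], (∀ j, (t j).natDegree ≤ M) → ∀ B : Finset (Fin k),
        (a + Q * ∑ j ∈ B, t j).Monic ∧ ng ≤ (a + Q * ∑ j ∈ B, t j).natDegree := by
    intro Q k M n hn a ha t ht B
    rw [mem_Mn] at ha
    have h1 : (Q * ∑ j ∈ B, t j).natDegree < a.natDegree := by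
      have h2 : (∑ j ∈ B, t j).natDegree ≤ M :=
        natDegree_sum_le_of_forall_le _ _ fun j _ => ht j
      have h3 := natDegree_mul_le (p := Q) (q := ∑ j ∈ B, t j)
      omega
    refine ⟨ha.1.add_of_left (degree_lt_degree h1), ?_⟩
    rw [natDegree_add_eq_left_of_natDegree_lt h1]
    omega
  by_cases hV : V = 0
  · -- the polynomial is a square
    have hU1 : ∀ a : K[X], liou (gg (U.eval a) (V.eval a)) = 1 := by
      intro a
      have h1 := congrArg (fun q => q.eval a) hbez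
      simp only [eval_add, eval_mul, eval_C, hV, eval_zero, mul_zero, add_zero] at h1
      have h2 : U.eval a ≠ 0 := by
        intro h0
        rw [h0, mul_zero] at h1
        exact hrm.ne_zero h1.symm
      rw [gg, hV, eval_zero, zero_pow two_ne_zero, mul_zero, add_zero, sq, liou_mul, liou_self h2]
    refine ⟨1, fun ε hε => ⟨1, one_ne_zero, fun k _ M =>
      ⟨(1 : K[X]).natDegree + M + ng + 1, fun n hn => ?_⟩⟩⟩
    rw [Finset.filter_false_of_mem, Finset.card_empty, Nat.cast_zero]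
    · positivity
    · intro a ha h1
      apply h1
      intro t ht
      refine Finset.prod_eq_one fun B _ => ?_
      obtain ⟨h2, h3⟩ := hpt 1 k M n hn a ha t ht B
      rw [hval _ h2 h3, hU1, Int.cast_one]
  -- the main case
  obtain ⟨d, hd⟩ : ∃ d : ℕ, d = U.natDegree + V.natDegree + u.natDegree := ⟨_, rfl⟩
  refine ⟨10 * d * (10 * d + 1 + 3) + 1, fun ε hε => ?_⟩
  obtain ⟨m, nd, hm⟩ := den K V r hV hrm.ne_zero ε hε
  set R : K[X] := r ^ (m + 1) with hR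
  have hRm : R.Monic := hrm.pow _
  have hR0 : R ≠ 0 := hRm.ne_zero
  set Bad : K[X] → Prop := fun a => ∃ P : K[X], Irreducible P ∧ P ∣ r ∧ P ^ m ∣ V.eval a with hBad
  have hbadR : ∀ g a₀ : K[X], Bad a₀ → Bad (R * g + a₀) := by
    rintro g a₀ ⟨P, hP, hPr, hPm⟩
    refine ⟨P, hP, hPr, ?_⟩
    have h2 : P ^ m ∣ V.eval (R * g + a₀) - V.eval a₀ := by
      have h3 : (R * g + a₀) - a₀ ∣ V.eval (R * g + a₀) - V.eval a₀ := sub_dvd_eval_sub _ _ _
      refine dvd_trans ?_ h3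
      rw [add_sub_cancel_right, hR]
      exact ((pow_dvd_pow_of_dvd hPr m).trans (pow_dvd_pow r (Nat.le_succ m))).mul_right g
    exact (dvd_iff_dvd_of_dvd_sub h2).2 hPm
  -- one good class
  have hclass : ∀ a₀ : K[X], ∃ N : K[X], N ≠ 0 ∧ (¬ Bad a₀ → ∀ k : ℕ,
      10 * d * (10 * d + 1 + 3) + 1 ≤ k → ∀ M : ℕ, ∃ n₀ : ℕ, ∀ n : ℕ, n₀ ≤ n → ∀ b ∈ Mn K n, ∀ t : Fin k → K[X],
        (∀ j, (t j).natDegree ≤ M) → ∏ B : Finset (Fin k),
          (liou (gg (U.eval (R * (b + N * ∑ j ∈ B, t j) + a₀))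
            (V.eval (R * (b + N * ∑ j ∈ B, t j) + a₀))) : ℝ) = 1) := by
    intro a₀
    by_cases hb : Bad a₀
    · exact ⟨1, one_ne_zero, fun h => absurd hb h⟩
    · have hb' : ∀ P : K[X], Irreducible P → P ∣ r → ¬ P ^ m ∣ V.eval a₀ := by
        intro P hP hPr hPm
        exact hb ⟨P, hP, hPr, hPm⟩
      obtain ⟨D, F, r₂, U₂, V₂, u₂, v₂, hD, hF, hr₂, hV₂, hU2, hV2, hbez2, hc1, hc2, hc3⟩ :=
        cls2 K U V u v r a₀ m hrm hV hbez hb'
      rw [← hR] at hU2 hV2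
      obtain ⟨N₁, hN₁, hfl1⟩ := s_flg2 K U₂ V₂ u₂ v₂ r₂ F d hr₂ hF hV₂ hbez2 hc1 hc2
        (by omega)
      refine ⟨N₁, hN₁, fun _ k hk M => ?_⟩
      obtain ⟨n₀, h0⟩ := hfl1 k hk M
      refine ⟨n₀, fun n hn b hb t ht => ?_⟩
      rw [← h0 n hn b hb t ht]
      refine Finset.prod_congr rfl fun B _ => ?_
      set g := b + N₁ * ∑ j ∈ B, t j with hg
      have e2 : U.eval (R * g + a₀) = D * U₂.eval g := by
        have := congrArg (fun q => q.eval g) hU2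
        simpa only [eval_comp, eval_add, eval_mul, eval_C, eval_X] using this
      have e3 : V.eval (R * g + a₀) = D * F * V₂.eval g := by
        have := congrArg (fun q => q.eval g) hV2
        simpa only [eval_comp, eval_add, eval_mul, eval_C, eval_X] using this
      have e5 : gg (D * U₂.eval g) (D * F * V₂.eval g) =
          D ^ 2 * gg (U₂.eval g) (F * V₂.eval g) := by
        unfold gg; ring
      rw [e2, e3, e5, liou_sq_mul hD]
  choose N hN hclass using hclass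
  obtain ⟨W, hW⟩ : ∃ W : K[X], W = ∏ a₀ ∈ Pl K R.natDegree, N a₀ := ⟨_, rfl⟩
  have hW0 : W ≠ 0 := by
    rw [hW]
    exact Finset.prod_ne_zero_iff.2 fun a₀ _ => hN a₀
  have hWd : ∀ a₀ ∈ Pl K R.natDegree, N a₀ ∣ W := fun a₀ ha₀ => by
    rw [hW]
    exact Finset.dvd_prod_of_mem _ ha₀
  refine ⟨R * W, mul_ne_zero hR0 hW0, fun k hk M => ?_⟩
  have hc2 : ∀ a₀ : K[X], ∃ n₀ : ℕ, a₀ ∈ Pl K R.natDegree → ¬ Bad a₀ → ∀ n : ℕ, n₀ ≤ n →
      ∀ b ∈ Mn K n, ∀ t : Fin k → K[X],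
        (∀ j, (t j).natDegree ≤ M + W.natDegree) → ∏ B : Finset (Fin k),
          (liou (gg (U.eval (R * (b + N a₀ * ∑ j ∈ B, t j) + a₀))
            (V.eval (R * (b + N a₀ * ∑ j ∈ B, t j) + a₀))) : ℝ) = 1 := by
    intro a₀
    by_cases h1 : a₀ ∈ Pl K R.natDegree ∧ ¬ Bad a₀
    · obtain ⟨n₀, h3⟩ := hclass a₀ h1.2 k hk (M + W.natDegree)
      exact ⟨n₀, fun _ _ => h3⟩
    · exact ⟨0, fun h2 h3 => absurd ⟨h2, h3⟩ h1⟩
  choose n₁ hc2 using hc2
  refine ⟨nd + (R.natDegree + (Pl K R.natDegree).sup n₁) + ((R * W).natDegree + M + ng + 1),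
    fun n hn => ?_⟩
  refine le_trans ?_ (hm n (by omega))
  rw [Nat.cast_le]
  refine Finset.card_le_card fun a ha => ?_
  rw [Finset.mem_filter] at ha ⊢
  obtain ⟨haM, ha⟩ := ha
  refine ⟨haM, ?_⟩
  by_contra hgood
  apply ha
  intro t ht
  obtain ⟨ham, han⟩ := mem_Mn.1 haM
  have hdiv : a %ₘ R + R * (a /ₘ R) = a := modByMonic_add_div a R
  obtain ⟨a₀, ha₀⟩ : ∃ a₀, a₀ = a %ₘ R := ⟨_, rfl⟩
  obtain ⟨b, hb⟩ : ∃ b, b = a /ₘ R := ⟨_, rfl⟩
  rw [← ha₀, ← hb] at hdiv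
  have ha₀P : a₀ ∈ Pl K R.natDegree := by
    rw [mem_Pl, ha₀]
    refine (degree_modByMonic_lt a hRm).trans_le ?_
    rw [degree_eq_natDegree hR0]
  have hbM : b ∈ Mn K (n - R.natDegree) := by
    rw [mem_Mn, hb]
    refine ⟨?_, by rw [natDegree_divByMonic a hRm, han]⟩
    unfold Polynomial.Monic
    rw [leadingCoeff_divByMonic_of_monic hRm]
    · exact ham
    · rw [degree_eq_natDegree hR0, degree_eq_natDegree ham.ne_zero, han]
      exact_mod_cast (by omega : R.natDegree ≤ n)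
  have hgood' : ¬ Bad a₀ := by
    intro h1
    have h2 := hbadR b a₀ h1
    rw [add_comm, hdiv] at h2
    exact hgood h2
  obtain ⟨W', hW'⟩ := hWd a₀ ha₀P
  have hW'd : W'.natDegree ≤ W.natDegree :=
    natDegree_le_of_dvd ⟨N a₀, by rw [hW']; ring⟩ hW0
  have hn₁ : n₁ a₀ ≤ n - R.natDegree := by
    have := Finset.le_sup (f := n₁) ha₀P
    omega
  have hfin := hc2 a₀ ha₀P hgood' (n - R.natDegree) hn₁ b hbM (fun j => W' * t j) (fun j => by
    have h1 := natDegree_mul_le (p := W') (q := t j)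
    have h2 := ht j
    show (W' * t j).natDegree ≤ _
    omega)
  rw [← hfin]
  refine Finset.prod_congr rfl fun B _ => ?_
  obtain ⟨h2, h3⟩ := hpt (R * W) k M n (by omega) a haM t ht B
  have h4 : a + R * W * ∑ j ∈ B, t j = R * (b + N a₀ * ∑ j ∈ B, W' * t j) + a₀ := by
    rw [← Finset.mul_sum]
    conv_lhs => rw [← hdiv, hW']
    ring
  rw [hval _ h2 h3, h4]

end Pool.Agent.H140.MH
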