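import Pool.Agent.H140.MH.StmM
import Pool.Agent.H140.MH.Dec
import Pool.Agent.H140.MH.Evf

/-!
# Task MOBH: auxiliary facts (helper116, for helper140)
-/

set_option autoImplicit false

namespace Pool.Agent.H140.MH

open Polynomial
open scoped Classical
open Pool.Agent.H985.Chow (mob MD)
open Pool.Agent.H694.Typ (Mn mem_Mn)
open Pool.Agent.H140.Q (liou)

namespace MobH

/-- a square dividing a square times a squarefree polynomial -/
theorem sq_dvd {K : Type} [Field K] {x y z : K[X]} (hz : Squarefree z)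
    (h : x ^ 2 ∣ y ^ 2 * z) : x ∣ y := by
  by_cases hx : x = 0
  · rw [hx, zero_pow two_ne_zero, zero_dvd_iff] at h
    rcases mul_eq_zero.1 h with h1 | h1
    · rw [pow_eq_zero_iff two_ne_zero] at h1
      rw [h1]
      exact dvd_zero _
    · exact absurd h1 hz.ne_zero
  set d := EuclideanDomain.gcd x y with hd
  obtain ⟨x', hx'⟩ : d ∣ x := EuclideanDomain.gcd_dvd_left _ _
  obtain ⟨y', hy'⟩ : d ∣ y := EuclideanDomain.gcd_dvd_right _ _
  have hd0 : d ≠ 0 := by
    intro h0
    rw [h0, zero_mul] at hx'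
    exact hx hx'
  have hbez := EuclideanDomain.gcd_eq_gcd_ab x y
  set a := EuclideanDomain.gcdA x y
  set b := EuclideanDomain.gcdB x y
  have hco : IsCoprime x' y' := by
    refine ⟨a, b, ?_⟩
    apply mul_left_cancel₀ hd0
    have h3 : d = (d * x') * a + (d * y') * b := by
      rw [← hx', ← hy']
      exact hbez
    linear_combination - h3
  have h1 : d ^ 2 * x' ^ 2 ∣ d ^ 2 * (y' ^ 2 * z) := by
    have e1 : d ^ 2 * x' ^ 2 = x ^ 2 := by rw [hx']; ring
    have e2 : d ^ 2 * (y' ^ 2 * z) = y ^ 2 * z := by rw [hy']; ring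
    rw [e1, e2]
    exact h
  have h2 : x' ^ 2 ∣ y' ^ 2 * z := (mul_dvd_mul_iff_left (pow_ne_zero 2 hd0)).1 h1
  have h3 : x' ^ 2 ∣ z := hco.pow.dvd_of_dvd_mul_left h2
  rw [sq] at h3
  have h4 : IsUnit x' := hz x' h3
  rw [hx', hy']
  exact mul_dvd_mul_left d (h4.dvd)

/-- a repeated factor of positive degree: the values are not squarefree -/
theorem mob_zero {K : Type} [Field K] (F G : K[X][X]) (c : K[X]) (hG : 0 < G.natDegree)
    (hc : c ≠ 0) (h : G ^ 2 ∣ C c * F) :
    ∃ n₀ : ℕ, ∀ a : K[X], a.Monic → n₀ ≤ a.natDegree → mob (F.eval a) = 0 := by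
  have hG0 : G ≠ 0 := by
    rintro rfl
    simp at hG
  obtain ⟨⟨n₁, h1⟩, -⟩ := evf K G hG0
  refine ⟨max n₁ (c.natDegree + 1), fun a ha hn => ?_⟩
  rw [mob, if_neg]
  intro hsq
  have h2 : (G.eval a) ^ 2 ∣ c ^ 2 * F.eval a := by
    obtain ⟨q, hq⟩ := h
    have h3 := congrArg (eval a) hq
    rw [eval_mul, eval_C, eval_mul, eval_pow] at h3
    refine ⟨c * q.eval a, ?_⟩
    linear_combination c * h3
  have h3 := sq_dvd hsq h2
  have h4 := natDegree_le_of_dvd h3 hc
  have h5 := (h1 a ha ((le_max_left _ _).trans hn)).2.1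
  have h6 : a.natDegree ≤ G.natDegree * a.natDegree := Nat.le_mul_of_pos_left _ hG
  have h7 := (le_max_right n₁ (c.natDegree + 1)).trans hn
  omega

/-- either there is a repeated factor, or the two polynomials are coprime -/
theorem dich {K : Type} [Field K] (f h : K[X][X]) (hf : f ≠ 0) :
    (∃ (G : K[X][X]) (c : K[X]), 0 < G.natDegree ∧ c ≠ 0 ∧ G ^ 2 ∣ C c * (f * h)) ∨
    ∃ (p q : K[X][X]) (N : K[X]), N ≠ 0 ∧ p * f + q * h = C N := by
  set φ : K[X][X] →+* (RatFunc K)[X] := mapRingHom (algebraMap K[X] (RatFunc K)) with hφ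
  have hinj0 : Function.Injective (algebraMap K[X] (RatFunc K)) :=
    IsFractionRing.injective K[X] (RatFunc K)
  have hinj : Function.Injective φ := by
    rw [hφ, coe_mapRingHom]
    exact map_injective _ hinj0
  have hC : ∀ d : K[X], φ (C d) = C (algebraMap K[X] (RatFunc K) d) := fun d => by
    rw [hφ, coe_mapRingHom, map_C]
  by_cases hco : IsCoprime (φ f) (φ h)
  · right
    obtain ⟨a, b, hab⟩ := hco
    obtain ⟨d1, hd1, p, hp⟩ := DecL.clear (R := K[X]) a
    obtain ⟨d2, hd2, q, hq⟩ := DecL.clear (R := K[X]) b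
    change φ p = _ at hp
    change φ q = _ at hq
    refine ⟨C d2 * p, C d1 * q, d1 * d2, mul_ne_zero hd1 hd2, hinj ?_⟩
    simp only [map_mul, map_add, hC, hp, hq]
    linear_combination (C (algebraMap K[X] (RatFunc K) d1) *
      C (algebraMap K[X] (RatFunc K) d2)) * hab
  · left
    set d := EuclideanDomain.gcd (φ f) (φ h) with hd
    obtain ⟨f1, hf1⟩ : d ∣ φ f := EuclideanDomain.gcd_dvd_left _ _
    obtain ⟨h1, hh1⟩ : d ∣ φ h := EuclideanDomain.gcd_dvd_right _ _
    have hd0 : d ≠ 0 := by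
      intro h0
      rw [h0, zero_mul] at hf1
      exact hf (hinj (hf1.trans (map_zero φ).symm))
    have hdd : 0 < d.natDegree := by
      rw [Nat.pos_iff_ne_zero]
      intro h0
      apply hco
      rw [← EuclideanDomain.gcd_isUnit_iff, ← hd]
      rw [natDegree_eq_zero] at h0
      obtain ⟨x, hx⟩ := h0
      rw [← hx]
      refine isUnit_C.2 (IsUnit.mk0 _ ?_)
      rintro rfl
      rw [C_0] at hx
      exact hd0 hx.symm
    obtain ⟨d1, hd1, G, hG⟩ := DecL.clear (R := K[X]) d
    obtain ⟨d2, hd2, B, hB⟩ := DecL.clear (R := K[X]) (f1 * h1)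
    change φ G = _ at hG
    change φ B = _ at hB
    refine ⟨G, d1 ^ 2 * d2, ?_, mul_ne_zero (pow_ne_zero 2 hd1) hd2, B, hinj ?_⟩
    · have e1 : (φ G).natDegree = G.natDegree := by
        rw [hφ, coe_mapRingHom]
        exact natDegree_map_eq_of_injective hinj0 G
      rw [← e1, hG, natDegree_C_mul]
      · exact hdd
      · exact (map_ne_zero_iff _ hinj0).2 hd1
    · simp only [map_mul, map_pow, hC, hG, hB, hf1, hh1]
      ring

/-- large primes whose square divides a value of `h` -/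
theorem large_h {K : Type} [Field K] [CharP K 2] {e g₀ r a P : K[X]} {h g U V u v : K[X][X]}
    (hg : g = C g₀) (hdec : C (e ^ 2) * h = g ^ 2 * (U ^ 2 + C X * V ^ 2))
    (hbez : u * U + v * V = C r) (hP : Irreducible P) (hPg : ¬ P ∣ g₀) (hPr : ¬ P ∣ r) :
    ¬ P ^ 2 ∣ h.eval a := by
  intro h1
  have hp : Prime P := hP.prime
  have h2 := congrArg (eval a) hdec
  simp only [eval_mul, eval_C, eval_pow, eval_add, hg] at h2
  have h3 : P ^ 2 ∣ (U.eval a) ^ 2 + X * (V.eval a) ^ 2 := by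
    refine hp.pow_dvd_of_dvd_mul_left 2 (a := g₀ ^ 2) (fun h0 => hPg (hp.dvd_of_dvd_pow h0)) ?_
    rw [← h2]
    exact h1.mul_left _
  have h22 : (2 : K[X]) = 0 := by
    have := CharP.cast_eq_zero K[X] 2
    exact_mod_cast this
  have hder : derivative ((U.eval a) ^ 2 + X * (V.eval a) ^ 2) = (V.eval a) ^ 2 := by
    rw [derivative_add, derivative_mul, derivative_X, derivative_pow, derivative_pow]
    simp only [Nat.cast_ofNat, Nat.add_one_sub_one, pow_one]
    have e2 : (C (2 : K) : K[X]) = 0 := by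
      have : (2 : K) = 0 := by
        have := CharP.cast_eq_zero K 2
        exact_mod_cast this
      rw [this, C_0]
    rw [e2]
    ring
  have h4 : P ∣ (V.eval a) ^ 2 := by
    rw [← hder]
    obtain ⟨q, hq⟩ := h3
    rw [hq, sq, mul_assoc, derivative_mul]
    exact dvd_add ⟨derivative P * q, by ring⟩ (dvd_mul_right _ _)
  have h5 : P ∣ V.eval a := hp.dvd_of_dvd_pow h4
  have h6 : P ∣ (U.eval a) ^ 2 := by
    have h7 : P ∣ (U.eval a) ^ 2 + X * (V.eval a) ^ 2 := (dvd_pow_self P two_ne_zero).trans h3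
    exact (dvd_add_left (h4.mul_left X)).1 h7
  have h7 : P ∣ U.eval a := hp.dvd_of_dvd_pow h6
  apply hPr
  have h8 := congrArg (eval a) hbez
  rw [eval_add, eval_mul, eval_mul, eval_C] at h8
  rw [← h8]
  exact dvd_add (h7.mul_left _) (h5.mul_left _)

/-- large primes whose square divides `f(a) h(a)` -/
theorem large_fh {K : Type} [Field K] {N a P : K[X]} {f h p q : K[X][X]}
    (hpq : p * f + q * h = C N) (hP : Irreducible P) (hPN : ¬ P ∣ N)
    (hh : ¬ P ^ 2 ∣ h.eval a) (hfh : P ^ 2 ∣ f.eval a * h.eval a) : P ^ 2 ∣ f.eval a := by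
  have hp : Prime P := hP.prime
  by_cases h1 : P ∣ h.eval a
  · by_cases h2 : P ∣ f.eval a
    · exfalso
      apply hPN
      have h3 := congrArg (eval a) hpq
      rw [eval_add, eval_mul, eval_mul, eval_C] at h3
      rw [← h3]
      exact dvd_add (h2.mul_left _) (h1.mul_left _)
    · exact absurd (hp.pow_dvd_of_dvd_mul_left 2 h2 hfh) hh
  · exact hp.pow_dvd_of_dvd_mul_right 2 h1 hfh

end MobH

end Pool.Agent.H140.MH
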