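import Mathlib
import Pool.Agent.H526.PE.Cls
import Pool.Agent.H526.PE.Phl
import Pool.Agent.H140.E.All
import Pool.Agent.H140.MH.Fin

/-!
# The Möbius function: statement, and residue classes
-/

set_option autoImplicit false

namespace Pool.Agent.H140.MH

open Polynomial
open scoped Classical
open Pool.Agent.H985.Chow (mob MD)
open Pool.Agent.H694.Typ (Mn mem_Mn)
open Pool.Agent.H140.Q (liou)
open Pool.Agent.H140.MX (SqR)
open Pool.Agent.H526.PE (Ph)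

/-- **Task MOBH.**  The Möbius function. -/
def S_mobh : Prop :=
  ∀ (K : Type) [Field K] [Fintype K] [CharP K 2] (f h : K[X][X]) (μ : K[X]) (s : ℕ),
    0 < f.natDegree → (f.map (algebraMap K[X] (RatFunc K))).Separable → μ ≠ 0 → SqR f μ →
    h ≠ 0 → derivative h = 0 → ∀ ε : ℝ, 0 < ε → ∃ n₀ : ℕ, ∀ n : ℕ, n₀ ≤ n →
    ∀ w : K[X] → ℝ, (∀ g, |w g| ≤ 1) →
      (∀ g, ∃ χ : AddChar K[X] ℝ, ∀ u, w (g + μ * u ^ 2) = w g * χ u) →
      ∀ P : K[X] → ℂ, Ph s P →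
      ‖∑ g ∈ Mn K n, ((w g * (mob (f.eval g * h.eval g) : ℝ) : ℝ) : ℂ) * P g‖ ≤
        ε * (Fintype.card K : ℝ) ^ n

/-- Assembly of MOBH: `theorem mobh : S_mobhasm`. -/
def S_mobhasm : Prop := S_fin → S_dec → S_mobh

theorem ph_mono {K : Type} [Field K] {s t : ℕ} (h : s ≤ t) {P : K[X] → ℂ} (hP : Ph s P) :
    Ph t P := by
  induction h with
  | refl => exact hP
  | step _ ih => exact Pool.Agent.H526.PE.Phl.main.2.2.1 _ _ _ ih

/-- Residue classes. -/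
theorem classes {K : Type} [Field K] [Fintype K] [CharP K 2] (s : ℕ) (ε : ℝ) (m : ℕ)
    (W : K[X] → ℂ)
    (h : ∀ P : K[X] → ℂ, Ph (max s 2) P →
      ‖∑ a ∈ Mn K m, P a * W a‖ ≤ ε * (Fintype.card K : ℝ) ^ m)
    (P : K[X] → ℂ) (hP : Ph s P) (Q r : K[X]) (hQ : Q ≠ 0) :
    ‖∑ a ∈ (Mn K m).filter (fun a => Q ∣ a - r), P a * W a‖ ≤
      ε * (Fintype.card K : ℝ) ^ m := by
  obtain ⟨N, χ, hN, hχ, hind⟩ := Pool.Agent.H526.PE.Cls.main K Q r hQ
  have hN' : (0 : ℝ) < N := by exact_mod_cast hN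
  rw [Finset.sum_filter]
  have h1 : ∀ a : K[X], (if Q ∣ a - r then P a * W a else 0) =
      (∑ i, (P a * χ i a) * W a) / N := by
    intro a
    have : (if Q ∣ a - r then P a * W a else 0) = (if Q ∣ a - r then (1 : ℂ) else 0) * (P a * W a) := by
      split_ifs <;> ring
    rw [this, hind a, div_mul_eq_mul_div, Finset.sum_mul]
    congr 1
    refine Finset.sum_congr rfl fun i _ => ?_
    ring
  rw [Finset.sum_congr rfl fun a _ => h1 a, ← Finset.sum_div, Finset.sum_comm, norm_div,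
    Complex.norm_natCast, div_le_iff₀ hN']
  have h2 : ∀ i, Ph (max s 2) (fun a => P a * χ i a) := fun i =>
    Pool.Agent.H526.PE.Phl.main.1 _ _ _ _ (ph_mono (le_max_left _ _) hP)
      (ph_mono (le_max_right _ _) (hχ i))
  calc ‖∑ i, ∑ a ∈ Mn K m, (P a * χ i a) * W a‖
      ≤ ∑ i, ‖∑ a ∈ Mn K m, (P a * χ i a) * W a‖ := norm_sum_le _ _
    _ ≤ ∑ _i : Fin N, ε * (Fintype.card K : ℝ) ^ m := Finset.sum_le_sum fun i _ => h _ (h2 i)
    _ = ε * (Fintype.card K : ℝ) ^ m * N := by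
        rw [Finset.sum_const, Finset.card_univ, Fintype.card_fin, nsmul_eq_mul, mul_comm]

end Pool.Agent.H140.MH
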