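import Mathlib
import Pool.Agent.H140.MH.AllM
import Pool.Agent.H140.MH.Fam

/-!
# Local Gowers uniformity of all orders
-/

set_option autoImplicit false

namespace Pool.Agent.H140.MH.Uni

open Polynomial
open scoped Classical
open Pool.Agent.H694.Typ (Mn mem_Mn card_Mn)
open Pool.Agent.H140.Q (liou)
open Pool.Agent.H140.Q.FinM (liou_mul abs_liou liou_unit)
open Pool.Agent.H251.SP.TII (Pl mem_Pl card_Pl)
open Pool.Agent.H140.MH.Roots (SqO inj1 even_mult split)

section clos

variable {K : Type} [Field K]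

/-- products -/
theorem sqO_mul (F G : K[X][X]) (μ : K[X]) (hF : SqO F μ) (hG : SqO G μ) : SqO (F * G) μ := by
  intro θ hθ
  have hne : (F * G).map (algebraMap K[X] (AlgebraicClosure (RatFunc K))) ≠ 0 := by
    intro h
    rw [h, rootMultiplicity_zero] at hθ
    exact Nat.not_odd_zero hθ
  rw [Polynomial.map_mul] at hθ hne
  rw [rootMultiplicity_mul hne, Nat.odd_add'] at hθ
  by_cases h : Odd (rootMultiplicity θ (G.map (algebraMap K[X] (AlgebraicClosure (RatFunc K)))))
  · exact hG θ h
  · refine hF θ ?_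
    by_contra h2
    exact h (hθ.2 (Nat.not_odd_iff_even.1 h2))

/-- the multiplicities of the roots of a translate -/
theorem mult_shift (F : K[X][X]) (c : K[X]) (θ : AlgebraicClosure (RatFunc K)) :
    rootMultiplicity θ ((F.comp (X + C c)).map
      (algebraMap K[X] (AlgebraicClosure (RatFunc K)))) =
    rootMultiplicity (θ + algebraMap K[X] (AlgebraicClosure (RatFunc K)) c)
      (F.map (algebraMap K[X] (AlgebraicClosure (RatFunc K)))) := by
  set i := algebraMap K[X] (AlgebraicClosure (RatFunc K)) with hi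
  have h1 : (F.comp (X + C c)).map i = (F.map i).comp (X + C (i c)) := by
    rw [Polynomial.map_comp, Polynomial.map_add, map_X, map_C]
  rw [h1, rootMultiplicity_eq_rootMultiplicity (p := (F.map i).comp (X + C (i c))),
      rootMultiplicity_eq_rootMultiplicity (p := F.map i), comp_assoc]
  congr 2
  simp only [add_comp, X_comp, C_comp, C_add]
  ring

/-- translates -/
theorem sqO_shift (F : K[X][X]) (μ c : K[X]) (hF : SqO F μ) : SqO (F.comp (X + C c)) μ := by
  intro θ hθ
  rw [mult_shift] at hθ
  obtain ⟨s, σ, hσ, h3⟩ := hF _ hθ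
  refine ⟨s + algebraMap K[X] (RatFunc K) (μ * c), σ, hσ, ?_⟩
  rw [h3, map_add, ← IsScalarTower.algebraMap_apply K[X] (RatFunc K)
    (AlgebraicClosure (RatFunc K)), map_mul]
  ring

theorem sqO_prod {ι : Type} (s : Finset ι) (F : ι → K[X][X]) (μ : K[X])
    (h : ∀ i ∈ s, SqO (F i) μ) : SqO (∏ i ∈ s, F i) μ := by
  induction s using Finset.induction_on with
  | empty =>
    intro θ hθ
    exfalso
    rw [Finset.prod_empty, Polynomial.map_one, ← C_1, rootMultiplicity_C] at hθ
    exact Nat.not_odd_zero hθ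
  | insert a s ha ih =>
    rw [Finset.prod_insert ha]
    exact sqO_mul _ _ _ (h a (Finset.mem_insert_self a s))
      (ih fun i hi => h i (Finset.mem_insert_of_mem hi))

theorem mult_prod {ι : Type} (s : Finset ι) (F : ι → K[X][X]) (hF : ∀ i ∈ s, F i ≠ 0)
    (θ : AlgebraicClosure (RatFunc K)) :
    rootMultiplicity θ ((∏ i ∈ s, F i).map (algebraMap K[X] (AlgebraicClosure (RatFunc K)))) =
      ∑ i ∈ s, rootMultiplicity θ ((F i).map (algebraMap K[X] (AlgebraicClosure (RatFunc K)))) := by
  induction s using Finset.induction_on with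
  | empty => rw [Finset.prod_empty, Finset.sum_empty, Polynomial.map_one, ← C_1, rootMultiplicity_C]
  | insert a s ha ih =>
    rw [Finset.prod_insert ha, Finset.sum_insert ha, Polynomial.map_mul, rootMultiplicity_mul,
      ih fun i hi => hF i (Finset.mem_insert_of_mem hi)]
    rw [← Polynomial.map_mul, Polynomial.map_ne_zero_iff inj1]
    exact mul_ne_zero (hF a (Finset.mem_insert_self a s))
      (Finset.prod_ne_zero_iff.2 fun i hi => hF i (Finset.mem_insert_of_mem hi))

theorem liou_prod {ι : Type} (s : Finset ι) (F : ι → K[X]) :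
    liou (∏ i ∈ s, F i) = ∏ i ∈ s, liou (F i) := by
  induction s using Finset.induction_on with
  | empty =>
    rw [Finset.prod_empty, Finset.prod_empty]
    exact liou_unit isUnit_one
  | insert a s ha ih =>
    rw [Finset.prod_insert ha, Finset.prod_insert ha, ← ih]
    exact liou_mul _ _

end clos

/-- The number of cubes with a given vertex. -/
theorem card_vertex {K : Type} [Field K] [Fintype K] (k M : ℕ) (Q c : K[X]) (hQ : Q ≠ 0)
    (B : Finset (Fin k)) (hB : B.Nonempty) :
    ((Fintype.piFinset (fun _ : Fin k => Pl K M)).filter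
      (fun t => Q * ∑ j ∈ B, t j = c)).card * (Pl K M).card ≤
      (Fintype.piFinset (fun _ : Fin k => Pl K M)).card := by
  obtain ⟨j, hj⟩ := hB
  rw [← Finset.card_product]
  refine Finset.card_le_card_of_injOn (fun p => Function.update p.1 j p.2) ?_ ?_
  · rintro ⟨t, s⟩ hts
    rw [Finset.mem_coe, Finset.mem_product, Finset.mem_filter, Fintype.mem_piFinset] at hts
    rw [Finset.mem_coe, Fintype.mem_piFinset]
    intro i
    show Function.update t j s i ∈ Pl K M
    by_cases hi : i = j
    · rw [hi, Function.update_self]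
      exact hts.2
    · rw [Function.update_of_ne hi]
      exact hts.1.1 i
  · rintro ⟨t, s⟩ hts ⟨t', s'⟩ hts' heq
    rw [Finset.mem_coe, Finset.mem_product, Finset.mem_filter] at hts hts'
    have h1 : ∀ i, i ≠ j → t i = t' i := by
      intro i hi
      have := congrFun heq i
      simpa only [Function.update_of_ne hi] using this
    have h2 : s = s' := by
      have := congrFun heq j
      simpa only [Function.update_self] using this
    have h3 : ∑ i ∈ B, t i = ∑ i ∈ B, t' i :=
      mul_left_cancel₀ hQ (hts.1.2.trans hts'.1.2.symm)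
    rw [← Finset.add_sum_erase B t hj, ← Finset.add_sum_erase B t' hj,
      Finset.sum_congr rfl fun i hi => h1 i (Finset.ne_of_mem_erase hi)] at h3
    have h4 : t j = t' j := add_right_cancel h3
    refine Prod.ext (funext fun i => ?_) h2
    by_cases hi : i = j
    · rw [hi]
      exact h4
    · exact h1 i hi

/-- **Local Gowers uniformity of all orders.** -/
theorem uni (K : Type) [Field K] [Fintype K] [CharP K 2] (F : K[X][X]) (μ : K[X])
    (hF : derivative F ≠ 0) (hμ : μ ≠ 0) (hr : SqO F μ) (k : ℕ) (Q : K[X]) (hQ : Q ≠ 0)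
    (ε : ℝ) (hε : 0 < ε) :
    ∃ M₀ : ℕ, ∀ M : ℕ, M₀ ≤ M → ∃ N : ℕ, ∀ n : ℕ, N ≤ n →
      |∑ t ∈ Fintype.piFinset (fun _ : Fin k => Pl K M), ∑ a ∈ Mn K n,
        ∏ B : Finset (Fin k), (liou (F.eval (a + Q * ∑ j ∈ B, t j)) : ℝ)| ≤
        ε * ((Fintype.card K : ℝ) ^ (k * M) * (Fintype.card K : ℝ) ^ n) := by
  have hchar : CharP (AlgebraicClosure (RatFunc K)) 2 :=
    charP_of_injective_algebraMap (algebraMap K (AlgebraicClosure (RatFunc K))).injective 2
  set i := algebraMap K[X] (AlgebraicClosure (RatFunc K)) with hi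
  have hF0 : F ≠ 0 := by
    rintro rfl
    exact hF derivative_zero
  have hFi : F.map i ≠ 0 := by rwa [Polynomial.map_ne_zero_iff inj1]
  -- a root of odd multiplicity
  obtain ⟨c₀, f, h, hc₀, hcF, hdeg, hsep, hh0, hh, hroots⟩ := split F hF
  obtain ⟨θ, hθ⟩ : ∃ θ : AlgebraicClosure (RatFunc K), aeval θ f = 0 := by
    obtain ⟨θ, hθ⟩ := IsAlgClosed.exists_root (f.map i) (by
      rw [degree_map_eq_of_injective inj1]
      intro h0
      rw [natDegree_eq_zero_iff_degree_le_zero.2 h0.le] at hdeg
      exact lt_irrefl _ hdeg)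
    exact ⟨θ, by rwa [IsRoot.def, eval_map_algebraMap] at hθ⟩
  have hodd := hroots θ hθ
  -- the differences of the roots
  have hE : {c : K[X] | (F.map i).IsRoot (θ + i c)}.Finite := by
    have h1 : {x : AlgebraicClosure (RatFunc K) | (F.map i).IsRoot x}.Finite :=
      Polynomial.finite_setOfPred_isRoot hFi
    refine Set.Finite.preimage (f := fun c : K[X] => θ + i c) ?_ h1
    intro a _ b _ hab
    exact inj1 (add_left_cancel hab)
  set E : Finset K[X] := hE.toFinset with hEd
  have hq1 : 1 < Fintype.card K := Fintype.one_lt_card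
  set q : ℝ := (Fintype.card K : ℝ) with hq
  have hq2 : (1 : ℝ) < q := by
    rw [hq]
    exact_mod_cast hq1
  -- the good cubes
  have hgood : ∀ t : Fin k → K[X], ∃ N : ℕ,
      (∀ B : Finset (Fin k), B.Nonempty → Q * ∑ j ∈ B, t j ∉ E) → ∀ n : ℕ, N ≤ n →
      |∑ a ∈ Mn K n, ∏ B : Finset (Fin k), (liou (F.eval (a + Q * ∑ j ∈ B, t j)) : ℝ)| ≤
        ε / 2 * q ^ n := by
    intro t
    by_cases hg : ∀ B : Finset (Fin k), B.Nonempty → Q * ∑ j ∈ B, t j ∉ E
    · set G : K[X][X] := ∏ B : Finset (Fin k), F.comp (X + C (Q * ∑ j ∈ B, t j)) with hG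
      have hcomp0 : ∀ c : K[X], F.comp (X + C c) ≠ 0 := by
        intro c h0
        have h1 := congrArg (fun p => p.comp (X - C c)) h0
        simp only [comp_assoc, add_comp, X_comp, C_comp, sub_add_cancel, comp_X, zero_comp] at h1
        exact hF0 h1
      have hGs : SqO G μ := sqO_prod _ _ _ fun B _ => sqO_shift _ _ _ hr
      have hGd : derivative G ≠ 0 := by
        intro h0
        have h1 : Even (rootMultiplicity θ (G.map i)) := by
          refine even_mult _ ?_ θ
          rw [derivative_map, h0, Polynomial.map_zero]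
        rw [hG, mult_prod _ _ (fun B _ => hcomp0 _)] at h1
        have h2 : ∀ B : Finset (Fin k), B ≠ ∅ → rootMultiplicity θ
            ((F.comp (X + C (Q * ∑ j ∈ B, t j))).map i) = 0 := by
          intro B hB
          rw [mult_shift]
          refine rootMultiplicity_eq_zero fun h3 => ?_
          apply hg B (Finset.nonempty_iff_ne_empty.2 hB)
          rw [hEd, Set.Finite.mem_toFinset]
          exact h3
        rw [Finset.sum_eq_single (∅ : Finset (Fin k)) (fun B _ hB => h2 B hB)
          (fun h3 => absurd (Finset.mem_univ _) h3), mult_shift, Finset.sum_empty, mul_zero,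
          map_zero, add_zero] at h1
        exact (Nat.not_even_iff_odd.2 hodd) h1
      obtain ⟨c₁, f₁, h₁, hc₁, hcF₁, hdeg₁, hsep₁, hh0₁, hh₁, hroots₁⟩ := split G hGd
      obtain ⟨N, hN⟩ := s_fin K f₁ h₁ μ 0 hdeg₁ hsep₁ hμ
        (fun θ hθ => hGs θ (hroots₁ θ hθ)) hh0₁ hh₁ (ε / 2) (by positivity)
      refine ⟨N, fun _ n hn => ?_⟩
      have h1 := hN n hn (fun _ => 1) (fun _ => by rw [abs_one])
        (fun _ => ⟨1, fun u => by rw [AddChar.one_apply, one_mul]⟩) (fun _ => 1) (fun _ => rfl)
      have h2 : ∑ g ∈ Mn K n, (((1 : ℝ) * (liou (f₁.eval g * h₁.eval g) : ℝ) : ℝ) : ℂ) * (1 : ℂ) =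
          ((∑ a ∈ Mn K n, ∏ B : Finset (Fin k),
            (liou (F.eval (a + Q * ∑ j ∈ B, t j)) : ℝ) : ℝ) : ℂ) := by
        rw [Complex.ofReal_sum]
        refine Finset.sum_congr rfl fun a _ => ?_
        have h3 : f₁.eval a * h₁.eval a = c₁ ^ 2 * G.eval a := by
          rw [← eval_mul, ← hcF₁, eval_mul, eval_C]
        rw [mul_one, one_mul, h3, liou_sq_mul hc₁, hG, eval_prod, liou_prod]
        congr 1
        rw [Int.cast_prod]
        refine Finset.prod_congr rfl fun B _ => ?_
        rw [eval_comp, eval_add, eval_X, eval_C]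
      rw [h2, Complex.norm_real, Real.norm_eq_abs] at h1
      exact h1
    · exact ⟨0, fun h => absurd h hg⟩
  choose N hN using hgood
  -- the size of the cubes
  obtain ⟨M₀, hM₀⟩ : ∃ M₀ : ℕ, (2 : ℝ) ^ k * E.card / (ε / 2) < q ^ M₀ :=
    pow_unbounded_of_one_lt _ hq2
  refine ⟨M₀, fun M hM => ⟨(Fintype.piFinset (fun _ : Fin k => Pl K M)).sup N, fun n hn => ?_⟩⟩
  set T := Fintype.piFinset (fun _ : Fin k => Pl K M) with hT
  have hTc : (T.card : ℝ) = q ^ (k * M) := by
    rw [hT, Fintype.card_piFinset, Finset.prod_const, Finset.card_univ, Fintype.card_fin, card_Pl,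
      ← pow_mul, mul_comm]
    push_cast
    rfl
  set Bad : (Fin k → K[X]) → Prop := fun t => ∃ B : Finset (Fin k), B.Nonempty ∧
    Q * ∑ j ∈ B, t j ∈ E with hBad
  have htriv : ∀ t : Fin k → K[X], |∑ a ∈ Mn K n, ∏ B : Finset (Fin k),
      (liou (F.eval (a + Q * ∑ j ∈ B, t j)) : ℝ)| ≤ q ^ n := by
    intro t
    refine (Finset.abs_sum_le_sum_abs _ _).trans ?_
    have h1 : ∀ a ∈ Mn K n, |∏ B : Finset (Fin k),
        (liou (F.eval (a + Q * ∑ j ∈ B, t j)) : ℝ)| ≤ 1 := by
      intro a _
      rw [Finset.abs_prod]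
      exact Finset.prod_le_one (fun _ _ => abs_nonneg _) fun _ _ => abs_liou _
    refine (Finset.sum_le_sum h1).trans ?_
    rw [Finset.sum_const, card_Mn, nsmul_eq_mul, mul_one, hq]
    push_cast
    exact le_rfl
  have hbadc : ((T.filter Bad).card : ℝ) ≤ ε / 2 * q ^ (k * M) := by
    have h1 : T.filter Bad ⊆ ((Finset.univ : Finset (Finset (Fin k))).filter
        Finset.Nonempty).biUnion fun B => E.biUnion fun c =>
          T.filter (fun t => Q * ∑ j ∈ B, t j = c) := by
      intro t ht
      rw [Finset.mem_filter] at ht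
      obtain ⟨ht, B, hB, hBE⟩ := ht
      rw [Finset.mem_biUnion]
      refine ⟨B, Finset.mem_filter.2 ⟨Finset.mem_univ _, hB⟩, ?_⟩
      rw [Finset.mem_biUnion]
      exact ⟨_, hBE, Finset.mem_filter.2 ⟨ht, rfl⟩⟩
    have h2 : ((T.filter Bad).card : ℝ) * q ^ M ≤ 2 ^ k * E.card * q ^ (k * M) := by
      have h3 : (T.filter Bad).card ≤ ∑ B ∈ (Finset.univ : Finset (Finset (Fin k))).filter
          Finset.Nonempty, ∑ c ∈ E, (T.filter (fun t => Q * ∑ j ∈ B, t j = c)).card :=
        (Finset.card_le_card h1).trans (Finset.card_biUnion_le.trans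
          (Finset.sum_le_sum fun B _ => Finset.card_biUnion_le))
      have h4 : (T.filter Bad).card * (Pl K M).card ≤ 2 ^ k * E.card * T.card := by
        calc (T.filter Bad).card * (Pl K M).card
            ≤ (∑ B ∈ (Finset.univ : Finset (Finset (Fin k))).filter
              Finset.Nonempty, ∑ c ∈ E, (T.filter (fun t => Q * ∑ j ∈ B, t j = c)).card) *
              (Pl K M).card := Nat.mul_le_mul_right _ h3
          _ = ∑ B ∈ (Finset.univ : Finset (Finset (Fin k))).filter Finset.Nonempty,
              ∑ c ∈ E, (T.filter (fun t => Q * ∑ j ∈ B, t j = c)).card * (Pl K M).card := by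
              rw [Finset.sum_mul]
              exact Finset.sum_congr rfl fun B _ => Finset.sum_mul _ _ _
          _ ≤ ∑ B ∈ (Finset.univ : Finset (Finset (Fin k))).filter Finset.Nonempty,
              ∑ c ∈ E, T.card := by
              refine Finset.sum_le_sum fun B hB => Finset.sum_le_sum fun c _ => ?_
              exact card_vertex k M Q c hQ B (Finset.mem_filter.1 hB).2
          _ = ((Finset.univ : Finset (Finset (Fin k))).filter Finset.Nonempty).card *
              (E.card * T.card) := by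
              rw [Finset.sum_const, Finset.sum_const, smul_eq_mul, smul_eq_mul]
          _ ≤ 2 ^ k * (E.card * T.card) := by
              refine Nat.mul_le_mul_right _ ?_
              refine (Finset.card_filter_le _ _).trans ?_
              rw [Finset.card_univ, Fintype.card_finset, Fintype.card_fin]
          _ = 2 ^ k * E.card * T.card := by ring
      have h5 : ((T.filter Bad).card : ℝ) * ((Pl K M).card : ℝ) ≤
          2 ^ k * E.card * (T.card : ℝ) := by exact_mod_cast h4
      rw [hTc, card_Pl] at h5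
      push_cast at h5
      exact h5
    have hqM : (0 : ℝ) < q ^ M := by positivity
    have h3 : (2 : ℝ) ^ k * E.card ≤ ε / 2 * q ^ M := by
      have h4 : (2 : ℝ) ^ k * E.card < q ^ M₀ * (ε / 2) := by
        rwa [div_lt_iff₀ (by positivity)] at hM₀
      have h5 : q ^ M₀ ≤ q ^ M := pow_le_pow_right₀ hq2.le hM
      nlinarith
    have hqk : (0 : ℝ) < q ^ (k * M) := by positivity
    have h4 : ((T.filter Bad).card : ℝ) * q ^ M ≤ ε / 2 * q ^ (k * M) * q ^ M := by
      refine h2.trans ?_
      calc (2 : ℝ) ^ k * E.card * q ^ (k * M) ≤ ε / 2 * q ^ M * q ^ (k * M) :=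
            mul_le_mul_of_nonneg_right h3 hqk.le
        _ = ε / 2 * q ^ (k * M) * q ^ M := by ring
    exact le_of_mul_le_mul_right h4 hqM
  calc |∑ t ∈ T, ∑ a ∈ Mn K n, ∏ B : Finset (Fin k), (liou (F.eval (a + Q * ∑ j ∈ B, t j)) : ℝ)|
      ≤ ∑ t ∈ T, |∑ a ∈ Mn K n, ∏ B : Finset (Fin k),
          (liou (F.eval (a + Q * ∑ j ∈ B, t j)) : ℝ)| := Finset.abs_sum_le_sum_abs _ _
    _ ≤ ∑ t ∈ T, ((if Bad t then q ^ n else 0) + ε / 2 * q ^ n) := by
        refine Finset.sum_le_sum fun t ht => ?_
        by_cases hb : Bad t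
        · rw [if_pos hb]
          have := htriv t
          have h1 : 0 ≤ ε / 2 * q ^ n := by positivity
          linarith
        · rw [if_neg hb, zero_add]
          refine hN t (fun B hB hE' => hb ⟨B, hB, hE'⟩) n ?_
          exact (Finset.le_sup (f := N) ht).trans hn
    _ = ((T.filter Bad).card : ℝ) * q ^ n + T.card * (ε / 2 * q ^ n) := by
        rw [Finset.sum_add_distrib, ← Finset.sum_filter, Finset.sum_const, Finset.sum_const,
          nsmul_eq_mul, nsmul_eq_mul]
    _ ≤ ε / 2 * q ^ (k * M) * q ^ n + q ^ (k * M) * (ε / 2 * q ^ n) := by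
        rw [hTc]
        have : (0 : ℝ) ≤ q ^ n := by positivity
        nlinarith
    _ = ε * (q ^ (k * M) * q ^ n) := by ring

end Pool.Agent.H140.MH.Uni
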